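import Pool.Agent.SplH.Defs

/-!
# Splines on domains with holes and smoothing cofactors

The version of `Spl1.finrank_splineAlg` for domains with holes: there is one more relation for each hole.
-/

set_option autoImplicit false
set_option linter.unusedSectionVars false

namespace Pool.Agent.SplH

open Finset Pool.Agent.Spl1 Pool.Agent.Spl2

variable {V : Type*} [Fintype V] [DecidableEq V]
variable {T : Finset (Finset V)} {c : ℕ} {lab : V → Fin (c + 1)}

private theorem tc_pair (u v : V) : ({v, u} : Finset V) = {u, v} := pair_comm v u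

/-- the coboundary map -/
private noncomputable def tcPsi (p : V × Fin 2 → ℝ) (T : Finset (Finset V)) :
    (Finset V → MvPolynomial (Fin 2) ℝ) →ₗ[ℝ] (V → V → MvPolynomial (Fin 2) ℝ) where
  toFun f u v := if u ≠ v ∧ ({u, v} : Finset V) ∈ intE T then
    ∑ t ∈ T.filter (fun t => {u, v} ⊆ t), ori p t u v • f t else 0
  map_add' f g := by
    funext u v
    simp only [Pi.add_apply]
    split_ifs with h
    · simp only [smul_add, sum_add_distrib]
    · simp
  map_smul' c f := by
    funext u v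
    simp only [Pi.smul_apply, RingHom.id_apply]
    split_ifs with h
    · rw [smul_sum]
      apply sum_congr rfl
      intro t _
      rw [smul_comm]
    · simp

private theorem tcPsi_pos {p : V × Fin 2 → ℝ} {T : Finset (Finset V)}
    (f : Finset V → MvPolynomial (Fin 2) ℝ) {u v : V} (huv : u ≠ v)
    (he : ({u, v} : Finset V) ∈ intE T) :
    tcPsi p T f u v = ∑ t ∈ T.filter (fun t => {u, v} ⊆ t), ori p t u v • f t :=
  if_pos ⟨huv, he⟩

private theorem tcPsi_neg {p : V × Fin 2 → ℝ} {T : Finset (Finset V)}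
    (f : Finset V → MvPolynomial (Fin 2) ℝ) {u v : V}
    (he : ¬ (u ≠ v ∧ ({u, v} : Finset V) ∈ intE T)) :
    tcPsi p T f u v = 0 :=
  if_neg he

/-- multiplication with the powers of the linear forms -/
private noncomputable def tcTh (p : V × Fin 2 → ℝ) (r : ℕ) :
    (V → V → MvPolynomial (Fin 2) ℝ) →ₗ[ℝ] (V → V → MvPolynomial (Fin 2) ℝ) where
  toFun g u v := g u v * lin p u v ^ (r + 1)
  map_add' f g := by
    funext u v
    simp only [Pi.add_apply, add_mul]
  map_smul' c f := by
    funext u v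
    simp only [Pi.smul_apply, RingHom.id_apply, smul_mul_assoc]

private theorem tcTh_apply (p : V × Fin 2 → ℝ) (r : ℕ) (g : V → V → MvPolynomial (Fin 2) ℝ)
    (u v : V) : tcTh p r g u v = g u v * lin p u v ^ (r + 1) := rfl

private theorem tc_two {T : Finset (Finset V)} {u v : V} (he : ({u, v} : Finset V) ∈ intE T) :
    ∃ s t, s ≠ t ∧ s ∈ T ∧ t ∈ T ∧ u ∈ s ∧ v ∈ s ∧ u ∈ t ∧ v ∈ t ∧
      T.filter (fun t => {u, v} ⊆ t) = {s, t} := by
  have h : (T.filter (fun t => {u, v} ⊆ t)).card = 2 := (mem_filter.1 he).2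
  obtain ⟨s, t, hst, h2⟩ := card_eq_two.1 h
  have hs : s ∈ T.filter (fun t => {u, v} ⊆ t) := by rw [h2]; simp
  have ht : t ∈ T.filter (fun t => {u, v} ⊆ t) := by rw [h2]; simp
  rw [mem_filter, insert_subset_iff, singleton_subset_iff] at hs ht
  exact ⟨s, t, hst, hs.1, ht.1, hs.2.1, hs.2.2, ht.2.1, ht.2.2, h2⟩

private theorem tc_intE {p : V × Fin 2 → ℝ} {T : Finset (Finset V)} (hp : IsTriang p T)
    {s t : Finset V} (hs : s ∈ T) (ht : t ∈ T) (hst : s ≠ t) {u v : V} (huv : u ≠ v)
    (hus : u ∈ s) (hvs : v ∈ s) (hut : u ∈ t) (hvt : v ∈ t) :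
    ({u, v} : Finset V) ∈ intE T ∧ T.filter (fun t => {u, v} ⊆ t) = {s, t} := by
  have hc : ({u, v} : Finset V).card = 2 := card_pair huv
  have hsub : ({s, t} : Finset (Finset V)) ⊆ T.filter (fun t => {u, v} ⊆ t) := by
    intro x hx
    rw [mem_insert, mem_singleton] at hx
    rw [mem_filter, insert_subset_iff, singleton_subset_iff]
    rcases hx with rfl | rfl
    · exact ⟨hs, hus, hvs⟩
    · exact ⟨ht, hut, hvt⟩
  have hle : (T.filter (fun t => {u, v} ⊆ t)).card ≤ 2 := tdeg_le_two hp hc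
  have h2 : ({s, t} : Finset (Finset V)).card = 2 := card_pair hst
  have heq : T.filter (fun t => {u, v} ⊆ t) = {s, t} :=
    (eq_of_subset_of_card_le hsub (by rw [h2]; exact hle)).symm
  refine ⟨mem_filter.2 ⟨mem_edges.2 ⟨hc, s, hs, ?_⟩, ?_⟩, heq⟩
  · rw [insert_subset_iff, singleton_subset_iff]; exact ⟨hus, hvs⟩
  · unfold tdeg
    rw [heq, h2]

private theorem tcPsi_two {p : V × Fin 2 → ℝ} {T : Finset (Finset V)} (hp : IsTriang p T)
    (f : Finset V → MvPolynomial (Fin 2) ℝ) {s t : Finset V} (hs : s ∈ T) (ht : t ∈ T)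
    (hst : s ≠ t) {u v : V} (huv : u ≠ v) (hus : u ∈ s) (hvs : v ∈ s) (hut : u ∈ t) (hvt : v ∈ t) :
    tcPsi p T f u v = ori p s u v • (f s - f t) := by
  obtain ⟨he, hf⟩ := tc_intE hp hs ht hst huv hus hvs hut hvt
  rw [tcPsi_pos f huv he, hf, sum_pair hst, (ori_ori hp).opp s hs t ht hst u v huv hus hvs hut hvt,
    neg_smul, neg_smul, smul_sub]
  abel

private theorem tc_lin_swap (p : V × Fin 2 → ℝ) (u v : V) : lin p v u = - lin p u v := by
  unfold lin
  simp only [map_sub]
  ring

private theorem tc_lin_pow (p : V × Fin 2 → ℝ) (r : ℕ) (u v : V) :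
    lin p v u ^ (r + 1) = - ((-1) ^ r * lin p u v ^ (r + 1)) := by
  rw [tc_lin_swap, neg_pow, pow_succ]
  ring

private theorem tc_lin_ne {p : V × Fin 2 → ℝ} {T : Finset (Finset V)} (hp : IsTriang p T)
    {u v : V} (huv : u ≠ v) : lin p u v ≠ 0 := by
  intro h
  have h1 := congrArg (MvPolynomial.eval ![p (u, 0) - (p (v, 1) - p (u, 1)),
    p (u, 1) + (p (v, 0) - p (u, 0))]) h
  unfold lin at h1
  simp at h1
  apply huv
  apply pt_injective hp
  funext k
  have h2 : (p (v, 0) - p (u, 0)) = 0 := by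
    have : (p (v, 0) - p (u, 0)) ^ 2 = 0 := by
      nlinarith [sq_nonneg (p (v, 0) - p (u, 0)), sq_nonneg (p (v, 1) - p (u, 1))]
    exact pow_eq_zero_iff (two_ne_zero) |>.1 this
  have h3 : (p (v, 1) - p (u, 1)) = 0 := by
    have : (p (v, 1) - p (u, 1)) ^ 2 = 0 := by
      nlinarith [sq_nonneg (p (v, 0) - p (u, 0)), sq_nonneg (p (v, 1) - p (u, 1))]
    exact pow_eq_zero_iff (two_ne_zero) |>.1 this
  fin_cases k
  · show p (u, 0) = p (v, 0)
    linarith
  · show p (u, 1) = p (v, 1)
    linarith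

private theorem tc_lin_deg {p : V × Fin 2 → ℝ} {T : Finset (Finset V)} (hp : IsTriang p T)
    {u v : V} (huv : u ≠ v) : 1 ≤ (lin p u v).totalDegree := by
  by_contra hc
  have h0 : (lin p u v).totalDegree = 0 := by omega
  rw [MvPolynomial.totalDegree_eq_zero_iff_eq_C] at h0
  have h1 : MvPolynomial.eval (pt p u) (lin p u v) = 0 := by
    unfold lin pt
    simp
  have h2 := tc_lin_ne hp huv
  rw [h0, MvPolynomial.eval_C] at h1
  rw [h0, h1] at h2
  exact h2 (map_zero _)

private theorem tc_lin_deg_le (p : V × Fin 2 → ℝ) (u v : V) : (lin p u v).totalDegree ≤ 1 := by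
  unfold lin
  have hX : ∀ (i : Fin 2) (c : ℝ),
      (MvPolynomial.X i - MvPolynomial.C c : MvPolynomial (Fin 2) ℝ).totalDegree ≤ 1 := by
    intro i c
    refine (MvPolynomial.totalDegree_sub _ _).trans (max_le ?_ ?_)
    · rw [MvPolynomial.totalDegree_X]
    · rw [MvPolynomial.totalDegree_C]; omega
  refine (MvPolynomial.totalDegree_sub _ _).trans (max_le ?_ ?_)
  · refine (MvPolynomial.totalDegree_mul _ _).trans ?_
    rw [MvPolynomial.totalDegree_C, zero_add]
    exact hX _ _
  · refine (MvPolynomial.totalDegree_mul _ _).trans ?_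
    rw [MvPolynomial.totalDegree_C, zero_add]
    exact hX _ _

private theorem tc_deg_mul_pow {q l : MvPolynomial (Fin 2) ℝ} (hq : q ≠ 0) (hl : l ≠ 0)
    (hd : 1 ≤ l.totalDegree) (n : ℕ) : q.totalDegree + n ≤ (q * l ^ n).totalDegree := by
  induction n with
  | zero => simp
  | succ n ih =>
    rw [pow_succ, ← mul_assoc, MvPolynomial.totalDegree_mul_of_isDomain
      (mul_ne_zero hq (pow_ne_zero _ hl)) hl]
    omega

private theorem tcPsi_anti {p : V × Fin 2 → ℝ} {T : Finset (Finset V)} (hp : IsTriang p T)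
    (f : Finset V → MvPolynomial (Fin 2) ℝ) (u v : V) : tcPsi p T f v u = - tcPsi p T f u v := by
  by_cases h : u ≠ v ∧ ({u, v} : Finset V) ∈ intE T
  · have h' : ({v, u} : Finset V) ∈ intE T := by rw [tc_pair]; exact h.2
    rw [tcPsi_pos f h.1 h.2, tcPsi_pos f h.1.symm h', tc_pair u v, ← sum_neg_distrib]
    apply sum_congr rfl
    intro t ht
    rw [mem_filter, insert_subset_iff, singleton_subset_iff] at ht
    rw [(ori_ori hp).anti t ht.1 u v h.1 ht.2.1 ht.2.2, neg_smul]
  · have h' : ¬ (v ≠ u ∧ ({v, u} : Finset V) ∈ intE T) := by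
      rw [tc_pair]
      exact fun hh => h ⟨hh.1.symm, hh.2⟩
    rw [tcPsi_neg f h, tcPsi_neg f h', neg_zero]

private theorem tcPsi_vert (h : Dm T c lab) {p : V × Fin 2 → ℝ} (hp : IsTriang p T)
    (f : Finset V → MvPolynomial (Fin 2) ℝ) (x : V ⊕ Fin (c + 1)) :
    ∑ u ∈ univ.filter (fun u => kap T lab u = x), ∑ v, tcPsi p T f u v = 0 :=
  h.cob_sum (ori_ori hp) f x

private theorem tc_mem_alg {r k : ℕ} {p : V × Fin 2 → ℝ} {T : Finset (Finset V)}
    {f : Finset V → MvPolynomial (Fin 2) ℝ} : f ∈ SplineAlg r k p T ↔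
    (∀ t, t ∉ T → f t = 0) ∧ (∀ t ∈ T, (f t).totalDegree ≤ k) ∧
    ∀ s ∈ T, ∀ t ∈ T, ∀ u v, u ≠ v → u ∈ s → v ∈ s → u ∈ t → v ∈ t →
      lin p u v ^ (r + 1) ∣ f s - f t := Iff.rfl

private theorem tc_mem_cof {r d : ℕ} {p : V × Fin 2 → ℝ}
    {g : V → V → MvPolynomial (Fin 2) ℝ} : g ∈ CofH r d p T lab ↔
      IsCofQ r d p (intE T) (kap T lab) (cls T c) g := Iff.rfl

private theorem tc_map_le (h0 : Dm T c lab) {p : V × Fin 2 → ℝ} (hp : IsTriang p T)
    (r d : ℕ) : Submodule.map (tcPsi p T) (SplineAlg r (r + 1 + d) p T) ≤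
      Submodule.map (tcTh p r) (CofH r d p T lab) := by
  rintro _ ⟨f, hf, rfl⟩
  have hf' := tc_mem_alg.1 hf
  have key : ∀ u v, ∃ q : MvPolynomial (Fin 2) ℝ, tcPsi p T f u v = q * lin p u v ^ (r + 1) ∧
      (q ≠ 0 → u ≠ v ∧ ({u, v} : Finset V) ∈ intE T) ∧ q.totalDegree ≤ d := by
    intro u v
    by_cases h : u ≠ v ∧ ({u, v} : Finset V) ∈ intE T
    · obtain ⟨s, t, hst, hs, ht, hus, hvs, hut, hvt, -⟩ := tc_two h.2
      have h1 := tcPsi_two hp f hs ht hst h.1 hus hvs hut hvt
      obtain ⟨q, hq⟩ := hf'.2.2 s hs t ht u v h.1 hus hvs hut hvt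
      refine ⟨ori p s u v • q, ?_, fun _ => h, ?_⟩
      · rw [h1, hq, smul_mul_assoc, mul_comm q]
      · refine (MvPolynomial.totalDegree_smul_le _ _).trans ?_
        by_cases hq0 : q = 0
        · rw [hq0]; simp
        · have h2 := tc_deg_mul_pow hq0 (tc_lin_ne hp h.1) (tc_lin_deg hp h.1) (r + 1)
          rw [mul_comm q, ← hq] at h2
          have h3 := (MvPolynomial.totalDegree_sub (f s) (f t)).trans
            (max_le (hf'.2.1 s hs) (hf'.2.1 t ht))
          omega
    · refine ⟨0, ?_, fun hh => absurd rfl hh, by simp⟩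
      rw [tcPsi_neg f h, zero_mul]
  choose g hg1 hg2 hg3 using key
  refine ⟨g, ?_, ?_⟩
  · refine ⟨hg2, hg3, ?_, ?_⟩
    · intro u v
      by_cases h : u ≠ v ∧ ({u, v} : Finset V) ∈ intE T
      · have h1 := tcPsi_anti hp f u v
        rw [hg1, hg1, tc_lin_pow] at h1
        have hne : lin p u v ^ (r + 1) ≠ 0 := pow_ne_zero _ (tc_lin_ne hp h.1)
        have h2 : (g v u * (-1) ^ r - g u v) * lin p u v ^ (r + 1) = 0 := by
          linear_combination (-1 : MvPolynomial (Fin 2) ℝ) * h1
        rcases mul_eq_zero.1 h2 with h3 | h3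
        · have h4 : ((-1 : MvPolynomial (Fin 2) ℝ) ^ r) * (-1) ^ r = 1 := by
            rw [← mul_pow]; simp
          have h5 : g u v = g v u * (-1) ^ r := (sub_eq_zero.1 h3).symm
          rw [h5]
          linear_combination (- g v u) * h4
        · exact absurd h3 hne
      · have h1 : g u v = 0 := by
          by_contra hc
          exact h (hg2 u v hc)
        have h2 : g v u = 0 := by
          by_contra hc
          have := hg2 v u hc
          rw [tc_pair] at this
          exact h ⟨this.1.symm, this.2⟩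
        rw [h1, h2, mul_zero]
    · intro x _
      rw [← tcPsi_vert h0 hp f x]
      apply sum_congr rfl
      intro u _
      apply sum_congr rfl
      intro v _
      exact (hg1 u v).symm
  · funext u v
    rw [tcTh_apply]
    exact (hg1 u v).symm

private theorem tc_coeff_smul_sum {ι : Type*} (S : Finset ι) (c : ι → ℝ)
    (f : ι → MvPolynomial (Fin 2) ℝ) (m : Fin 2 →₀ ℕ) :
    MvPolynomial.coeff m (∑ t ∈ S, c t • f t) = ∑ t ∈ S, c t * MvPolynomial.coeff m (f t) := by
  rw [MvPolynomial.coeff_sum]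
  apply sum_congr rfl
  intro t _
  rw [MvPolynomial.coeff_smul, smul_eq_mul]

private theorem tc_le_map (h0 : Dm T c lab) {p : V × Fin 2 → ℝ} (hp : IsTriang p T)
    (r d : ℕ) : Submodule.map (tcTh p r) (CofH r d p T lab) ≤
      Submodule.map (tcPsi p T) (SplineAlg r (r + 1 + d) p T) := by
  rintro _ ⟨g, hg, rfl⟩
  have hg' := tc_mem_cof.1 hg
  have hsw : ∀ u v, tcTh p r g v u = - tcTh p r g u v := by
    intro u v
    rw [tcTh_apply, tcTh_apply, hg'.symm u v, tc_lin_pow p r u v]
    have h4 : ((-1 : MvPolynomial (Fin 2) ℝ) ^ r) * (-1) ^ r = 1 := by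
      rw [← mul_pow]; simp
    linear_combination (- g u v * lin p u v ^ (r + 1)) * h4
  have key : ∀ m : Fin 2 →₀ ℕ, ∃ f : Finset V → ℝ, ∀ u v, u ≠ v →
      ({u, v} : Finset V) ∈ intE T → MvPolynomial.coeff m (tcTh p r g u v) =
        ∑ t ∈ T.filter (fun t => {u, v} ⊆ t), ori p t u v * f t := by
    intro m
    refine h0.exact (ori_ori hp)
      (J := fun u v => MvPolynomial.coeff m (tcTh p r g u v)) ?_ ?_ ?_
    · intro u v
      rw [hsw u v, MvPolynomial.coeff_neg]
    · intro u v h
      apply hg'.supp u v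
      intro h0
      apply h
      simp only [tcTh_apply, h0, zero_mul, MvPolynomial.coeff_zero]
    · intro x hx
      have h1 := hg'.eq x hx
      simp_rw [← MvPolynomial.coeff_sum]
      have h2 : ∑ u ∈ fib T lab x, ∑ v, tcTh p r g u v = 0 := h1
      rw [h2, MvPolynomial.coeff_zero]
  choose F hF using key
  set S : Finset (Fin 2 →₀ ℕ) :=
    univ.biUnion (fun u => univ.biUnion (fun v => (tcTh p r g u v).support)) with hS
  have hSdeg : ∀ m ∈ S, (m.sum fun _ e => e) ≤ r + 1 + d := by
    intro m hm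
    rw [hS, mem_biUnion] at hm
    obtain ⟨u, -, hm⟩ := hm
    rw [mem_biUnion] at hm
    obtain ⟨v, -, hm⟩ := hm
    have h1 := MvPolynomial.le_totalDegree hm
    have h2 : (tcTh p r g u v).totalDegree ≤ d + (r + 1) := by
      rw [tcTh_apply]
      refine (MvPolynomial.totalDegree_mul _ _).trans (add_le_add (hg'.deg u v) ?_)
      refine (MvPolynomial.totalDegree_pow _ _).trans ?_
      calc (r + 1) * (lin p u v).totalDegree ≤ (r + 1) * 1 :=
            Nat.mul_le_mul_left _ (tc_lin_deg_le p u v)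
        _ = r + 1 := mul_one _
    omega
  have hSz : ∀ m, m ∉ S → ∀ u v, MvPolynomial.coeff m (tcTh p r g u v) = 0 := by
    intro m hm u v
    by_contra hc
    apply hm
    rw [hS, mem_biUnion]
    refine ⟨u, mem_univ _, mem_biUnion.2 ⟨v, mem_univ _, ?_⟩⟩
    exact MvPolynomial.mem_support_iff.2 hc
  have hmain : ∀ f : Finset V → MvPolynomial (Fin 2) ℝ,
      (∀ t ∈ T, f t = ∑ m ∈ S, MvPolynomial.monomial m (F m t)) →
      tcPsi p T f = tcTh p r g := by
    intro f hf
    funext u v
    by_cases h : u ≠ v ∧ ({u, v} : Finset V) ∈ intE T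
    · rw [tcPsi_pos f h.1 h.2]
      ext m
      rw [tc_coeff_smul_sum]
      by_cases hm : m ∈ S
      · rw [hF m u v h.1 h.2]
        apply sum_congr rfl
        intro t ht
        rw [hf t (mem_filter.1 ht).1, MvPolynomial.coeff_sum]
        congr 1
        simp only [MvPolynomial.coeff_monomial]
        rw [sum_ite_eq' S m (fun x => F x t), if_pos hm]
      · rw [hSz m hm u v]
        apply sum_eq_zero
        intro t ht
        rw [hf t (mem_filter.1 ht).1, MvPolynomial.coeff_sum]
        simp only [MvPolynomial.coeff_monomial]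
        rw [sum_ite_eq' S m (fun x => F x t), if_neg hm, mul_zero]
    · rw [tcPsi_neg f h, tcTh_apply]
      have h1 : g u v = 0 := by
        by_contra hc
        exact h (hg'.supp u v hc)
      rw [h1, zero_mul]
  set f : Finset V → MvPolynomial (Fin 2) ℝ := fun t =>
    if t ∈ T then ∑ m ∈ S, MvPolynomial.monomial m (F m t) else 0 with hfdef
  have hfT : ∀ t ∈ T, f t = ∑ m ∈ S, MvPolynomial.monomial m (F m t) := by
    intro t ht
    simp only [hfdef, if_pos ht]
  have hP := hmain f hfT
  refine ⟨f, ?_, hP⟩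
  refine tc_mem_alg.2 ⟨?_, ?_, ?_⟩
  · intro t ht
    simp only [hfdef, if_neg ht]
  · intro t ht
    rw [hfT t ht]
    apply MvPolynomial.totalDegree_finsetSum_le
    intro m hm
    exact (MvPolynomial.totalDegree_monomial_le _ _).trans (hSdeg m hm)
  · intro s hs t ht u v huv hus hvs hut hvt
    by_cases hst : s = t
    · rw [hst, sub_self]
      exact dvd_zero _
    · have h1 := tcPsi_two hp f hs ht hst huv hus hvs hut hvt
      rw [hP, tcTh_apply] at h1
      rcases (ori_ori hp).pm s hs u v huv hus hvs with h2 | h2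
      · rw [h2, one_smul] at h1
        rw [← h1]
        exact Dvd.intro_left _ rfl
      · rw [h2, neg_smul, one_smul] at h1
        have h3 : f s - f t = - (g u v * lin p u v ^ (r + 1)) := by
          rw [h1, neg_neg]
        rw [h3]
        exact (Dvd.intro_left _ rfl).neg_right

/-- constant splines -/
private noncomputable def tcK (T : Finset (Finset V)) :
    MvPolynomial (Fin 2) ℝ →ₗ[ℝ] (Finset V → MvPolynomial (Fin 2) ℝ) where
  toFun P t := if t ∈ T then P else 0
  map_add' P Q := by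
    funext t
    simp only [Pi.add_apply]
    split_ifs <;> simp
  map_smul' c P := by
    funext t
    simp only [Pi.smul_apply, RingHom.id_apply]
    split_ifs <;> simp

private theorem tcK_pos {T : Finset (Finset V)} {t : Finset V} (ht : t ∈ T)
    (P : MvPolynomial (Fin 2) ℝ) : tcK T P t = P := if_pos ht

private theorem tcK_neg {T : Finset (Finset V)} {t : Finset V} (ht : t ∉ T)
    (P : MvPolynomial (Fin 2) ℝ) : tcK T P t = 0 := if_neg ht

private theorem tc_ker (h0 : Dm T c lab) {p : V × Fin 2 → ℝ} (hp : IsTriang p T)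
    (r k : ℕ) :
    Submodule.map (tcK T) (MvPolynomial.restrictTotalDegree (Fin 2) ℝ k) =
      SplineAlg r k p T ⊓ LinearMap.ker (tcPsi p T) := by
  apply le_antisymm
  · rintro _ ⟨P, hP, rfl⟩
    have hP' : P.totalDegree ≤ k := (MvPolynomial.mem_restrictTotalDegree _ _ _).1 hP
    refine ⟨tc_mem_alg.2 ⟨?_, ?_, ?_⟩, ?_⟩
    · intro t ht
      exact tcK_neg ht P
    · intro t ht
      rw [tcK_pos ht]
      exact hP'
    · intro s hs t ht u v _ _ _ _ _
      rw [tcK_pos hs, tcK_pos ht, sub_self]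
      exact dvd_zero _
    · rw [SetLike.mem_coe, LinearMap.mem_ker]
      funext u v
      by_cases h : u ≠ v ∧ ({u, v} : Finset V) ∈ intE T
      · obtain ⟨s, t, hst, hs, ht, hus, hvs, hut, hvt, -⟩ := tc_two h.2
        rw [tcPsi_two hp _ hs ht hst h.1 hus hvs hut hvt, tcK_pos hs, tcK_pos ht, sub_self,
          smul_zero]
        rfl
      · rw [tcPsi_neg _ h]
        rfl
  · rintro f ⟨hf, hk⟩
    have hf' := tc_mem_alg.1 hf
    rw [SetLike.mem_coe, LinearMap.mem_ker] at hk
    obtain ⟨t₀, ht₀⟩ := h0.ne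
    have hc := h0.const_cob (ori_ori hp) (f := f) (by
      intro u v huv he
      rw [← tcPsi_pos f huv he, hk]
      rfl)
    refine ⟨f t₀, (MvPolynomial.mem_restrictTotalDegree _ _ _).2 (hf'.2.1 t₀ ht₀), ?_⟩
    funext t
    by_cases ht : t ∈ T
    · rw [tcK_pos ht]
      exact hc t₀ ht₀ t ht
    · rw [tcK_neg ht]
      exact (hf'.1 t ht).symm

private theorem tc_finite (r k : ℕ) (p : V × Fin 2 → ℝ) (T : Finset (Finset V)) :
    Module.Finite ℝ (SplineAlg r k p T) := by
  have hmem : ∀ (t : Finset V) (f : SplineAlg r k p T),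
      (f : Finset V → MvPolynomial (Fin 2) ℝ) t ∈
        MvPolynomial.restrictTotalDegree (Fin 2) ℝ k := by
    intro t f
    rw [MvPolynomial.mem_restrictTotalDegree]
    have hf := tc_mem_alg.1 f.2
    by_cases ht : t ∈ T
    · exact hf.2.1 t ht
    · rw [hf.1 t ht]
      simp
  let Φ : SplineAlg r k p T →ₗ[ℝ] (Finset V → MvPolynomial.restrictTotalDegree (Fin 2) ℝ k) :=
    LinearMap.pi (fun t => LinearMap.codRestrict (MvPolynomial.restrictTotalDegree (Fin 2) ℝ k)
      ((LinearMap.proj t) ∘ₗ (SplineAlg r k p T).subtype) (hmem t))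
  apply Module.Finite.of_injective Φ
  intro f g h
  apply Subtype.ext
  funext t
  have h1 := congrFun h t
  exact congrArg Subtype.val h1

theorem Dm.finrank_alg (h0 : Dm T c lab) {p : V × Fin 2 → ℝ} (hp : IsTriang p T) (r d : ℕ) :
    Module.finrank ℝ (SplineAlg r (r + 1 + d) p T) =
      (r + 1 + d + 2).choose 2 + Module.finrank ℝ (CofH r d p T lab) := by
  have := tc_finite r (r + 1 + d) p T
  have h1 := LinearMap.finrank_range_add_finrank_ker
    ((tcPsi p T).domRestrict (SplineAlg r (r + 1 + d) p T))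
  rw [LinearMap.range_domRestrict, le_antisymm (tc_map_le h0 hp r d) (tc_le_map h0 hp r d),
    LinearMap.ker_domRestrict] at h1
  have h2 : Module.finrank ℝ (Submodule.map (tcTh p r) (CofH r d p T lab)) =
      Module.finrank ℝ (CofH r d p T lab) := by
    have hinj : Function.Injective ((tcTh p r).domRestrict (CofH r d p T lab)) := by
      intro a b hab
      apply Subtype.ext
      funext u v
      have h3 := congrFun (congrFun hab u) v
      have h4 : (a : V → V → MvPolynomial (Fin 2) ℝ) u v * lin p u v ^ (r + 1) =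
          (b : V → V → MvPolynomial (Fin 2) ℝ) u v * lin p u v ^ (r + 1) := h3
      by_cases huv : u = v
      · have ha : (a : V → V → MvPolynomial (Fin 2) ℝ) u v = 0 := by
          by_contra hc
          exact ((tc_mem_cof.1 a.2).supp u v hc).1 huv
        have hb : (b : V → V → MvPolynomial (Fin 2) ℝ) u v = 0 := by
          by_contra hc
          exact ((tc_mem_cof.1 b.2).supp u v hc).1 huv
        rw [ha, hb]
      · exact mul_right_cancel₀ (pow_ne_zero _ (tc_lin_ne hp huv)) h4
    rw [← LinearMap.range_domRestrict]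
    exact LinearMap.finrank_range_of_inj hinj
  have h3 : Module.finrank ℝ ((LinearMap.ker (tcPsi p T)).comap
      (SplineAlg r (r + 1 + d) p T).subtype) = (r + 1 + d + 2).choose 2 := by
    rw [← finrank_polys (r + 1 + d)]
    have e1 : Module.finrank ℝ ((LinearMap.ker (tcPsi p T)).comap
        (SplineAlg r (r + 1 + d) p T).subtype) =
        Module.finrank ℝ (((LinearMap.ker (tcPsi p T)).comap
          (SplineAlg r (r + 1 + d) p T).subtype).map (SplineAlg r (r + 1 + d) p T).subtype) :=
      (LinearEquiv.finrank_eq (Submodule.equivMapOfInjective _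
        (Submodule.injective_subtype _) _))
    rw [e1, Submodule.map_comap_subtype, ← tc_ker h0 hp]
    have hinj : Function.Injective (tcK T) := by
      intro P Q h
      obtain ⟨t₀, ht₀⟩ := h0.ne
      have := congrFun h t₀
      rwa [tcK_pos ht₀, tcK_pos ht₀] at this
    exact (LinearEquiv.finrank_eq (Submodule.equivMapOfInjective _ hinj _)).symm
  rw [h2, h3] at h1
  omega

end Pool.Agent.SplH
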