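import Pool.Agent.SplH.Eul
import Pool.Agent.Spl1.TriExact

/-!
# Domains with holes and their capped complexes

`Dm T c lab`: `T` is a triangulated surface with Euler characteristic `1 - c`, whose boundary falls into `c + 1`
parts (the labels `lab v` of the boundary vertices), so a disc with `c` holes.  `cap T lab`: a cone is put on every
boundary component; it is a triangulated sphere (`Dm.sph`).
-/

set_option autoImplicit false
set_option linter.unusedSectionVars false

namespace Pool.Agent.SplH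

open Finset Pool.Agent.Spl1 Pool.Agent.Spl2

variable {V : Type*} [Fintype V] [DecidableEq V]

/-- triangulated discs with `c` holes -/
structure Dm (T : Finset (Finset V)) (c : ℕ) (lab : V → Fin (c + 1)) : Prop where
  card3 : ∀ t ∈ T, t.card = 3
  le2 : ∀ e : Finset V, e.card = 2 → tdeg T e ≤ 2
  used : ∀ v, ∃ t ∈ T, v ∈ t
  ne : T.Nonempty
  dconn : DC T
  sconn : ∀ v, ∀ S ⊆ star T v, S.Nonempty → ClAt T S v → S = star T v
  euler : Fintype.card V + T.card + c = (edges T).card + 1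
  same : ∀ e ∈ bdry T, ∀ u ∈ e, ∀ v ∈ e, lab u = lab v
  onto : ∀ i, ∃ e ∈ bdry T, ∃ v ∈ e, lab v = i

theorem card_lk_le {T : Finset (Finset V)} (h3 : ∀ t ∈ T, t.card = 3) {v : V}
    (hne : (star T v).Nonempty)
    (hs : ∀ S ⊆ star T v, S.Nonempty → ClAt T S v → S = star T v) :
    (lk (star T v) v).card ≤ (star T v).card + 1 := by
  classical
  obtain ⟨F, hF⟩ : ∃ F, F = (star T v).powerset.filter
    (fun S => S.Nonempty ∧ (lk S v).card ≤ S.card + 1) := ⟨_, rfl⟩
  have hlk1 : ∀ t ∈ star T v, lk {t} v = t.erase v := by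
    intro t _
    ext u
    rw [mem_lk, Finset.mem_erase]
    simp
  have hFne : F.Nonempty := by
    obtain ⟨t, ht⟩ := hne
    refine ⟨{t}, ?_⟩
    rw [hF, Finset.mem_filter, Finset.mem_powerset]
    refine ⟨by simpa using ht, by simp, ?_⟩
    rw [hlk1 t ht, Finset.card_erase_of_mem (mem_star.1 ht).2, h3 t (mem_star.1 ht).1]
    simp
  obtain ⟨S, hS, hmax⟩ := Finset.exists_max_image F Finset.card hFne
  rw [hF, Finset.mem_filter, Finset.mem_powerset] at hS
  obtain ⟨hS1, hS2, hS3⟩ := hS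
  have hcl : ClAt T S v := by
    intro s hsS t ht u huv hvt hus hut
    by_contra htS
    have h1 : insert t S ∈ F := by
      rw [hF, Finset.mem_filter, Finset.mem_powerset]
      refine ⟨?_, by simp, ?_⟩
      · intro x hx
        rw [Finset.mem_insert] at hx
        rcases hx with rfl | hx
        · exact mem_star.2 ⟨ht, hvt⟩
        · exact hS1 hx
      · have h2 : lk (insert t S) v ⊆ lk S v ∪ (t.erase v).erase u := by
          intro x hx
          rw [mem_lk] at hx
          obtain ⟨hxv, y, hy, hxy⟩ := hx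
          rw [Finset.mem_union, mem_lk]
          rw [Finset.mem_insert] at hy
          rcases hy with rfl | hy
          · by_cases hxu : x = u
            · left
              rw [hxu]
              exact ⟨huv, s, hsS, hus⟩
            · right
              exact Finset.mem_erase.2 ⟨hxu, Finset.mem_erase.2 ⟨hxv, hxy⟩⟩
          · exact Or.inl ⟨hxv, y, hy, hxy⟩
        have h4 : ((t.erase v).erase u).card = 1 := by
          rw [Finset.card_erase_of_mem (Finset.mem_erase.2 ⟨huv, hut⟩),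
            Finset.card_erase_of_mem hvt, h3 t ht]
        have h5 := (Finset.card_le_card h2).trans (Finset.card_union_le _ _)
        rw [Finset.card_insert_of_notMem htS]
        omega
    have h6 := hmax _ h1
    rw [Finset.card_insert_of_notMem htS] at h6
    omega
  have h7 := hs S hS1 hS2 hcl
  rw [← h7]
  exact hS3

theorem sum_tdeg {S : Finset (Finset V)} {v : V} (h3 : ∀ t ∈ S, t.card = 3)
    (hv : ∀ t ∈ S, v ∈ t) : ∑ u ∈ (univ : Finset V).erase v, tdeg S {v, u} = 2 * S.card := by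
  unfold tdeg
  simp_rw [Finset.card_filter]
  rw [Finset.sum_comm]
  have h2 : ∀ t ∈ S, ∑ u ∈ (univ : Finset V).erase v,
      (if ({v, u} : Finset V) ⊆ t then 1 else 0) = 2 := by
    intro t ht
    rw [← Finset.card_filter]
    have h4 : ((univ : Finset V).erase v).filter (fun u => ({v, u} : Finset V) ⊆ t) =
        t.erase v := by
      ext u
      simp only [Finset.mem_filter, Finset.mem_erase, Finset.mem_univ, and_true,
        Finset.insert_subset_iff, Finset.singleton_subset_iff]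
      constructor
      · rintro ⟨h5, -, h6⟩
        exact ⟨h5, h6⟩
      · rintro ⟨h5, h6⟩
        exact ⟨h5, hv t ht, h6⟩
    rw [h4, Finset.card_erase_of_mem (hv t ht), h3 t ht]
  rw [Finset.sum_congr rfl h2, Finset.sum_const, smul_eq_mul, mul_comm]

theorem tdeg_star {T : Finset (Finset V)} (v u : V) : tdeg (star T v) {v, u} = tdeg T {v, u} := by
  unfold tdeg
  congr 1
  ext t
  rw [Finset.mem_filter, Finset.mem_filter, mem_star]
  constructor
  · rintro ⟨⟨h1, -⟩, h2⟩
    exact ⟨h1, h2⟩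
  · rintro ⟨h1, h2⟩
    exact ⟨⟨h1, h2 (by simp)⟩, h2⟩

/-- boundary edges at `v` as vertices of the link -/
theorem vdeg_bdry (T : Finset (Finset V)) (v : V) : vdeg (bdry T) v =
    (((univ : Finset V).erase v).filter (fun u => Odd (tdeg T {v, u}))).card := by
  unfold vdeg
  symm
  refine Finset.card_bij (fun u _ => ({v, u} : Finset V)) ?_ ?_ ?_
  · intro u hu
    rw [Finset.mem_filter, Finset.mem_erase] at hu
    rw [Finset.mem_filter, mem_bdry]
    exact ⟨⟨Finset.card_pair (Ne.symm hu.1.1), hu.2⟩, by simp⟩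
  · intro x hx y hy hxy
    rw [Finset.mem_filter, Finset.mem_erase] at hx hy
    have h1 : x ∈ ({v, y} : Finset V) := by
      rw [← hxy]
      simp
    simp only [Finset.mem_insert, Finset.mem_singleton] at h1
    exact h1.resolve_left hx.1.1
  · intro e he
    rw [Finset.mem_filter, mem_bdry] at he
    obtain ⟨⟨h1, h2⟩, h3⟩ := he
    have h4 : (e.erase v).card = 1 := by
      rw [Finset.card_erase_of_mem h3, h1]
    obtain ⟨u, hu⟩ := Finset.card_eq_one.1 h4
    have h5 : e = {v, u} := by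
      rw [← Finset.insert_erase h3, hu]
    have h6 : u ≠ v := by
      have : u ∈ e.erase v := by rw [hu]; simp
      exact (Finset.mem_erase.1 this).1
    refine ⟨u, ?_, h5.symm⟩
    rw [Finset.mem_filter, Finset.mem_erase]
    exact ⟨⟨h6, Finset.mem_univ _⟩, by rw [← h5]; exact h2⟩

variable {T : Finset (Finset V)} {c : ℕ} {lab : V → Fin (c + 1)}

theorem Dm.star_ne (h : Dm T c lab) (v : V) : (star T v).Nonempty := by
  obtain ⟨t, ht, hv⟩ := h.used v
  exact ⟨t, mem_star.2 ⟨ht, hv⟩⟩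

theorem Dm.vdeg_le (h : Dm T c lab) (v : V) : vdeg (bdry T) v ≤ 2 := by
  classical
  have h1 := card_lk_le h.card3 (h.star_ne v) (h.sconn v)
  have h2 : ∀ t ∈ star T v, t.card = 3 := fun t ht => h.card3 t (mem_star.1 ht).1
  have h3 := sum_tdeg h2 (fun t ht => (mem_star.1 ht).2)
  simp_rw [tdeg_star] at h3
  rw [vdeg_bdry]
  have h4 : ∀ u ∈ (univ : Finset V).erase v, tdeg T {v, u} +
      (if Odd (tdeg T {v, u}) then 1 else 0) =
      2 * (if u ∈ lk (star T v) v then 1 else 0) := by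
    intro u hu
    have huv : u ≠ v := (Finset.mem_erase.1 hu).1
    by_cases hl : u ∈ lk (star T v) v
    · rw [if_pos hl]
      rw [mem_lk] at hl
      obtain ⟨-, s, hs, hus⟩ := hl
      rw [mem_star] at hs
      have h5 : 0 < tdeg T {v, u} := by
        unfold tdeg
        rw [Finset.card_pos]
        exact ⟨s, Finset.mem_filter.2 ⟨hs.1, pair_sub' hs.2 hus⟩⟩
      have h6 := h.le2 {v, u} (Finset.card_pair huv.symm)
      have h7 : tdeg T {v, u} = 1 ∨ tdeg T {v, u} = 2 := by omega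
      rcases h7 with h7 | h7
      · rw [h7, if_pos odd_one]
      · rw [h7, if_neg (by decide)]
    · rw [if_neg hl]
      have h5 : tdeg T {v, u} = 0 := by
        unfold tdeg
        rw [Finset.card_eq_zero, Finset.filter_eq_empty_iff]
        intro t ht hsub
        apply hl
        rw [mem_lk]
        exact ⟨huv, t, mem_star.2 ⟨ht, hsub (by simp)⟩, hsub (by simp)⟩
      rw [h5, if_neg (by decide)]
  have h5 := Finset.sum_congr rfl h4
  rw [Finset.sum_add_distrib, h3, ← Finset.card_filter, ← Finset.mul_sum, ← Finset.card_filter] at h5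
  have h6 : ((univ : Finset V).erase v).filter (fun u => u ∈ lk (star T v) v) =
      lk (star T v) v := by
    ext u
    rw [Finset.mem_filter, Finset.mem_erase]
    constructor
    · exact fun h => h.2
    · intro h
      exact ⟨⟨(mem_lk.1 h).1, Finset.mem_univ _⟩, h⟩
  rw [h6] at h5
  omega

theorem Dm.vdeg_two (h : Dm T c lab) {v : V} (hv : v ∉ intV T) : vdeg (bdry T) v = 2 := by
  apply le_antisymm (h.vdeg_le v)
  have h1 : ∃ e ∈ edges T, v ∈ e ∧ tdeg T e ≠ 2 := by
    by_contra h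
    push Not at h
    exact hv (Finset.mem_filter.2 ⟨Finset.mem_univ _, h⟩)
  obtain ⟨e, he, hve, h2⟩ := h1
  have h3 := (Finset.mem_filter.1 he).2
  have h4 := h.le2 e h3.1
  have h5 : tdeg T e = 1 := by
    have := h3.2
    omega
  have h6 : e ∈ (bdry T).filter (fun e => v ∈ e) :=
    Finset.mem_filter.2 ⟨mem_bdry.2 ⟨h3.1, by rw [h5]; exact odd_one⟩, hve⟩
  have h7 : 0 < vdeg (bdry T) v := Finset.card_pos.2 ⟨e, h6⟩
  have h8 := (isCyc_bdry h.card3).2 v
  obtain ⟨k, hk⟩ := h8
  omega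

theorem vdeg_intV {T : Finset (Finset V)} {v : V} (hv : v ∈ intV T) : vdeg (bdry T) v = 0 := by
  unfold vdeg
  rw [Finset.card_eq_zero, Finset.filter_eq_empty_iff]
  intro e he hve
  have h1 := bdry_subset_edges (Finset.Subset.refl T) he
  have h2 : tdeg T e = 2 := (Finset.mem_filter.1 hv).2 e h1 hve
  rw [mem_bdry, h2] at he
  exact absurd he.2 (by decide)

theorem Dm.bdry_card (h : Dm T c lab) : (bdry T).card = ((intV T)ᶜ).card := by
  have h1 := tx_sum (isCyc_bdry h.card3).1
  have h2 : ∑ v, vdeg (bdry T) v = ∑ v ∈ (intV T)ᶜ, 2 := by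
    rw [← Finset.sum_compl_add_sum (intV T)]
    rw [Finset.sum_congr rfl (fun v hv => h.vdeg_two (Finset.mem_compl.1 hv)),
      Finset.sum_congr rfl (fun v hv => vdeg_intV hv)]
    simp
  rw [h2, Finset.sum_const, smul_eq_mul] at h1
  omega

theorem tdeg_bdry {T : Finset (Finset V)} (hle : ∀ e : Finset V, e.card = 2 → tdeg T e ≤ 2)
    {e : Finset V} (he : e ∈ bdry T) : tdeg T e = 1 := by
  rw [mem_bdry] at he
  have h1 := hle e he.1
  obtain ⟨k, hk⟩ := he.2
  omega

/-- the image in the capped vertex set -/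
def up (c : ℕ) (s : Finset V) : Finset (V ⊕ Fin (c + 1)) := s.map Function.Embedding.inl

/-- the cone over `e` with vertex `i` -/
def cn (c : ℕ) (i : Fin (c + 1)) (e : Finset V) : Finset (V ⊕ Fin (c + 1)) :=
  insert (Sum.inr i) (up c e)

/-- the capped complex -/
def cap (T : Finset (Finset V)) {c : ℕ} (lab : V → Fin (c + 1)) :
    Finset (Finset (V ⊕ Fin (c + 1))) :=
  T.image (up c) ∪ (univ : Finset (Fin (c + 1))).biUnion fun i =>
    ((bdry T).filter (fun e => ∀ v ∈ e, lab v = i)).image (cn c i)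

theorem mem_up {s : Finset V} {v : V} : (Sum.inl v : V ⊕ Fin (c + 1)) ∈ up c s ↔ v ∈ s := by
  unfold up
  rw [Finset.mem_map]
  constructor
  · rintro ⟨x, hx, h⟩
    have h1 : x = v := Sum.inl.inj h
    rwa [← h1]
  · exact fun h => ⟨v, h, rfl⟩

theorem inr_up {s : Finset V} {i : Fin (c + 1)} : (Sum.inr i : V ⊕ Fin (c + 1)) ∉ up c s := by
  unfold up
  rw [Finset.mem_map]
  rintro ⟨x, -, h⟩
  exact Sum.inl_ne_inr h

theorem mem_cn {e : Finset V} {i : Fin (c + 1)} {v : V} :
    (Sum.inl v : V ⊕ Fin (c + 1)) ∈ cn c i e ↔ v ∈ e := by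
  unfold cn
  rw [Finset.mem_insert, mem_up]
  constructor
  · rintro (h | h)
    · exact absurd h Sum.inl_ne_inr
    · exact h
  · exact Or.inr

theorem inr_cn {e : Finset V} {i j : Fin (c + 1)} :
    (Sum.inr j : V ⊕ Fin (c + 1)) ∈ cn c i e ↔ j = i := by
  unfold cn
  rw [Finset.mem_insert]
  constructor
  · rintro (h | h)
    · exact Sum.inr.inj h
    · exact absurd h inr_up
  · rintro rfl
    exact Or.inl rfl

theorem up_sub {s t : Finset V} : up c s ⊆ up c t ↔ s ⊆ t := Finset.map_subset_map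

theorem up_sub_cn {s e : Finset V} {i : Fin (c + 1)} : up c s ⊆ cn c i e ↔ s ⊆ e := by
  constructor
  · intro h v hv
    exact mem_cn.1 (h (mem_up.2 hv))
  · intro h
    exact (up_sub.2 h).trans (Finset.subset_insert _ _)

theorem up_inj {s t : Finset V} (h : up c s = up c t) : s = t := Finset.map_injective _ h

theorem up_card {s : Finset V} : (up c s).card = s.card := Finset.card_map _

theorem cn_card {e : Finset V} {i : Fin (c + 1)} : (cn c i e).card = e.card + 1 := by
  unfold cn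
  rw [Finset.card_insert_of_notMem inr_up, up_card]

theorem cn_inj {s t : Finset V} {i j : Fin (c + 1)} (h : cn c i s = cn c j t) : i = j ∧ s = t := by
  constructor
  · exact inr_cn.1 (by rw [← h]; exact inr_cn.2 rfl)
  · ext v
    rw [← mem_cn (i := i), h, mem_cn]

theorem up_ne_cn {s t : Finset V} {i : Fin (c + 1)} : up c s ≠ cn c i t := by
  intro h
  have : (Sum.inr i : V ⊕ Fin (c + 1)) ∈ up c s := by
    rw [h]
    exact inr_cn.2 rfl
  exact inr_up this

theorem mem_cap {x : Finset (V ⊕ Fin (c + 1))} : x ∈ cap T lab ↔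
    (∃ t ∈ T, up c t = x) ∨ ∃ i, ∃ e ∈ bdry T, (∀ v ∈ e, lab v = i) ∧ cn c i e = x := by
  unfold cap
  rw [Finset.mem_union, Finset.mem_image, Finset.mem_biUnion]
  refine or_congr Iff.rfl ⟨?_, ?_⟩
  · rintro ⟨i, -, h⟩
    rw [Finset.mem_image] at h
    obtain ⟨e, he, h1⟩ := h
    rw [Finset.mem_filter] at he
    exact ⟨i, e, he.1, he.2, h1⟩
  · rintro ⟨i, e, h1, h2, h3⟩
    exact ⟨i, Finset.mem_univ _, Finset.mem_image.2 ⟨e, Finset.mem_filter.2 ⟨h1, h2⟩, h3⟩⟩

theorem up_mem_cap {t : Finset V} : up c t ∈ cap T lab ↔ t ∈ T := by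
  rw [mem_cap]
  constructor
  · rintro (⟨s, hs, h⟩ | ⟨i, e, -, -, h⟩)
    · rwa [← up_inj h]
    · exact absurd h.symm up_ne_cn
  · exact fun h => Or.inl ⟨t, h, rfl⟩

theorem cn_mem_cap {e : Finset V} {i : Fin (c + 1)} : cn c i e ∈ cap T lab ↔
    e ∈ bdry T ∧ ∀ v ∈ e, lab v = i := by
  rw [mem_cap]
  constructor
  · rintro (⟨s, hs, h⟩ | ⟨j, f, h1, h2, h3⟩)
    · exact absurd h up_ne_cn
    · obtain ⟨h4, h5⟩ := cn_inj h3
      rw [← h5, ← h4]
      exact ⟨h1, h2⟩
  · rintro ⟨h1, h2⟩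
    exact Or.inr ⟨i, e, h1, h2, rfl⟩

theorem Dm.lab_eq (h : Dm T c lab) {e : Finset V} (he : e ∈ bdry T) {v : V} (hv : v ∈ e) :
    ∀ u ∈ e, lab u = lab v := fun u hu => h.same e he u hu v hv

theorem Dm.cap3 (h : Dm T c lab) : ∀ t ∈ cap T lab, t.card = 3 := by
  intro x hx
  rw [mem_cap] at hx
  rcases hx with ⟨t, ht, rfl⟩ | ⟨i, e, he, -, rfl⟩
  · rw [up_card, h.card3 t ht]
  · rw [cn_card, (mem_bdry.1 he).1]

theorem Dm.tdeg_int (_h : Dm T c lab) {e : Finset V} (he : e ∈ intE T) :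
    tdeg (cap T lab) (up c e) = 2 := by
  have h1 := (Finset.mem_filter.1 he).2
  have h2 : (cap T lab).filter (fun t => up c e ⊆ t) = (T.filter (fun t => e ⊆ t)).image (up c) := by
    ext x
    rw [Finset.mem_filter, mem_cap, Finset.mem_image]
    constructor
    · rintro ⟨⟨t, ht, rfl⟩ | ⟨i, f, hf, -, rfl⟩, h3⟩
      · exact ⟨t, Finset.mem_filter.2 ⟨ht, up_sub.1 h3⟩, rfl⟩
      · exfalso
        have h4 := up_sub_cn.1 h3
        have h5 := (mem_edges.1 (Finset.mem_filter.1 he).1).1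
        have h6 := (mem_bdry.1 hf).1
        have h7 := Finset.eq_of_subset_of_card_le h4 (by omega)
        rw [← h7, mem_bdry, h1] at hf
        exact absurd hf.2 (by decide)
    · rintro ⟨t, ht, rfl⟩
      rw [Finset.mem_filter] at ht
      exact ⟨Or.inl ⟨t, ht.1, rfl⟩, up_sub.2 ht.2⟩
  unfold tdeg at h1 ⊢
  rw [h2, Finset.card_image_of_injective _ (fun _ _ => up_inj), h1]

theorem Dm.tdeg_bd (h : Dm T c lab) {e : Finset V} (he : e ∈ bdry T) :
    tdeg (cap T lab) (up c e) = 2 := by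
  have h1 := tdeg_bdry h.le2 he
  have h5 := (mem_bdry.1 he).1
  obtain ⟨v, hv⟩ : e.Nonempty := by
    rw [← Finset.card_pos]
    omega
  have h2 : (cap T lab).filter (fun t => up c e ⊆ t) =
      insert (cn c (lab v) e) ((T.filter (fun t => e ⊆ t)).image (up c)) := by
    ext x
    rw [Finset.mem_filter, mem_cap, Finset.mem_insert, Finset.mem_image]
    constructor
    · rintro ⟨⟨t, ht, rfl⟩ | ⟨i, f, hf, hi, rfl⟩, h3⟩
      · exact Or.inr ⟨t, Finset.mem_filter.2 ⟨ht, up_sub.1 h3⟩, rfl⟩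
      · left
        have h4 := up_sub_cn.1 h3
        have h6 := (mem_bdry.1 hf).1
        have h7 := Finset.eq_of_subset_of_card_le h4 (by omega)
        rw [← h7] at hi ⊢
        rw [hi v hv]
    · rintro (rfl | ⟨t, ht, rfl⟩)
      · exact ⟨Or.inr ⟨lab v, e, he, h.lab_eq he hv, rfl⟩, up_sub_cn.2 (Finset.Subset.refl _)⟩
      · rw [Finset.mem_filter] at ht
        exact ⟨Or.inl ⟨t, ht.1, rfl⟩, up_sub.2 ht.2⟩
  unfold tdeg at h1 ⊢
  rw [h2, Finset.card_insert_of_notMem, Finset.card_image_of_injective _ (fun _ _ => up_inj), h1]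
  rw [Finset.mem_image]
  rintro ⟨t, -, h3⟩
  exact up_ne_cn h3

/-- the edge from `v` to the cone vertex -/
def ce (c : ℕ) (v : V) (i : Fin (c + 1)) : Finset (V ⊕ Fin (c + 1)) := {Sum.inl v, Sum.inr i}

theorem ce_card {v : V} {i : Fin (c + 1)} : (ce c v i).card = 2 :=
  Finset.card_pair Sum.inl_ne_inr

theorem ce_sub_cn {v : V} {i j : Fin (c + 1)} {e : Finset V} :
    ce c v i ⊆ cn c j e ↔ i = j ∧ v ∈ e := by
  unfold ce
  rw [Finset.insert_subset_iff, Finset.singleton_subset_iff, mem_cn, inr_cn]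
  exact and_comm

theorem ce_sub_up {v : V} {i : Fin (c + 1)} {s : Finset V} : ¬ ce c v i ⊆ up c s := by
  intro h
  exact inr_up (h (by unfold ce; simp : (Sum.inr i : V ⊕ Fin (c + 1)) ∈ ce c v i))

theorem Dm.tdeg_ce (h : Dm T c lab) {v : V} (hv : v ∉ intV T) :
    tdeg (cap T lab) (ce c v (lab v)) = 2 := by
  have h1 := h.vdeg_two hv
  have h2 : (cap T lab).filter (fun t => ce c v (lab v) ⊆ t) =
      ((bdry T).filter (fun e => v ∈ e)).image (cn c (lab v)) := by
    ext x
    rw [Finset.mem_filter, mem_cap, Finset.mem_image]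
    constructor
    · rintro ⟨⟨t, ht, rfl⟩ | ⟨i, f, hf, hi, rfl⟩, h3⟩
      · exact absurd h3 ce_sub_up
      · rw [ce_sub_cn] at h3
        exact ⟨f, Finset.mem_filter.2 ⟨hf, h3.2⟩, by rw [h3.1]⟩
    · rintro ⟨e, he, rfl⟩
      rw [Finset.mem_filter] at he
      exact ⟨Or.inr ⟨lab v, e, he.1, h.lab_eq he.1 he.2, rfl⟩, ce_sub_cn.2 ⟨rfl, he.2⟩⟩
  unfold vdeg at h1
  unfold tdeg
  rw [h2, Finset.card_image_of_injective _ (fun _ _ hh => (cn_inj hh).2), h1]

/-- the edges of the capped complex -/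
theorem Dm.edges_cap (h : Dm T c lab) : edges (cap T lab) =
    (edges T).image (up c) ∪ ((intV T)ᶜ).image (fun v => ce c v (lab v)) := by
  ext x
  rw [mem_edges, Finset.mem_union, Finset.mem_image, Finset.mem_image]
  constructor
  · rintro ⟨hx, t, ht, hxt⟩
    obtain ⟨a, b, hab, rfl⟩ := Finset.card_eq_two.1 hx
    have hcone : ∀ (v : V) (i : Fin (c + 1)), ce c v i ⊆ t → v ∉ intV T ∧ lab v = i := by
      intro v i hvi
      rw [mem_cap] at ht
      rcases ht with ⟨s, hs, rfl⟩ | ⟨j, e, he, hj, rfl⟩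
      · exact absurd hvi ce_sub_up
      · rw [ce_sub_cn] at hvi
        refine ⟨fun hv => ?_, by rw [hvi.1]; exact hj v hvi.2⟩
        have h1 := vdeg_intV hv
        unfold vdeg at h1
        rw [Finset.card_eq_zero, Finset.filter_eq_empty_iff] at h1
        exact h1 he hvi.2
    rcases a with a | i <;> rcases b with b | j
    · left
      refine ⟨{a, b}, ?_, ?_⟩
      · have h1 : up c {a, b} = {Sum.inl a, Sum.inl b} := by
          unfold up
          rw [Finset.map_insert, Finset.map_singleton]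
          rfl
        rw [← h1] at hxt hx
        rw [up_card] at hx
        rw [mem_edges]
        refine ⟨hx, ?_⟩
        rw [mem_cap] at ht
        rcases ht with ⟨s, hs, rfl⟩ | ⟨j, e, he, hj, rfl⟩
        · exact ⟨s, hs, up_sub.1 hxt⟩
        · obtain ⟨-, s, hs, h2⟩ := mem_edges.1 (bdry_subset_edges (Finset.Subset.refl T) he)
          exact ⟨s, hs, (up_sub_cn.1 hxt).trans h2⟩
      · unfold up
        rw [Finset.map_insert, Finset.map_singleton]
        rfl
    · right
      obtain ⟨h1, h2⟩ := hcone a j hxt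
      exact ⟨a, Finset.mem_compl.2 h1, by rw [h2]; rfl⟩
    · right
      have h3 : ce c b i ⊆ t := by
        refine Finset.Subset.trans ?_ hxt
        unfold ce
        rw [Finset.pair_comm]
      obtain ⟨h1, h2⟩ := hcone b i h3
      refine ⟨b, Finset.mem_compl.2 h1, ?_⟩
      rw [h2]
      unfold ce
      exact Finset.pair_comm _ _
    · exfalso
      have h1 : (Sum.inr i : V ⊕ Fin (c + 1)) ∈ t := hxt (by simp)
      have h2 : (Sum.inr j : V ⊕ Fin (c + 1)) ∈ t := hxt (by simp)
      rw [mem_cap] at ht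
      rcases ht with ⟨s, hs, rfl⟩ | ⟨l, e, he, hl, rfl⟩
      · exact inr_up h1
      · rw [inr_cn] at h1 h2
        exact hab (by rw [h1, h2])
  · rintro (⟨e, he, rfl⟩ | ⟨v, hv, rfl⟩)
    · rw [mem_edges] at he
      obtain ⟨h1, t, ht, h2⟩ := he
      exact ⟨by rw [up_card, h1], up c t, up_mem_cap.2 ht, up_sub.2 h2⟩
    · refine ⟨ce_card, ?_⟩
      have h1 := h.tdeg_ce (Finset.mem_compl.1 hv)
      have h2 : 0 < tdeg (cap T lab) (ce c v (lab v)) := by omega
      unfold tdeg at h2
      obtain ⟨t, ht⟩ := Finset.card_pos.1 h2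
      rw [Finset.mem_filter] at ht
      exact ⟨t, ht.1, ht.2⟩

theorem Dm.mem_or (h : Dm T c lab) {e : Finset V} (he : e ∈ edges T) : e ∈ intE T ∨ e ∈ bdry T := by
  have h1 := (Finset.mem_filter.1 he).2
  have h2 := h.le2 e h1.1
  by_cases h3 : tdeg T e = 2
  · exact Or.inl (Finset.mem_filter.2 ⟨he, h3⟩)
  · right
    rw [mem_bdry]
    have h4 : tdeg T e = 1 := by
      have := h1.2
      omega
    exact ⟨h1.1, by rw [h4]; exact odd_one⟩

theorem Dm.cap2 (h : Dm T c lab) : ∀ e ∈ edges (cap T lab), tdeg (cap T lab) e = 2 := by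
  intro x hx
  rw [h.edges_cap, Finset.mem_union, Finset.mem_image, Finset.mem_image] at hx
  rcases hx with ⟨e, he, rfl⟩ | ⟨v, hv, rfl⟩
  · rcases h.mem_or he with h1 | h1
    · exact h.tdeg_int h1
    · exact h.tdeg_bd h1
  · exact h.tdeg_ce (Finset.mem_compl.1 hv)

theorem up_inter {s t : Finset V} : up c s ∩ up c t = up c (s ∩ t) := by
  unfold up
  rw [Finset.map_inter]

theorem cn_inter {s t : Finset V} {i : Fin (c + 1)} : cn c i s ∩ up c t = up c (s ∩ t) := by
  ext x
  rw [Finset.mem_inter]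
  rcases x with v | j
  · rw [mem_cn, mem_up, mem_up, Finset.mem_inter]
  · constructor
    · exact fun h => absurd h.2 inr_up
    · exact fun h => absurd h inr_up

theorem Dm.dc (h : Dm T c lab) : DC (cap T lab) := by
  intro S hS hne hcl
  have hT : T.filter (fun t => up c t ∈ S) = T := by
    apply h.dconn _ (Finset.filter_subset _ _)
    · obtain ⟨x, hx⟩ := hne
      have hx' := hS hx
      rw [mem_cap] at hx'
      rcases hx' with ⟨t, ht, rfl⟩ | ⟨i, e, he, hi, rfl⟩
      · exact ⟨t, Finset.mem_filter.2 ⟨ht, hx⟩⟩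
      · obtain ⟨h2, t, ht, h1⟩ := mem_edges.1 (bdry_subset_edges (Finset.Subset.refl T) he)
        refine ⟨t, Finset.mem_filter.2 ⟨ht, ?_⟩⟩
        apply hcl _ hx _ (up_mem_cap.2 ht)
        rw [cn_inter, up_card, Finset.inter_eq_left.2 h1, h2]
    · intro s hs t ht hst
      rw [Finset.mem_filter] at hs ⊢
      refine ⟨ht, hcl _ hs.2 _ (up_mem_cap.2 ht) ?_⟩
      rw [up_inter, up_card, hst]
  have hT' : ∀ t ∈ T, up c t ∈ S := by
    intro t ht
    rw [← hT] at ht
    exact (Finset.mem_filter.1 ht).2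
  apply Finset.Subset.antisymm hS
  intro x hx
  have hx' := hx
  rw [mem_cap] at hx'
  rcases hx' with ⟨t, ht, rfl⟩ | ⟨i, e, he, hi, rfl⟩
  · exact hT' t ht
  · obtain ⟨h2, t, ht, h1⟩ := mem_edges.1 (bdry_subset_edges (Finset.Subset.refl T) he)
    apply hcl _ (hT' t ht) _ hx
    rw [Finset.inter_comm, cn_inter, up_card, Finset.inter_eq_left.2 h1, h2]

theorem Dm.uv_cap (h : Dm T c lab) : uv (cap T lab) = univ := by
  rw [Finset.eq_univ_iff_forall]
  intro x
  rw [mem_uv]
  rcases x with v | i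
  · obtain ⟨t, ht, hv⟩ := h.used v
    exact ⟨up c t, mem_star.2 ⟨up_mem_cap.2 ht, mem_up.2 hv⟩⟩
  · obtain ⟨e, he, v, hv, hi⟩ := h.onto i
    refine ⟨cn c i e, mem_star.2 ⟨cn_mem_cap.2 ⟨he, ?_⟩, inr_cn.2 rfl⟩⟩
    rw [← hi]
    exact h.lab_eq he hv

theorem Dm.card_cap (h : Dm T c lab) : T.card + (bdry T).card ≤ (cap T lab).card := by
  classical
  have h0 : ∀ e ∈ bdry T, ∃ v, v ∈ e := by
    intro e he
    have h1 := (mem_bdry.1 he).1
    obtain ⟨v, hv⟩ : e.Nonempty := by
      rw [← Finset.card_pos]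
      omega
    exact ⟨v, hv⟩
  obtain ⟨φ, hφ⟩ : ∃ φ : Finset V → Finset (V ⊕ Fin (c + 1)), ∀ e ∈ bdry T,
      ∃ i, φ e = cn c i e ∧ ∀ v ∈ e, lab v = i := by
    refine ⟨fun e => if he : e ∈ bdry T then cn c (lab (h0 e he).choose) e else ∅, ?_⟩
    intro e he
    exact ⟨lab (h0 e he).choose, dif_pos he, h.lab_eq he (h0 e he).choose_spec⟩
  have h1 : T.image (up c) ∪ (bdry T).image φ ⊆ cap T lab := by
    intro x hx
    rw [Finset.mem_union, Finset.mem_image, Finset.mem_image] at hx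
    rcases hx with ⟨t, ht, rfl⟩ | ⟨e, he, rfl⟩
    · exact up_mem_cap.2 ht
    · obtain ⟨i, h2, h3⟩ := hφ e he
      rw [h2, cn_mem_cap]
      exact ⟨he, h3⟩
  refine le_trans (le_of_eq ?_) (Finset.card_le_card h1)
  rw [Finset.card_union_of_disjoint, Finset.card_image_of_injective _ (fun _ _ => up_inj),
    Finset.card_image_of_injOn]
  · intro e he f hf hef
    obtain ⟨i, h2, -⟩ := hφ e he
    obtain ⟨j, h3, -⟩ := hφ f hf
    have hef' : φ e = φ f := hef
    rw [h2, h3] at hef'
    exact (cn_inj hef').2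
  · rw [Finset.disjoint_left]
    intro x hx hx'
    rw [Finset.mem_image] at hx hx'
    obtain ⟨t, -, rfl⟩ := hx
    obtain ⟨e, he, h2⟩ := hx'
    obtain ⟨i, h3, -⟩ := hφ e he
    rw [h3] at h2
    exact up_ne_cn h2.symm

/-- **the capped complex is a sphere** -/
theorem Dm.sph (h : Dm T c lab) : Sph (cap T lab) := by
  classical
  apply sph_of_euler h.cap3 h.cap2 ?_ h.dc ?_
  · obtain ⟨t, ht⟩ := h.ne
    exact ⟨up c t, up_mem_cap.2 ht⟩
  · rw [h.uv_cap, h.edges_cap, Finset.card_univ, Fintype.card_sum, Fintype.card_fin]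
    have h1 := h.card_cap
    have h2 := h.bdry_card
    have h3 := Finset.card_union_le ((edges T).image (up c))
      (((intV T)ᶜ).image (fun v => ce c v (lab v)))
    have h4 : ((edges T).image (up c)).card ≤ (edges T).card := Finset.card_image_le
    have h5 : (((intV T)ᶜ).image (fun v => ce c v (lab v))).card ≤ ((intV T)ᶜ).card :=
      Finset.card_image_le
    have h6 := h.euler
    omega

end Pool.Agent.SplH
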