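import Pool.Agent.SplH.Exact
import Pool.Agent.Spl2.BrHom
import Pool.Agent.Spl1.TriCof

/-!
# Cofactors and motions with classes of vertices

`CofQ`: smoothing cofactors on the edges `E`, with one relation for every class `x ∈ C` of vertices (`κ u = x`).
`SolQ`: the motions which are constant on the classes, and zero outside `C`.
-/

set_option autoImplicit false
set_option linter.unusedSectionVars false

namespace Pool.Agent.SplH

open Finset Pool.Agent.Spl1 Pool.Agent.Spl2

variable {V : Type*} [Fintype V] [DecidableEq V] {W : Type*} [DecidableEq W]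

/-- smoothing cofactors of degree `≤ d` with relations over the classes -/
structure IsCofQ (r d : ℕ) (p : V × Fin 2 → ℝ) (E : Finset (Finset V)) (κ : V → W) (C : Finset W)
    (g : V → V → MvPolynomial (Fin 2) ℝ) : Prop where
  supp : ∀ u v, g u v ≠ 0 → u ≠ v ∧ ({u, v} : Finset V) ∈ E
  deg : ∀ u v, (g u v).totalDegree ≤ d
  symm : ∀ u v, g v u = (-1) ^ r * g u v
  eq : ∀ x ∈ C, ∑ u ∈ univ.filter (fun u => κ u = x), ∑ v, g u v * lin p u v ^ (r + 1) = 0

/-- the space of these cofactors -/
def CofQ (r d : ℕ) (p : V × Fin 2 → ℝ) (E : Finset (Finset V)) (κ : V → W) (C : Finset W) :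
    Submodule ℝ (V → V → MvPolynomial (Fin 2) ℝ) where
  carrier := {g | IsCofQ r d p E κ C g}
  add_mem' := by
    intro a b ha hb
    refine ⟨fun u v h => ?_, fun u v => ?_, fun u v => ?_, fun x hx => ?_⟩
    · by_cases h1 : a u v = 0
      · have h2 : b u v ≠ 0 := by
          intro h2; apply h; simp [h1, h2]
        exact hb.supp u v h2
      · exact ha.supp u v h1
    · exact (MvPolynomial.totalDegree_add _ _).trans (max_le (ha.deg u v) (hb.deg u v))
    · simp only [Pi.add_apply]
      rw [ha.symm u v, hb.symm u v]; ring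
    · simp only [Pi.add_apply, add_mul, sum_add_distrib]
      rw [ha.eq x hx, hb.eq x hx, add_zero]
  zero_mem' := by
    refine ⟨fun u v h => absurd rfl h, fun u v => by simp, fun u v => by simp, fun x hx => by simp⟩
  smul_mem' := by
    intro c a ha
    refine ⟨fun u v h => ?_, fun u v => ?_, fun u v => ?_, fun x hx => ?_⟩
    · apply ha.supp u v
      intro h1; apply h; simp [h1]
    · exact (MvPolynomial.totalDegree_smul_le c _).trans (ha.deg u v)
    · simp only [Pi.smul_apply]
      rw [ha.symm u v, mul_smul_comm]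
    · simp only [Pi.smul_apply, smul_mul_assoc, ← smul_sum]
      rw [ha.eq x hx, smul_zero]

/-- the motions with classes -/
noncomputable def SolQ {R : Type*} [CommRing R] (k δ : ℕ) (p : V × Fin 2 → R)
    (E : Finset (Finset V)) (κ : V → W) (C : Finset W) :
    Submodule R (W → MvPolynomial (Fin 3) R) where
  carrier := {μ | (∀ x, (μ x).IsHomogeneous k) ∧ (∀ x, x ∉ C → μ x = 0) ∧
    ∀ u v, u ≠ v → ({u, v} : Finset V) ∈ E → ∀ i j, i + j < δ →
      MvPolynomial.coeff (ex3 i j (k - i - j)) (adp p u v (μ (κ u) - μ (κ v))) = 0}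
  add_mem' := by
    rintro a b ⟨ha1, ha2, ha3⟩ ⟨hb1, hb2, hb3⟩
    refine ⟨fun v => (ha1 v).add (hb1 v), fun v hv => ?_, fun u v huv he i j h1 => ?_⟩
    · rw [Pi.add_apply, ha2 v hv, hb2 v hv, add_zero]
    · have h4 : (a + b) (κ u) - (a + b) (κ v) = (a (κ u) - a (κ v)) + (b (κ u) - b (κ v)) := by
        simp only [Pi.add_apply]; ring
      rw [h4, map_add, MvPolynomial.coeff_add, ha3 u v huv he i j h1, hb3 u v huv he i j h1,
        add_zero]
  zero_mem' := by
    refine ⟨fun v => MvPolynomial.isHomogeneous_zero _ _ _, fun v _ => rfl,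
      fun u v _ _ i j _ => ?_⟩
    simp
  smul_mem' := by
    rintro c a ⟨ha1, ha2, ha3⟩
    refine ⟨fun v => ?_, fun v hv => ?_, fun u v huv he i j h1 => ?_⟩
    · exact (MvPolynomial.homogeneousSubmodule (Fin 3) R k).smul_mem c (ha1 v)
    · rw [Pi.smul_apply, ha2 v hv, smul_zero]
    · rw [Pi.smul_apply, Pi.smul_apply, ← smul_sub, map_smul, MvPolynomial.coeff_smul,
        ha3 u v huv he i j h1, smul_zero]

/-- cofactors of a domain with holes -/
noncomputable abbrev CofH (r d : ℕ) (p : V × Fin 2 → ℝ) (T : Finset (Finset V)) {c : ℕ}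
    (lab : V → Fin (c + 1)) : Submodule ℝ (V → V → MvPolynomial (Fin 2) ℝ) :=
  CofQ r d p (intE T) (kap T lab) (cls T c)

/-- motions of a domain with holes -/
noncomputable abbrev SolH {R : Type*} [CommRing R] (k δ : ℕ) (p : V × Fin 2 → R)
    (T : Finset (Finset V)) {c : ℕ} (lab : V → Fin (c + 1)) :
    Submodule R (V ⊕ Fin (c + 1) → MvPolynomial (Fin 3) R) :=
  SolQ k δ p (intE T) (kap T lab) (cls T c)

end Pool.Agent.SplH
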