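import Pool.Agent.SplH.Defs

/-!
# Duality between cofactors and motions with classes of vertices

The version of `Spl2.finrank_cofSys` for `CofQ` and `SolQ`.
-/

set_option autoImplicit false
set_option linter.unusedSectionVars false

namespace Pool.Agent.SplH

open MvPolynomial Pool.Agent.Spl2

variable {V : Type*} [Fintype V] [DecidableEq V] {W : Type*} [DecidableEq W]

/-- the sign of the oriented pair `(u, v)` with respect to the oriented edge `(x, y)` -/
private noncomputable def bdSig (r : ℕ) (x y u v : V) : ℝ :=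
  if u = x ∧ v = y then 1 else if u = y ∧ v = x then (-1) ^ r else 0

private theorem bdSig_one (r : ℕ) (x y : V) : bdSig r x y x y = 1 := by
  unfold bdSig
  simp

private theorem bdSig_two (r : ℕ) {x y : V} (hxy : x ≠ y) : bdSig r x y y x = (-1) ^ r := by
  unfold bdSig
  rw [if_neg (fun h => hxy h.1.symm), if_pos ⟨rfl, rfl⟩]

private theorem bdSig_supp {r : ℕ} {x y u v : V} (hxy : x ≠ y) (h : bdSig r x y u v ≠ 0) :
    u ≠ v ∧ ({u, v} : Finset V) = {x, y} := by
  unfold bdSig at h
  split_ifs at h with h1 h2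
  · rw [h1.1, h1.2]
    exact ⟨hxy, rfl⟩
  · rw [h2.1, h2.2]
    exact ⟨hxy.symm, Finset.pair_comm _ _⟩
  · exact absurd rfl h

private theorem bdSig_symm (r : ℕ) {x y : V} (hxy : x ≠ y) (u v : V) :
    bdSig r x y v u = (-1) ^ r * bdSig r x y u v := by
  by_cases h1 : u = x ∧ v = y
  · rw [h1.1, h1.2, bdSig_one, bdSig_two r hxy, mul_one]
  · by_cases h2 : u = y ∧ v = x
    · rw [h2.1, h2.2, bdSig_one, bdSig_two r hxy, ← mul_pow]
      simp
    · have h3 : ¬ (v = x ∧ u = y) := fun h => h2 ⟨h.2, h.1⟩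
      have h4 : ¬ (v = y ∧ u = x) := fun h => h1 ⟨h.2, h.1⟩
      unfold bdSig
      rw [if_neg h1, if_neg h2, if_neg h3, if_neg h4, mul_zero]

private theorem bdSig_sum (r : ℕ) {x y : V} (hxy : x ≠ y) (f : V → V → ℝ) :
    ∑ u, ∑ v, bdSig r x y u v * f u v = f x y + (-1) ^ r * f y x := by
  have h1 : ∀ u v, bdSig r x y u v * f u v =
      (if u = x then (if v = y then f x y else 0) else 0) +
        (if u = y then (if v = x then (-1) ^ r * f y x else 0) else 0) := by
    intro u v
    unfold bdSig
    by_cases hu : u = x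
    · have hu' : u ≠ y := fun h => hxy (hu.symm.trans h)
      by_cases hv : v = y
      · simp [hu, hv, hxy]
      · simp [hu, hv, hxy]
    · by_cases hu' : u = y
      · by_cases hv : v = x
        · simp [hu', hv, hxy.symm]
        · simp [hu', hv, hxy.symm]
      · simp [hu, hu']
  simp only [h1, Finset.sum_add_distrib]
  congr 1
  · rw [Finset.sum_eq_single x]
    · simp
    · intro b _ hb
      simp [hb]
    · intro h
      exact absurd (Finset.mem_univ x) h
  · rw [Finset.sum_eq_single y]
    · simp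
    · intro b _ hb
      simp [hb]
    · intro h
      exact absurd (Finset.mem_univ y) h

/-- the extension of a function on the edges to the oriented pairs -/
private noncomputable def bdExt (r d : ℕ) (E : Finset (Finset V)) (x y : E → V) :
    (E → restrictTotalDegree (Fin 2) ℝ d) →ₗ[ℝ] (V → V → MvPolynomial (Fin 2) ℝ) :=
  LinearMap.pi fun u => LinearMap.pi fun v =>
    ∑ e, bdSig r (x e) (y e) u v • ((restrictTotalDegree (Fin 2) ℝ d).subtype ∘ₗ LinearMap.proj e)

private theorem bdExt_apply (r d : ℕ) (E : Finset (Finset V)) (x y : E → V)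
    (G : E → restrictTotalDegree (Fin 2) ℝ d) (u v : V) :
    bdExt r d E x y G u v = ∑ e, bdSig r (x e) (y e) u v • (G e : MvPolynomial (Fin 2) ℝ) := by
  unfold bdExt
  simp

private theorem bdExt_edge (r d : ℕ) (E : Finset (Finset V)) (x y : E → V)
    (hxy : ∀ e, x e ≠ y e) (he : ∀ e : E, (e : Finset V) = {x e, y e})
    (G : E → restrictTotalDegree (Fin 2) ℝ d) (u v : V) (e : E)
    (huv : ({u, v} : Finset V) = e) :
    bdExt r d E x y G u v = bdSig r (x e) (y e) u v • (G e : MvPolynomial (Fin 2) ℝ) := by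
  rw [bdExt_apply, Finset.sum_eq_single e]
  · intro b _ hb
    have : bdSig r (x b) (y b) u v = 0 := by
      by_contra h
      have h1 := (bdSig_supp (hxy b) h).2
      rw [← he b, huv] at h1
      exact hb (Subtype.ext h1.symm)
    rw [this, zero_smul]
  · intro h
    exact absurd (Finset.mem_univ e) h

private theorem bdExt_inj (r d : ℕ) (E : Finset (Finset V)) (x y : E → V)
    (hxy : ∀ e, x e ≠ y e) (he : ∀ e : E, (e : Finset V) = {x e, y e}) :
    Function.Injective (bdExt r d E x y) := by
  intro G G' h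
  funext e
  apply Subtype.ext
  have h1 := congrFun (congrFun h (x e)) (y e)
  rw [bdExt_edge r d E x y hxy he G _ _ e (he e).symm,
    bdExt_edge r d E x y hxy he G' _ _ e (he e).symm, bdSig_one, one_smul, one_smul] at h1
  exact h1

private theorem bdExt_deg (r d : ℕ) (E : Finset (Finset V)) (x y : E → V)
    (G : E → restrictTotalDegree (Fin 2) ℝ d) (u v : V) :
    (bdExt r d E x y G u v).totalDegree ≤ d := by
  rw [← MvPolynomial.mem_restrictTotalDegree, bdExt_apply]
  exact Submodule.sum_mem _ fun e _ => Submodule.smul_mem _ _ (G e).2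

private theorem bd_lin_deg (p : V × Fin 2 → ℝ) (u v : V) : (Spl1.lin p u v).totalDegree ≤ 1 := by
  have hC : ∀ a : ℝ, ∀ i : Fin 2, (C a * (X i - C (p (u, i))) :
      MvPolynomial (Fin 2) ℝ).totalDegree ≤ 1 := by
    intro a i
    refine (totalDegree_mul _ _).trans ?_
    rw [totalDegree_C, zero_add]
    refine (totalDegree_sub _ _).trans ?_
    rw [totalDegree_C, totalDegree_X]
    simp
  unfold Spl1.lin
  exact (totalDegree_sub _ _).trans (max_le (hC _ 1) (hC _ 0))

private theorem bd_lin_swap (p : V × Fin 2 → ℝ) (u v : V) :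
    Spl1.lin p v u = - Spl1.lin p u v := by
  unfold Spl1.lin
  simp only [map_sub]
  ring

private theorem bd_deg (r d : ℕ) (p : V × Fin 2 → ℝ) (g : V → V → MvPolynomial (Fin 2) ℝ)
    (hg : ∀ u v, (g u v).totalDegree ≤ d) (u : V) :
    (∑ v, g u v * Spl1.lin p u v ^ (r + 1)) ∈ restrictTotalDegree (Fin 2) ℝ (r + 1 + d) := by
  refine Submodule.sum_mem _ fun v _ => ?_
  rw [MvPolynomial.mem_restrictTotalDegree]
  refine (totalDegree_mul _ _).trans ?_
  have h1 : (Spl1.lin p u v ^ (r + 1)).totalDegree ≤ (r + 1) * 1 :=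
    (totalDegree_pow _ _).trans (Nat.mul_le_mul_left _ (bd_lin_deg p u v))
  have h2 := hg u v
  omega

/-- the map `Φ` -/
private noncomputable def bdPhi (r d : ℕ) (p : V × Fin 2 → ℝ) (E : Finset (Finset V))
    (κ : V → W) (C : Finset W) (x y : E → V) :
    (E → restrictTotalDegree (Fin 2) ℝ d) →ₗ[ℝ] (C → restrictTotalDegree (Fin 2) ℝ (r + 1 + d)) :=
  LinearMap.pi fun w => LinearMap.codRestrict _
    (∑ u ∈ Finset.univ.filter (fun u => κ u = w.1), ∑ v,
      LinearMap.mulRight ℝ (Spl1.lin p u v ^ (r + 1)) ∘ₗ LinearMap.proj v ∘ₗ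
        LinearMap.proj (u : V) ∘ₗ bdExt r d E x y) (fun G => by
        have h : (∑ u ∈ Finset.univ.filter (fun u => κ u = w.1),
            ∑ v, bdExt r d E x y G u v * Spl1.lin p u v ^ (r + 1)) ∈
              restrictTotalDegree (Fin 2) ℝ (r + 1 + d) :=
          Submodule.sum_mem _ fun u _ => bd_deg r d p (bdExt r d E x y G)
            (bdExt_deg r d E x y G) u
        simpa using h)

private theorem bdPhi_apply (r d : ℕ) (p : V × Fin 2 → ℝ) (E : Finset (Finset V))
    (κ : V → W) (C : Finset W) (x y : E → V) (G : E → restrictTotalDegree (Fin 2) ℝ d) (w : C) :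
    (bdPhi r d p E κ C x y G w : MvPolynomial (Fin 2) ℝ) =
      ∑ u ∈ Finset.univ.filter (fun u => κ u = w.1),
        ∑ v, bdExt r d E x y G u v * Spl1.lin p u v ^ (r + 1) := by
  unfold bdPhi
  simp

/-- the bilinear form `fn` -/
private noncomputable def bdFn (k : ℕ) :
    MvPolynomial (Fin 3) ℝ →ₗ[ℝ] MvPolynomial (Fin 2) ℝ →ₗ[ℝ] ℝ :=
  LinearMap.mk₂ ℝ (fn k) (fn_add_left k) (fun c m n => fn_smul_left k c m n) (fn_add_right k)
    (fun c m n => fn_smul_right k c m n)

private theorem bdFn_apply (k : ℕ) (μ : MvPolynomial (Fin 3) ℝ) (F : MvPolynomial (Fin 2) ℝ) :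
    bdFn k μ F = fn k μ F := rfl

/-- the functional of a family of forms -/
private noncomputable def bdTh (k : ℕ) (I : Finset W) :
    (W → MvPolynomial (Fin 3) ℝ) →ₗ[ℝ] Module.Dual ℝ (I → restrictTotalDegree (Fin 2) ℝ k) where
  toFun μ := ∑ u : I, (bdFn k (μ u)) ∘ₗ (restrictTotalDegree (Fin 2) ℝ k).subtype ∘ₗ
    LinearMap.proj u
  map_add' μ μ' := by
    ext F
    simp [Finset.sum_add_distrib]
  map_smul' a μ := by
    ext F
    simp [Finset.mul_sum]

private theorem bdTh_apply (k : ℕ) (I : Finset W) (μ : W → MvPolynomial (Fin 3) ℝ)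
    (F : I → restrictTotalDegree (Fin 2) ℝ k) :
    bdTh k I μ F = ∑ u : I, bdFn k (μ u) (F u : MvPolynomial (Fin 2) ℝ) := by
  unfold bdTh
  simp

/-- the main formula -/
private theorem bd_main (r d : ℕ) (p : V × Fin 2 → ℝ) (E : Finset (Finset V))
    (κ : V → W) (C : Finset W) (x y : E → V) (hxy : ∀ e, x e ≠ y e)
    (μ : W → MvPolynomial (Fin 3) ℝ) (hμ : ∀ w, w ∉ C → μ w = 0)
    (G : E → restrictTotalDegree (Fin 2) ℝ d) :
    bdTh (r + 1 + d) C μ (bdPhi r d p E κ C x y G) =
      ∑ e, bdFn (r + 1 + d) (μ (κ (x e)) - μ (κ (y e)))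
        ((G e : MvPolynomial (Fin 2) ℝ) * Spl1.lin p (x e) (y e) ^ (r + 1)) := by
  rw [bdTh_apply]
  simp only [bdPhi_apply]
  rw [Finset.sum_coe_sort C (fun w => bdFn (r + 1 + d) (μ w)
    (∑ u ∈ Finset.univ.filter (fun u => κ u = w),
      ∑ v, bdExt r d E x y G u v * Spl1.lin p u v ^ (r + 1)))]
  have h0 : ∑ w ∈ C, bdFn (r + 1 + d) (μ w) (∑ u ∈ Finset.univ.filter (fun u => κ u = w),
      ∑ v, bdExt r d E x y G u v * Spl1.lin p u v ^ (r + 1)) =
      ∑ u, bdFn (r + 1 + d) (μ (κ u))
        (∑ v, bdExt r d E x y G u v * Spl1.lin p u v ^ (r + 1)) := by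
    have e1 : ∀ w ∈ C, bdFn (r + 1 + d) (μ w) (∑ u ∈ Finset.univ.filter (fun u => κ u = w),
        ∑ v, bdExt r d E x y G u v * Spl1.lin p u v ^ (r + 1)) =
        ∑ u, (if κ u = w then bdFn (r + 1 + d) (μ (κ u))
          (∑ v, bdExt r d E x y G u v * Spl1.lin p u v ^ (r + 1)) else 0) := by
      intro w _
      rw [map_sum, Finset.sum_filter]
      refine Finset.sum_congr rfl fun u _ => ?_
      by_cases h : κ u = w
      · rw [if_pos h, if_pos h, h]
      · rw [if_neg h, if_neg h]
    rw [Finset.sum_congr rfl e1, Finset.sum_comm]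
    refine Finset.sum_congr rfl fun u _ => ?_
    rw [Finset.sum_ite_eq]
    by_cases h : κ u ∈ C
    · rw [if_pos h]
    · rw [if_neg h, hμ _ h, map_zero, LinearMap.zero_apply]
  rw [h0]
  have h1 : ∀ u : V, bdFn (r + 1 + d) (μ (κ u))
      (∑ v, bdExt r d E x y G u v * Spl1.lin p u v ^ (r + 1)) =
      ∑ v, ∑ e, bdSig r (x e) (y e) u v * bdFn (r + 1 + d) (μ (κ u))
        ((G e : MvPolynomial (Fin 2) ℝ) * Spl1.lin p u v ^ (r + 1)) := by
    intro u
    rw [map_sum]
    refine Finset.sum_congr rfl fun v _ => ?_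
    rw [bdExt_apply, Finset.sum_mul, map_sum]
    refine Finset.sum_congr rfl fun e _ => ?_
    rw [smul_mul_assoc, map_smul, smul_eq_mul]
  simp only [h1]
  have h2 : ∀ f : V → V → E → ℝ, ∑ u, ∑ v, ∑ e, f u v e = ∑ e, ∑ u, ∑ v, f u v e := by
    intro f
    rw [Finset.sum_comm_cycle]
  rw [h2]
  refine Finset.sum_congr rfl fun e _ => ?_
  rw [bdSig_sum r (hxy e), bd_lin_swap p (x e) (y e), neg_pow (Spl1.lin p (x e) (y e)) (r + 1),
    ← mul_assoc, map_sub, LinearMap.sub_apply]
  have h3 : (G e : MvPolynomial (Fin 2) ℝ) * (-1) ^ (r + 1) *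
      Spl1.lin p (x e) (y e) ^ (r + 1) = ((-1 : ℝ) ^ (r + 1)) •
        ((G e : MvPolynomial (Fin 2) ℝ) * Spl1.lin p (x e) (y e) ^ (r + 1)) := by
    rw [MvPolynomial.smul_eq_C_mul]
    simp only [map_pow, map_neg, map_one]
    ring
  rw [h3, map_smul, smul_eq_mul, ← mul_assoc, ← pow_add]
  have h4 : (-1 : ℝ) ^ (r + (r + 1)) = -1 := by
    rw [show r + (r + 1) = 2 * r + 1 by ring, pow_succ, pow_mul]
    simp
  rw [h4]
  ring

private theorem bd_cof (r d : ℕ) (p : V × Fin 2 → ℝ) (E : Finset (Finset V))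
    (κ : V → W) (C : Finset W)
    (x y : E → V) (hxy : ∀ e, x e ≠ y e)
    (he : ∀ e : E, (e : Finset V) = {x e, y e}) :
    Submodule.map (bdExt r d E x y)
      (LinearMap.ker (bdPhi r d p E κ C x y)) = CofQ r d p E κ C := by
  apply le_antisymm
  · rintro _ ⟨G, hG, rfl⟩
    have hG' : bdPhi r d p E κ C x y G = 0 := hG
    refine ⟨?_, ?_, ?_, ?_⟩
    · intro u v h
      rw [bdExt_apply] at h
      obtain ⟨e, -, h1⟩ := Finset.exists_ne_zero_of_sum_ne_zero h
      have h2 : bdSig r (x e) (y e) u v ≠ 0 := by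
        intro h3
        rw [h3, zero_smul] at h1
        exact h1 rfl
      obtain ⟨h3, h4⟩ := bdSig_supp (hxy e) h2
      refine ⟨h3, ?_⟩
      rw [h4, ← he e]
      exact e.2
    · exact bdExt_deg r d _ x y G
    · intro u v
      rw [bdExt_apply, bdExt_apply, Finset.mul_sum]
      refine Finset.sum_congr rfl fun e _ => ?_
      rw [bdSig_symm r (hxy e), MvPolynomial.smul_eq_C_mul, MvPolynomial.smul_eq_C_mul]
      simp only [map_mul, map_pow, map_neg, map_one]
      ring
    · intro w hw
      have h1 := congrArg Subtype.val (congrFun hG' ⟨w, hw⟩)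
      rw [bdPhi_apply] at h1
      exact h1
  · intro g hg
    have hg' : IsCofQ r d p E κ C g := hg
    let G : E → restrictTotalDegree (Fin 2) ℝ d := fun e =>
      ⟨g (x e) (y e), by rw [MvPolynomial.mem_restrictTotalDegree]; exact hg'.deg _ _⟩
    have hGe : bdExt r d (E) x y G = g := by
      funext u v
      by_cases huv : u ≠ v ∧ ({u, v} : Finset V) ∈ E
      · have h1 := bdExt_edge r d (E) x y hxy he G u v ⟨{u, v}, huv.2⟩ rfl
        rw [h1]
        set e : E := ⟨{u, v}, huv.2⟩ with hedef
        have h2 : ({u, v} : Finset V) = {x e, y e} := by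
          have := he e
          exact this
        have hu : u = x e ∨ u = y e := by
          have : u ∈ ({x e, y e} : Finset V) := by
            rw [← h2]; simp
          simpa using this
        have hv : v = x e ∨ v = y e := by
          have : v ∈ ({x e, y e} : Finset V) := by
            rw [← h2]; simp
          simpa using this
        have hcases : (u = x e ∧ v = y e) ∨ (u = y e ∧ v = x e) := by
          rcases hu with hu | hu
          · rcases hv with hv | hv
            · exact absurd (hu.trans hv.symm) huv.1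
            · exact Or.inl ⟨hu, hv⟩
          · rcases hv with hv | hv
            · exact Or.inr ⟨hu, hv⟩
            · exact absurd (hu.trans hv.symm) huv.1
        rcases hcases with ⟨h3, h4⟩ | ⟨h3, h4⟩
        · have h5 : bdSig r (x e) (y e) u v = 1 := by
            rw [h3, h4]
            exact bdSig_one _ _ _
          rw [h5, one_smul]
          change g (x e) (y e) = g u v
          rw [← h3, ← h4]
        · have h5 : bdSig r (x e) (y e) u v = (-1) ^ r := by
            rw [h3, h4]
            exact bdSig_two _ (hxy e)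
          rw [h5]
          change ((-1 : ℝ) ^ r) • g (x e) (y e) = g u v
          rw [← h3, ← h4, MvPolynomial.smul_eq_C_mul, hg'.symm v u]
          simp only [map_pow, map_neg, map_one]
      · have h1 : g u v = 0 := by
          by_contra h
          exact huv (hg'.supp u v h)
        rw [h1, bdExt_apply]
        refine Finset.sum_eq_zero fun e _ => ?_
        have h2 : bdSig r (x e) (y e) u v = 0 := by
          by_contra h
          obtain ⟨h3, h4⟩ := bdSig_supp (hxy e) h
          refine huv ⟨h3, ?_⟩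
          rw [h4, ← he e]
          exact e.2
        rw [h2, zero_smul]
    refine ⟨G, ?_, hGe⟩
    change bdPhi r d p E κ C x y G = 0
    funext w
    apply Subtype.ext
    rw [bdPhi_apply, hGe]
    exact hg'.eq w w.2

private theorem bd_sol (r d : ℕ) (p : V × Fin 2 → ℝ) (E : Finset (Finset V))
    (κ : V → W) (C : Finset W)
    (hp : ∀ u v, u ≠ v → ({u, v} : Finset V) ∈ E → p (u, 1) ≠ p (v, 1))
    (x y : E → V) (hxy : ∀ e, x e ≠ y e)
    (he : ∀ e : E, (e : Finset V) = {x e, y e}) :
    Submodule.map (bdTh (r + 1 + d) C) (SolQ (r + 1 + d) (d + 1) p E κ C) =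
      (LinearMap.range (bdPhi r d p E κ C x y)).dualAnnihilator := by
  have hΔ : ∀ e : E, p (x e, 1) ≠ p (y e, 1) := fun e =>
    hp _ _ (hxy e) (by rw [← he e]; exact e.2)
  apply le_antisymm
  · rintro _ ⟨μ, ⟨-, h2, h3⟩, rfl⟩
    rw [Submodule.mem_dualAnnihilator]
    rintro _ ⟨G, rfl⟩
    rw [bd_main r d p E κ C x y hxy μ h2 G]
    refine Finset.sum_eq_zero fun e _ => ?_
    rw [bdFn_apply]
    refine (edge_iff r d p (x e) (y e) (hΔ e) (μ (κ (x e)) - μ (κ (y e)))).2 ?_ (G e) ?_
    · intro i j hij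
      exact h3 (x e) (y e) (hxy e) (by rw [← he e]; exact e.2) i j hij
    · exact (MvPolynomial.mem_restrictTotalDegree _ _ _).1 (G e).2
  · intro φ hφ
    rw [Submodule.mem_dualAnnihilator] at hφ
    have h1 : ∀ u : C, ∃ μ : MvPolynomial (Fin 3) ℝ, μ.IsHomogeneous (r + 1 + d) ∧
        ∀ F : restrictTotalDegree (Fin 2) ℝ (r + 1 + d),
          φ (Pi.single u F) = fn (r + 1 + d) μ F.1 := fun u =>
      fn_rep (r + 1 + d) (φ ∘ₗ LinearMap.single ℝ
        (fun _ : C => restrictTotalDegree (Fin 2) ℝ (r + 1 + d)) u)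
    choose μ' hμ1 hμ2 using h1
    let μ : W → MvPolynomial (Fin 3) ℝ := fun v =>
      if h : v ∈ C then μ' ⟨v, h⟩ else 0
    have hμin : ∀ u : C, μ u = μ' u := fun u => by
      simp only [μ]
      rw [dif_pos u.2]
    have hμout : ∀ v, v ∉ C → μ v = 0 := fun v hv => by
      simp only [μ]
      rw [dif_neg hv]
    have hth : bdTh (r + 1 + d) C μ = φ := by
      refine LinearMap.ext fun F => ?_
      rw [bdTh_apply]
      conv_rhs => rw [← Finset.univ_sum_single F, map_sum]
      refine Finset.sum_congr rfl fun u _ => ?_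
      rw [hμ2 u (F u), hμin, bdFn_apply]
    have hmain : ∀ e : E, ∀ g : MvPolynomial (Fin 2) ℝ, g.totalDegree ≤ d →
        bdFn (r + 1 + d) (μ (κ (x e)) - μ (κ (y e))) (g * Spl1.lin p (x e) (y e) ^ (r + 1)) = 0 := by
      intro e g hg
      let g' : restrictTotalDegree (Fin 2) ℝ d :=
        ⟨g, (MvPolynomial.mem_restrictTotalDegree _ _ _).2 hg⟩
      have h1 := hφ _ ⟨Pi.single e g', rfl⟩
      rw [← hth, bd_main r d p E κ C x y hxy μ hμout,
        Finset.sum_eq_single e] at h1
      · rw [Pi.single_eq_same] at h1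
        exact h1
      · intro b _ hb
        rw [Pi.single_eq_of_ne hb]
        simp
      · intro h
        exact absurd (Finset.mem_univ e) h
    refine ⟨μ, ⟨?_, hμout, ?_⟩, hth⟩
    · intro v
      by_cases hv : v ∈ C
      · rw [hμin ⟨v, hv⟩]
        exact hμ1 _
      · rw [hμout v hv]
        exact isHomogeneous_zero _ _ _
    · intro u v huv hE
      refine (edge_iff r d p u v (hp u v huv hE) (μ (κ u) - μ (κ v))).1 ?_
      intro g hg
      rw [← bdFn_apply]
      set e : E := ⟨{u, v}, hE⟩ with hedef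
      have h2 : ({u, v} : Finset V) = {x e, y e} := by
        have := he e
        exact this
      have hu : u = x e ∨ u = y e := by
        have : u ∈ ({x e, y e} : Finset V) := by
          rw [← h2]; simp
        simpa using this
      have hv : v = x e ∨ v = y e := by
        have : v ∈ ({x e, y e} : Finset V) := by
          rw [← h2]; simp
        simpa using this
      have hcases : (u = x e ∧ v = y e) ∨ (u = y e ∧ v = x e) := by
        rcases hu with hu | hu
        · rcases hv with hv | hv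
          · exact absurd (hu.trans hv.symm) huv
          · exact Or.inl ⟨hu, hv⟩
        · rcases hv with hv | hv
          · exact Or.inr ⟨hu, hv⟩
          · exact absurd (hu.trans hv.symm) huv
      rcases hcases with ⟨h3, h4⟩ | ⟨h3, h4⟩
      · rw [h3, h4]
        exact hmain e g hg
      · have h5 := hmain e g hg
        rw [← h3, ← h4] at h5
        have h6 : μ (κ u) - μ (κ v) = -(μ (κ v) - μ (κ u)) := by ring
        rw [h6, map_neg, LinearMap.neg_apply, bd_lin_swap p v u, neg_pow, ← mul_assoc]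
        have h7 : g * (-1) ^ (r + 1) * Spl1.lin p v u ^ (r + 1) = ((-1 : ℝ) ^ (r + 1)) •
            (g * Spl1.lin p v u ^ (r + 1)) := by
          rw [MvPolynomial.smul_eq_C_mul]
          simp only [map_pow, map_neg, map_one]
          ring
        rw [h7, map_smul, h5]
        simp


theorem finrank_cofQ (r d : ℕ) (p : V × Fin 2 → ℝ) (E : Finset (Finset V))
    (κ : V → W) (C : Finset W) (hE2 : ∀ e ∈ E, e.card = 2)
    (hp : ∀ u v, u ≠ v → ({u, v} : Finset V) ∈ E → p (u, 1) ≠ p (v, 1)) :
    Module.finrank ℝ (CofQ r d p E κ C) + C.card * (r + d + 3).choose 2 =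
      (d + 2).choose 2 * E.card + Module.finrank ℝ (SolQ (r + 1 + d) (d + 1) p E κ C) := by
  have hex : ∀ e : E, ∃ x y : V, x ≠ y ∧ (e : Finset V) = {x, y} := by
    intro e
    exact Finset.card_eq_two.1 (hE2 e e.2)
  choose x y hxy he using hex
  have hI : Fintype.card (C) = (C).card := Fintype.card_coe _
  have hE : Fintype.card (E) = (E).card := Fintype.card_coe _
  -- rank-nullity
  have h1 := LinearMap.finrank_range_add_finrank_ker
    (bdPhi r d p E κ C x y)
  have h2 := Subspace.finrank_add_finrank_dualAnnihilator_eq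
    (LinearMap.range (bdPhi r d p E κ C x y))
  have h3 : Module.finrank ℝ (E → restrictTotalDegree (Fin 2) ℝ d) =
      (E).card * (d + 2).choose 2 := by
    rw [Module.finrank_pi_fintype]
    simp only [Spl1.finrank_polys, Finset.sum_const, Finset.card_univ, hE, smul_eq_mul]
  have h4 : Module.finrank ℝ (C → restrictTotalDegree (Fin 2) ℝ (r + 1 + d)) =
      (C).card * (r + 1 + d + 2).choose 2 := by
    rw [Module.finrank_pi_fintype]
    simp only [Spl1.finrank_polys, Finset.sum_const, Finset.card_univ, hI, smul_eq_mul]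
  have h5 : Module.finrank ℝ (CofQ r d p E κ C) =
      Module.finrank ℝ (LinearMap.ker (bdPhi r d p E κ C x y)) := by
    rw [← bd_cof r d p E κ C x y hxy he]
    exact (LinearEquiv.finrank_eq (Submodule.equivMapOfInjective _
      (bdExt_inj r d (E) x y hxy he) _)).symm
  have h6 : Module.finrank ℝ (SolQ (r + 1 + d) (d + 1) p E κ C) = Module.finrank ℝ
      (LinearMap.range (bdPhi r d p E κ C x y)).dualAnnihilator := by
    rw [← bd_sol r d p E κ C hp x y hxy he]
    have hinj : Function.Injective ((bdTh (r + 1 + d) (C)).domRestrict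
        (SolQ (r + 1 + d) (d + 1) p E κ C)) := by
      rw [← LinearMap.ker_eq_bot, LinearMap.ker_eq_bot']
      intro μ hμ
      apply Subtype.ext
      funext v
      by_cases hv : v ∈ C
      · refine fn_inj (r + 1 + d) _ (μ.2.1 v) ?_
        intro F hF
        let F' : restrictTotalDegree (Fin 2) ℝ (r + 1 + d) :=
          ⟨F, (MvPolynomial.mem_restrictTotalDegree _ _ _).2 hF⟩
        have h8 := LinearMap.congr_fun hμ (Pi.single ⟨v, hv⟩ F')
        rw [LinearMap.domRestrict_apply, bdTh_apply, Finset.sum_eq_single ⟨v, hv⟩] at h8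
        · rw [Pi.single_eq_same] at h8
          exact h8
        · intro b _ hb
          rw [Pi.single_eq_of_ne hb]
          simp
        · intro h
          exact absurd (Finset.mem_univ _) h
      · exact μ.2.2.1 v hv
    rw [← LinearMap.range_domRestrict]
    exact (LinearMap.finrank_range_of_inj hinj).symm
  have h7 : (r + d + 3).choose 2 = (r + 1 + d + 2).choose 2 := by
    congr 1
    ring
  rw [h5, h6, h7]
  rw [h3] at h1
  rw [h4] at h2
  linarith

end Pool.Agent.SplH
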