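import Pool.Agent.Spl2.SphOrdG

/-!
# Triangulated spheres from the Euler characteristic (mod 2 counting)

`DC T`: the set `T` of triangles is strongly connected.  `sph_of_euler`: if every edge is in exactly two triangles,
`T` is strongly connected and `|E| + 2 ≤ |V| + |T|`, then `Sph T` (vertex links are cycles, all mod 2 cycles bound).
The proof counts cycles: the boundaries are `2 ^ (|T| - 1)` cycles, there are at most `2 ^ (|E| - |V| + 1)` cycles,
and if a vertex link were not connected, all boundaries would lie in a subspace of index two.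
-/

set_option autoImplicit false
set_option linter.unusedSectionVars false

namespace Pool.Agent.SplH

open Finset Pool.Agent.Spl1 Pool.Agent.Spl2

variable {V : Type*} [Fintype V] [DecidableEq V]

/-- strongly connected -/
def DC (T : Finset (Finset V)) : Prop :=
  ∀ S ⊆ T, S.Nonempty → (∀ s ∈ S, ∀ t ∈ T, (s ∩ t).card = 2 → t ∈ S) → S = T

/-- `S` is closed under adjacency around `v` -/
def ClAt (T S : Finset (Finset V)) (v : V) : Prop :=
  ∀ s ∈ S, ∀ t ∈ T, ∀ u, u ≠ v → v ∈ t → u ∈ s → u ∈ t → t ∈ S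

/-- the link vertices of `S` -/
def lk (S : Finset (Finset V)) (v : V) : Finset V := univ.filter (fun u => u ≠ v ∧ ∃ s ∈ S, u ∈ s)

theorem mem_lk {S : Finset (Finset V)} {v u : V} : u ∈ lk S v ↔ u ≠ v ∧ ∃ s ∈ S, u ∈ s := by
  simp [lk]

/-- the number of edges of `C` from `v` to `A` -/
def ct (C : Finset (Finset V)) (v : V) (A : Finset V) : ℕ := (A.filter (fun u => {v, u} ∈ C)).card

theorem pair_sub' {t : Finset V} {u v : V} (hu : u ∈ t) (hv : v ∈ t) : ({u, v} : Finset V) ⊆ t := by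
  intro z hz
  simp only [Finset.mem_insert, Finset.mem_singleton] at hz
  rcases hz with rfl | rfl
  · exact hu
  · exact hv

theorem DC.graph {T : Finset (Finset V)} (hd : DC T) {Z : Finset V} (hZ : Z ⊆ uv T)
    (hne : Z.Nonempty) (hcl : ∀ e ∈ edges T, (e ∩ Z).Nonempty → e ⊆ Z) : Z = uv T := by
  have hall : ∀ t ∈ T, (t ∩ Z).Nonempty → t ⊆ Z := by
    intro t ht ⟨x, hx⟩ y hy
    rw [Finset.mem_inter] at hx
    by_cases hxy : x = y
    · rw [← hxy]
      exact hx.2
    · have he := Spl2.edge_of_tri ht hxy hx.1 hy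
      have := hcl _ he ⟨x, Finset.mem_inter.2 ⟨by simp, hx.2⟩⟩
      exact this (by simp)
  have hT : T.filter (fun t => t ⊆ Z) = T := by
    apply hd _ (Finset.filter_subset _ _)
    · obtain ⟨x, hx⟩ := hne
      obtain ⟨t, ht⟩ := mem_uv.1 (hZ hx)
      rw [mem_star] at ht
      exact ⟨t, Finset.mem_filter.2 ⟨ht.1, hall t ht.1 ⟨x, Finset.mem_inter.2 ⟨ht.2, hx⟩⟩⟩⟩
    · intro s hs t ht hst
      rw [Finset.mem_filter] at hs ⊢
      refine ⟨ht, hall t ht ?_⟩
      obtain ⟨x, hx⟩ : (s ∩ t).Nonempty := by rw [← Finset.card_pos]; omega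
      rw [Finset.mem_inter] at hx
      exact ⟨x, Finset.mem_inter.2 ⟨hx.2, hs.2 hx.1⟩⟩
  apply Finset.Subset.antisymm hZ
  intro y hy
  obtain ⟨s, hs⟩ := mem_uv.1 hy
  rw [mem_star] at hs
  have h1 : s ∈ T.filter (fun t => t ⊆ Z) := by rw [hT]; exact hs.1
  exact (Finset.mem_filter.1 h1).2 hs.2

theorem pair_sd {x y : V} (hxy : x ≠ y) : ({x, y} : Finset V) = symmDiff {x} {y} := by
  ext z
  rw [Finset.mem_symmDiff, Finset.mem_insert, Finset.mem_singleton, Finset.mem_singleton]
  constructor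
  · rintro (h | h)
    · exact Or.inl ⟨h, fun h' => hxy (h.symm.trans h')⟩
    · exact Or.inr ⟨h, fun h' => hxy (h'.symm.trans h)⟩
  · rintro (h | h)
    · exact Or.inl h.1
    · exact Or.inr h.1

theorem sd_step (A B C : Finset V) : symmDiff (symmDiff A B) (symmDiff B C) = symmDiff A C := by
  rw [symmDiff_assoc, symmDiff_symmDiff_cancel_left]

/-- a path from the link of `S` to the rest of the link which avoids `v` -/
theorem exists_path {T : Finset (Finset V)} (h3 : ∀ t ∈ T, t.card = 3) (hd : DC T) {v : V}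
    {S : Finset (Finset V)} (hS : S ⊆ star T v) (hne : S.Nonempty) (hcl : ClAt T S v)
    (hneq : S ≠ star T v) : ∃ a b, a ≠ v ∧ b ≠ v ∧ a ∈ lk S v ∧ b ∉ lk S v ∧
      ({v, a} : Finset V) ∈ edges T ∧ ({v, b} : Finset V) ∈ edges T ∧
      ∃ P ⊆ edges T, (∀ e ∈ P, v ∉ e) ∧ oddv P = symmDiff {a} {b} := by
  obtain ⟨s, hs⟩ := hne
  have hsT := mem_star.1 (hS hs)
  obtain ⟨a, has, hav⟩ : ∃ a ∈ s, a ≠ v := Finset.exists_mem_ne (by rw [h3 s hsT.1]; norm_num) v
  have haA : a ∈ lk S v := mem_lk.2 ⟨hav, s, hs, has⟩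
  obtain ⟨Z, memZ⟩ : ∃ Z : Finset V, ∀ x, x ∈ Z ↔ ∃ P ⊆ edges T, (∀ e ∈ P, v ∉ e) ∧
      oddv P = symmDiff {a} {x} := by
    classical
    exact ⟨univ.filter (fun x => ∃ P ⊆ edges T, (∀ e ∈ P, v ∉ e) ∧ oddv P = symmDiff {a} {x}),
      fun x => by simp⟩
  have haZ : a ∈ Z := by
    rw [memZ]
    refine ⟨∅, Finset.empty_subset _, by simp, ?_⟩
    rw [oddv_empty, symmDiff_self]
    rfl
  have hstep : ∀ x ∈ Z, ∀ y, x ≠ y → x ≠ v → y ≠ v → ({x, y} : Finset V) ∈ edges T → y ∈ Z := by
    intro x hx y hxy hxv hyv he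
    rw [memZ] at hx ⊢
    obtain ⟨P, hP, hPv, hPo⟩ := hx
    refine ⟨symmDiff P {{x, y}}, ?_, ?_, ?_⟩
    · exact symm_sub hP (Finset.singleton_subset_iff.2 he)
    · intro e he'
      rw [Finset.mem_symmDiff] at he'
      rcases he' with he' | he'
      · exact hPv e he'.1
      · rw [Finset.mem_singleton.1 he'.1]
        simp only [Finset.mem_insert, Finset.mem_singleton, not_or]
        exact ⟨hxv.symm, hyv.symm⟩
    · rw [oddv_symm, hPo, oddv_single, pair_sd hxy, sd_step]
  have hall : ∀ t ∈ T, (∃ x ∈ t, x ≠ v ∧ x ∈ Z) → ∀ y ∈ t, y ≠ v → y ∈ Z := by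
    rintro t ht ⟨x, hxt, hxv, hxZ⟩ y hyt hyv
    by_cases hxy : x = y
    · rw [← hxy]; exact hxZ
    · exact hstep x hxZ y hxy hxv hyv (Spl2.edge_of_tri ht hxy hxt hyt)
  obtain ⟨D, memD⟩ : ∃ D : Finset (Finset V), ∀ t, t ∈ D ↔ t ∈ T ∧ ∃ x ∈ t, x ≠ v ∧ x ∈ Z :=
    ⟨T.filter (fun t => ∃ x ∈ t, x ≠ v ∧ x ∈ Z), fun t => by rw [Finset.mem_filter]⟩
  have hD : D = T := by
    apply hd D (fun t ht => ((memD t).1 ht).1)
    · exact ⟨s, (memD s).2 ⟨hsT.1, a, has, hav, haZ⟩⟩
    · intro s' hs' t ht hst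
      rw [memD] at hs' ⊢
      refine ⟨ht, ?_⟩
      obtain ⟨x, hx, hxv⟩ : ∃ x ∈ s' ∩ t, x ≠ v := Finset.exists_mem_ne (by omega) v
      rw [Finset.mem_inter] at hx
      exact ⟨x, hx.2, hxv, hall s' hs'.1 hs'.2 x hx.1 hxv⟩
  obtain ⟨t', ht'⟩ : (star T v \ S).Nonempty := by
    rw [Finset.sdiff_nonempty]
    intro h1
    exact hneq (Finset.Subset.antisymm hS h1)
  rw [Finset.mem_sdiff] at ht'
  have ht'T := mem_star.1 ht'.1
  have h1 : t' ∈ D := by rw [hD]; exact ht'T.1
  obtain ⟨-, b, hbt, hbv, hbZ⟩ := (memD t').1 h1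
  have hbA : b ∉ lk S v := by
    intro hb
    obtain ⟨-, s', hs', hbs'⟩ := mem_lk.1 hb
    exact ht'.2 (hcl s' hs' t' ht'T.1 b hbv ht'T.2 hbs' hbt)
  have hva : ({v, a} : Finset V) ∈ edges T := Spl2.edge_of_tri hsT.1 hav.symm hsT.2 has
  have hvb : ({v, b} : Finset V) ∈ edges T := Spl2.edge_of_tri ht'T.1 hbv.symm ht'T.2 hbt
  exact ⟨a, b, hav, hbv, haA, hbA, hva, hvb, (memZ b).1 hbZ⟩

/-- a cycle which leaves `v` inside `S` and comes back outside -/
theorem exists_odd {T : Finset (Finset V)} (h3 : ∀ t ∈ T, t.card = 3) (hd : DC T) {v : V}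
    {S : Finset (Finset V)} (hS : S ⊆ star T v) (hne : S.Nonempty) (hcl : ClAt T S v)
    (hneq : S ≠ star T v) : ∃ C ⊆ edges T, IsCyc C ∧ Odd (ct C v (lk S v)) := by
  obtain ⟨a, b, hav, hbv, haA, hbA, hva, hvb, P, hP, hPv, hPo⟩ := exists_path h3 hd hS hne hcl hneq
  have hab : a ≠ b := fun h => hbA (h ▸ haA)
  have hne' : ({v, a} : Finset V) ≠ {v, b} := fun h' => hab (pair_inj h')
  obtain ⟨C, hCd⟩ : ∃ C : Finset (Finset V), C = symmDiff P (symmDiff {{v, a}} {{v, b}}) :=
    ⟨_, rfl⟩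
  have memC : ∀ e, e ∈ C ↔ (e ∈ P ∧ ¬ ((e = {v, a} ∧ ¬ e = {v, b}) ∨ (e = {v, b} ∧ ¬ e = {v, a}))) ∨
      (((e = {v, a} ∧ ¬ e = {v, b}) ∨ (e = {v, b} ∧ ¬ e = {v, a})) ∧ ¬ e ∈ P) := by
    intro e
    rw [hCd, Finset.mem_symmDiff, Finset.mem_symmDiff, Finset.mem_singleton,
      Finset.mem_singleton]
  have hC : C ⊆ edges T := by
    rw [hCd]
    exact symm_sub hP (symm_sub (Finset.singleton_subset_iff.2 hva)
      (Finset.singleton_subset_iff.2 hvb))
  have hodd : oddv C = ∅ := by
    rw [hCd, oddv_symm, oddv_symm, hPo, oddv_single, oddv_single, pair_sd hav.symm,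
      pair_sd hbv.symm, symmDiff_comm ({v} : Finset V) {a}, sd_step, symmDiff_self]
    rfl
  have hf : (lk S v).filter (fun u => ({v, u} : Finset V) ∈ C) = {a} := by
    ext u
    rw [Finset.mem_filter, Finset.mem_singleton, memC]
    constructor
    · rintro ⟨huA, hu⟩
      rcases hu with hu | hu
      · exact absurd (Finset.mem_insert_self _ _) (hPv _ hu.1)
      · rcases hu.1 with h1 | h1
        · exact pair_inj h1.1
        · exfalso
          apply hbA
          rw [← pair_inj h1.1]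
          exact huA
    · intro hu
      rw [hu]
      refine ⟨haA, Or.inr ⟨Or.inl ⟨rfl, hne'⟩, ?_⟩⟩
      intro h1
      exact hPv _ h1 (Finset.mem_insert_self _ _)
  refine ⟨C, hC, ?_, ?_⟩
  · rw [isCyc_iff_oddv (fun e he => (mem_edges.1 (hC he)).1)]
    exact hodd
  · unfold ct
    rw [hf, Finset.card_singleton]
    exact odd_one

/-- boundaries have an even number of edges from `v` to the link of `S` -/
theorem even_ct {T : Finset (Finset V)} (h3 : ∀ t ∈ T, t.card = 3) {v : V}
    {S : Finset (Finset V)} (hS : S ⊆ star T v) (hcl : ClAt T S v) {D : Finset (Finset V)}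
    (hD : D ⊆ T) : Even (ct (bdry D) v (lk S v)) := by
  classical
  unfold ct
  have h1 : (lk S v).filter (fun u => ({v, u} : Finset V) ∈ bdry D) =
      (lk S v).filter (fun u => Odd (tdeg D {v, u})) := by
    apply Finset.filter_congr
    intro u hu
    rw [mem_bdry]
    have huv := (mem_lk.1 hu).1
    exact ⟨fun h => h.2, fun h => ⟨Finset.card_pair huv.symm, h⟩⟩
  rw [h1, ← Finset.even_sum_iff_even_card_odd]
  have h2 : ∑ u ∈ lk S v, tdeg D {v, u} =
      ∑ t ∈ D, ((lk S v).filter (fun u => ({v, u} : Finset V) ⊆ t)).card := by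
    unfold tdeg
    simp_rw [Finset.card_filter]
    rw [Finset.sum_comm]
  rw [h2]
  apply Finset.even_sum
  intro t ht
  by_cases htS : t ∈ S
  · have htv := mem_star.1 (hS htS)
    have h4 : (lk S v).filter (fun u => ({v, u} : Finset V) ⊆ t) = t.erase v := by
      ext u
      rw [Finset.mem_filter, Finset.mem_erase, mem_lk]
      constructor
      · rintro ⟨⟨h5, -⟩, h6⟩
        exact ⟨h5, h6 (by simp)⟩
      · rintro ⟨h5, h6⟩
        exact ⟨⟨h5, t, htS, h6⟩, pair_sub' htv.2 h6⟩
    rw [h4, Finset.card_erase_of_mem htv.2, h3 t htv.1]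
    decide
  · have h4 : (lk S v).filter (fun u => ({v, u} : Finset V) ⊆ t) = ∅ := by
      rw [Finset.filter_eq_empty_iff]
      intro u hu h5
      obtain ⟨huv, s, hs, hus⟩ := mem_lk.1 hu
      exact htS (hcl s hs t (hD ht) u huv (h5 (by simp)) hus (h5 (by simp)))
    rw [h4]
    simp

theorem card_symmDiff_add (A B : Finset V) :
    (symmDiff A B).card + 2 * (A ∩ B).card = A.card + B.card := by
  have h1 : symmDiff A B = (A \ B) ∪ (B \ A) := rfl
  have h2 : Disjoint (A \ B) (B \ A) := disjoint_sdiff_sdiff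
  rw [h1, Finset.card_union_of_disjoint h2]
  have h3 := Finset.card_sdiff_add_card_inter A B
  have h4 := Finset.card_sdiff_add_card_inter B A
  rw [Finset.inter_comm B A] at h4
  omega

theorem ct_symm (C C' : Finset (Finset V)) (v : V) (A : Finset V) :
    Even (ct (symmDiff C C') v A) ↔ Even (ct C v A + ct C' v A) := by
  classical
  unfold ct
  have h1 : A.filter (fun u => ({v, u} : Finset V) ∈ symmDiff C C') =
      symmDiff (A.filter (fun u => ({v, u} : Finset V) ∈ C))
        (A.filter (fun u => ({v, u} : Finset V) ∈ C')) := by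
    ext u
    simp only [Finset.mem_filter, Finset.mem_symmDiff]
    tauto
  rw [h1, ← card_symmDiff_add, Nat.even_add]
  simp

open Classical in
/-- a family of cycles which is even at `v`, `A` is at most half of all cycles -/
theorem count_half {E : Finset (Finset V)} {v : V} {A : Finset V} {C₀ : Finset (Finset V)}
    (hE : C₀ ⊆ E) (hC : IsCyc C₀) (hodd : Odd (ct C₀ v A)) {R : Finset (Finset (Finset V))}
    (hR : ∀ C ∈ R, C ⊆ E ∧ IsCyc C ∧ Even (ct C v A)) :
    2 * R.card ≤ (E.powerset.filter (fun C => IsCyc C)).card := by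
  have hinj : Function.Injective (fun C : Finset (Finset V) => symmDiff C C₀) :=
    symmDiff_left_injective C₀
  have h1 : (R.image (fun C => symmDiff C C₀)).card = R.card := Finset.card_image_of_injective _ hinj
  have hdis : Disjoint R (R.image (fun C => symmDiff C C₀)) := by
    rw [Finset.disjoint_left]
    intro C hC1 hC2
    obtain ⟨C', hC', rfl⟩ := Finset.mem_image.1 hC2
    have h2 := (hR _ hC1).2.2
    have h3 := (hR _ hC').2.2
    rw [ct_symm, Nat.even_add] at h2
    exact (Nat.not_even_iff_odd.2 hodd) (h2.1 h3)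
  have hsub : R ∪ R.image (fun C => symmDiff C C₀) ⊆ E.powerset.filter (fun C => IsCyc C) := by
    intro C hC'
    rw [Finset.mem_filter, Finset.mem_powerset]
    rcases Finset.mem_union.1 hC' with h2 | h2
    · exact ⟨(hR C h2).1, (hR C h2).2.1⟩
    · obtain ⟨C', hC'', rfl⟩ := Finset.mem_image.1 h2
      exact ⟨symm_sub (hR _ hC'').1 hE, isCyc_symm (hR _ hC'').2.1 hC⟩
  have h4 := Finset.card_le_card hsub
  rw [Finset.card_union_of_disjoint hdis, h1] at h4
  omega

open Classical in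
/-- the number of cycles of a strongly connected complex -/
theorem cyc_le {T : Finset (Finset V)} (h3 : ∀ t ∈ T, t.card = 3) (hd : DC T) (hne : T.Nonempty) :
    2 ^ (uv T).card * ((edges T).powerset.filter (fun C => IsCyc C)).card ≤
      2 ^ ((edges T).card + 1) := by
  have h2 : ∀ e ∈ edges T, e.card = 2 := fun e he => (mem_edges.1 he).1
  have hW : ∀ e ∈ edges T, e ⊆ uv T := by
    intro e he x hx
    obtain ⟨-, t, ht, h3⟩ := mem_edges.1 he
    exact mem_uv_of_mem ht (h3 hx)
  have hWne : (uv T).Nonempty := by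
    obtain ⟨F, hF⟩ := hne
    obtain ⟨x, hx⟩ : F.Nonempty := by
      rw [← Finset.card_pos, h3 F hF]
      norm_num
    exact ⟨x, mem_uv_of_mem hF hx⟩
  exact cyc_count_le h2 hW hWne (fun Z hZ hZn hcl => hd.graph hZ hZn hcl)

theorem inter_two {T : Finset (Finset V)} {s t : Finset V} (hst : (s ∩ t).card = 2)
    (hs : s ∈ T) (ht : t ∈ T) (hne : s ≠ t) : (s ∩ t) ∈ edges T ∧ 2 ≤ tdeg T (s ∩ t) := by
  refine ⟨mem_edges.2 ⟨hst, s, hs, Finset.inter_subset_left⟩, ?_⟩
  unfold tdeg
  have h1 : ({s, t} : Finset (Finset V)) ⊆ T.filter (fun x => s ∩ t ⊆ x) := by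
    intro x hx
    simp only [Finset.mem_insert, Finset.mem_singleton] at hx
    rcases hx with rfl | rfl
    · exact Finset.mem_filter.2 ⟨hs, Finset.inter_subset_left⟩
    · exact Finset.mem_filter.2 ⟨ht, Finset.inter_subset_right⟩
  have h2 := Finset.card_le_card h1
  rw [Finset.card_pair hne] at h2
  exact h2

/-- a set of triangles whose boundary contains no interior edge is everything or nothing -/
theorem DC.closed {T : Finset (Finset V)} (h3 : ∀ t ∈ T, t.card = 3) (hd : DC T)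
    (hle : ∀ e : Finset V, e.card = 2 → tdeg T e ≤ 2) {D : Finset (Finset V)} (hD : D ⊆ T)
    (hb : ∀ e ∈ bdry D, tdeg T e ≠ 2) : D = ∅ ∨ D = T := by
  by_cases hne : D.Nonempty
  · right
    apply hd D hD hne
    intro s hs t ht hst
    by_contra htD
    have hne' : s ≠ t := by rintro rfl; exact htD hs
    obtain ⟨h1, h2⟩ := inter_two hst (hD hs) ht hne'
    have h4 := hle _ hst
    apply hb (s ∩ t) _ (le_antisymm h4 h2)
    rw [mem_bdry]
    refine ⟨hst, ?_⟩
    have h5 : tdeg D (s ∩ t) = 1 := by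
      unfold tdeg at h4 ⊢
      have h6 : insert t (D.filter (fun x => s ∩ t ⊆ x)) ⊆ T.filter (fun x => s ∩ t ⊆ x) := by
        intro x hx
        rcases Finset.mem_insert.1 hx with rfl | hx
        · exact Finset.mem_filter.2 ⟨ht, Finset.inter_subset_right⟩
        · exact Finset.mem_filter.2 ⟨hD (Finset.mem_filter.1 hx).1, (Finset.mem_filter.1 hx).2⟩
      have h7 := Finset.card_le_card h6
      rw [Finset.card_insert_of_notMem (fun h' => htD (Finset.mem_filter.1 h').1)] at h7
      have h8 : 0 < (D.filter (fun x => s ∩ t ⊆ x)).card :=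
        Finset.card_pos.2 ⟨s, Finset.mem_filter.2 ⟨hs, Finset.inter_subset_left⟩⟩
      omega
    rw [h5]
    exact odd_one
  · left
    exact Finset.not_nonempty_iff_eq_empty.1 hne

/-- closed strongly connected complexes with Euler characteristic at least two are spheres -/
theorem sph_of_euler {T : Finset (Finset V)} (h3 : ∀ t ∈ T, t.card = 3)
    (h2 : ∀ e ∈ edges T, tdeg T e = 2) (hne : T.Nonempty) (hd : DC T)
    (hχ : (edges T).card + 2 ≤ (uv T).card + T.card) : Sph T := by
  classical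
  obtain ⟨F, hF⟩ := hne
  have hle : ∀ e : Finset V, e.card = 2 → tdeg T e ≤ 2 := by
    intro e he
    by_cases h : e ∈ edges T
    · exact (h2 e h).le
    · have : tdeg T e = 0 := by
        by_contra h'
        exact h (Finset.mem_filter.2 ⟨Finset.mem_univ _, he, Nat.pos_of_ne_zero h'⟩)
      omega
  have H2 : ∀ D ⊆ T, bdry D = ∅ → D = ∅ ∨ D = T := by
    intro D hD hb
    apply hd.closed h3 hle hD
    rw [hb]
    simp
  have hcyc := cyc_le h3 hd ⟨F, hF⟩
  obtain ⟨R, hR⟩ : ∃ R, R = ((T.erase F).powerset).image bdry := ⟨_, rfl⟩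
  have hRc : R.card = 2 ^ (T.card - 1) := by
    rw [hR, Finset.card_image_of_injOn, Finset.card_powerset, Finset.card_erase_of_mem hF]
    intro D hD D' hD' heq
    rw [Finset.mem_coe, Finset.mem_powerset] at hD hD'
    have hsub : symmDiff D D' ⊆ T.erase F := symm_sub hD hD'
    have hb : bdry (symmDiff D D') = ∅ := by
      rw [bdry_symm, show bdry D = bdry D' from heq, symmDiff_self]
      rfl
    rcases H2 _ (hsub.trans (Finset.erase_subset _ _)) hb with h4 | h4
    · exact symmDiff_eq_bot.1 h4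
    · rw [h4] at hsub
      exact absurd (hsub hF) (Finset.notMem_erase F T)
  have hRm : ∀ C ∈ R, ∃ D ⊆ T, bdry D = C := by
    intro C hC
    rw [hR] at hC
    obtain ⟨D, hD, rfl⟩ := Finset.mem_image.1 hC
    exact ⟨D, (Finset.mem_powerset.1 hD).trans (Finset.erase_subset _ _), rfl⟩
  have hTpos : 0 < T.card := Finset.card_pos.2 ⟨F, hF⟩
  refine ⟨h3, h2, ?_, ?_, H2⟩
  · -- links are connected
    intro v S hS hL
    by_contra hcon
    rw [not_or] at hcon
    obtain ⟨hS0, hS1⟩ := hcon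
    have hcl : ClAt T S v := by
      intro s hs t ht u huv hvt hus hut
      have hsv := mem_star.1 (hS hs)
      have h4 : ({v, u} : Finset V) ∈ edges T := Spl2.edge_of_tri ht huv.symm hvt hut
      have h5 := h2 _ h4
      have h6 : S.filter (fun x => ({v, u} : Finset V) ⊆ x) ⊆
          T.filter (fun x => ({v, u} : Finset V) ⊆ x) := by
        intro x hx
        rw [Finset.mem_filter] at hx ⊢
        exact ⟨(mem_star.1 (hS hx.1)).1, hx.2⟩
      have h7 : 0 < tdeg S {v, u} :=
        Finset.card_pos.2 ⟨s, Finset.mem_filter.2 ⟨hs, pair_sub' hsv.2 hus⟩⟩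
      obtain ⟨k, hk⟩ := hL u huv
      have h8 : S.filter (fun x => ({v, u} : Finset V) ⊆ x) =
          T.filter (fun x => ({v, u} : Finset V) ⊆ x) := by
        apply Finset.eq_of_subset_of_card_le h6
        unfold tdeg at h5 h7 hk
        omega
      have h9 : t ∈ T.filter (fun x => ({v, u} : Finset V) ⊆ x) :=
        Finset.mem_filter.2 ⟨ht, pair_sub' hvt hut⟩
      rw [← h8] at h9
      exact (Finset.mem_filter.1 h9).1
    obtain ⟨C₀, hC₀, hc₀, hodd⟩ := exists_odd h3 hd hS (Finset.nonempty_iff_ne_empty.2 hS0) hcl hS1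
    have h4 := count_half hC₀ hc₀ hodd (R := R) (by
      intro C hC
      obtain ⟨D, hD, rfl⟩ := hRm C hC
      exact ⟨bdry_subset_edges hD, isCyc_bdry (fun t ht => h3 t (hD ht)), even_ct h3 hS hcl hD⟩)
    rw [hRc] at h4
    have h5 : 2 ^ (uv T).card * (2 * 2 ^ (T.card - 1)) ≤ 2 ^ ((edges T).card + 1) :=
      (Nat.mul_le_mul_left _ h4).trans hcyc
    rw [← pow_succ', ← pow_add] at h5
    have h6 := (Nat.pow_le_pow_iff_right (by norm_num : 1 < 2)).1 h5
    omega
  · -- all cycles bound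
    intro C hC hCc
    have hsub : R ⊆ (edges T).powerset.filter (fun C => IsCyc C) := by
      intro C' hC'
      obtain ⟨D, hD, rfl⟩ := hRm C' hC'
      rw [Finset.mem_filter, Finset.mem_powerset]
      exact ⟨bdry_subset_edges hD, isCyc_bdry (fun t ht => h3 t (hD ht))⟩
    have heq : R = (edges T).powerset.filter (fun C => IsCyc C) := by
      apply Finset.eq_of_subset_of_card_le hsub
      rw [hRc]
      have h4 : 2 ^ ((edges T).card + 1) ≤ 2 ^ (uv T).card * 2 ^ (T.card - 1) := by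
        rw [← pow_add]
        exact Nat.pow_le_pow_right (by norm_num) (by omega)
      exact Nat.le_of_mul_le_mul_left (hcyc.trans h4) (by positivity)
    have h4 : C ∈ R := by
      rw [heq, Finset.mem_filter, Finset.mem_powerset]
      exact ⟨hC, hCc⟩
    exact hRm C h4

end Pool.Agent.SplH
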