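import Pool.Agent.SplH.Cap

/-!
# Exactness for domains with holes

The classes of vertices: an interior vertex is a class, the vertices of a boundary component form a class (`kap`).
`cls`: all classes except the outer boundary.  `exact_hole`: an antisymmetric function on the interior edges with zero
sums over the classes in `cls` is the coboundary of a function on the triangles.
-/

set_option autoImplicit false
set_option linter.unusedSectionVars false

namespace Pool.Agent.SplH

open Finset Pool.Agent.Spl1 Pool.Agent.Spl2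

variable {V : Type*} [Fintype V] [DecidableEq V]

/-- the class of a vertex -/
def kap (T : Finset (Finset V)) {c : ℕ} (lab : V → Fin (c + 1)) (v : V) : V ⊕ Fin (c + 1) :=
  if v ∈ intV T then Sum.inl v else Sum.inr (lab v)

/-- the classes except the outer boundary -/
def cls (T : Finset (Finset V)) (c : ℕ) : Finset (V ⊕ Fin (c + 1)) :=
  (intV T).image Sum.inl ∪ ((univ : Finset (Fin (c + 1))).erase 0).image Sum.inr

/-- the vertices of a class -/
def fib (T : Finset (Finset V)) {c : ℕ} (lab : V → Fin (c + 1)) (x : V ⊕ Fin (c + 1)) : Finset V :=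
  univ.filter (fun v => kap T lab v = x)

variable {T : Finset (Finset V)} {c : ℕ} {lab : V → Fin (c + 1)}

theorem kap_int {v : V} (hv : v ∈ intV T) : kap T lab v = Sum.inl v := if_pos hv

theorem kap_bd {v : V} (hv : v ∉ intV T) : kap T lab v = Sum.inr (lab v) := if_neg hv

theorem mem_fib {x : V ⊕ Fin (c + 1)} {v : V} : v ∈ fib T lab x ↔ kap T lab v = x := by
  simp [fib]

theorem mem_cls {x : V ⊕ Fin (c + 1)} : x ∈ cls T c ↔ (∃ v ∈ intV T, x = Sum.inl v) ∨
    ∃ i : Fin (c + 1), i ≠ 0 ∧ x = Sum.inr i := by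
  unfold cls
  rw [Finset.mem_union, Finset.mem_image, Finset.mem_image]
  constructor
  · rintro (⟨v, hv, rfl⟩ | ⟨i, hi, rfl⟩)
    · exact Or.inl ⟨v, hv, rfl⟩
    · exact Or.inr ⟨i, (Finset.mem_erase.1 hi).1, rfl⟩
  · rintro (⟨v, hv, rfl⟩ | ⟨i, hi, rfl⟩)
    · exact Or.inl ⟨v, hv, rfl⟩
    · exact Or.inr ⟨i, Finset.mem_erase.2 ⟨hi, Finset.mem_univ _⟩, rfl⟩

theorem cls_card : (cls T c).card = (intV T).card + c := by
  unfold cls
  rw [Finset.card_union_of_disjoint, Finset.card_image_of_injective _ Sum.inl_injective,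
    Finset.card_image_of_injective _ Sum.inr_injective, Finset.card_erase_of_mem (Finset.mem_univ _),
    Finset.card_univ, Fintype.card_fin, Nat.add_sub_cancel]
  rw [Finset.disjoint_left]
  intro x hx hx'
  rw [Finset.mem_image] at hx hx'
  obtain ⟨v, -, rfl⟩ := hx
  obtain ⟨i, -, h⟩ := hx'
  exact Sum.inr_ne_inl h

theorem bd_notInt {e : Finset V} (he : e ∈ bdry T) {v : V} (hv : v ∈ e) : v ∉ intV T := by
  intro h
  have h1 := vdeg_intV h
  unfold vdeg at h1
  rw [Finset.card_eq_zero, Finset.filter_eq_empty_iff] at h1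
  exact h1 he hv

theorem Dm.kap_eq (h : Dm T c lab) {u v : V} (he : ({u, v} : Finset V) ∈ bdry T) :
    kap T lab u = kap T lab v := by
  rw [kap_bd (bd_notInt he (by simp)), kap_bd (bd_notInt he (by simp)),
    h.same _ he u (by simp) v (by simp)]

/-- the whole coboundary -/
noncomputable def full {M : Type*} [AddCommGroup M] [Module ℝ M] (T : Finset (Finset V))
    (o : Finset V → V → V → ℝ) (f : Finset V → M) (u v : V) : M :=
  if u ≠ v then ∑ t ∈ T.filter (fun t => {u, v} ⊆ t), o t u v • f t else 0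

/-- the coboundary on the interior edges -/
noncomputable def cob {M : Type*} [AddCommGroup M] [Module ℝ M] (T : Finset (Finset V))
    (o : Finset V → V → V → ℝ) (f : Finset V → M) (u v : V) : M :=
  if u ≠ v ∧ ({u, v} : Finset V) ∈ intE T then
    ∑ t ∈ T.filter (fun t => {u, v} ⊆ t), o t u v • f t else 0

section mod
variable {M : Type*} [AddCommGroup M] [Module ℝ M]

theorem full_anti {o : Finset V → V → V → ℝ} (ho : Ori T o) (f : Finset V → M) (u v : V) :
    full T o f v u = - full T o f u v := by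
  unfold full
  by_cases h : u = v
  · rw [if_neg (not_not.2 h), if_neg (not_not.2 h.symm), neg_zero]
  · rw [if_pos h, if_pos (Ne.symm h), ← Finset.sum_neg_distrib, Finset.pair_comm v u]
    refine Finset.sum_congr rfl fun t ht => ?_
    rw [Finset.mem_filter] at ht
    rw [ho.anti t ht.1 u v h (ht.2 (by simp)) (ht.2 (by simp)), neg_smul]

theorem full_sum (h3 : ∀ t ∈ T, t.card = 3) {o : Finset V → V → V → ℝ} (ho : Ori T o)
    (f : Finset V → M) (u : V) : ∑ v, full T o f u v = 0 := by
  have h1 : ∀ v, full T o f u v = ∑ t ∈ T,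
      (if u ≠ v ∧ ({u, v} : Finset V) ⊆ t then o t u v • f t else 0) := by
    intro v
    unfold full
    by_cases huv : u = v
    · rw [if_neg (fun h => h huv)]
      symm
      apply Finset.sum_eq_zero
      intro t _
      rw [if_neg (fun h => h.1 huv)]
    · rw [if_pos huv, Finset.sum_filter]
      refine Finset.sum_congr rfl fun t _ => ?_
      by_cases h3 : ({u, v} : Finset V) ⊆ t
      · rw [if_pos h3, if_pos ⟨huv, h3⟩]
      · rw [if_neg h3, if_neg (fun h => h3 h.2)]
  simp_rw [h1]
  rw [Finset.sum_comm]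
  apply Finset.sum_eq_zero
  intro t ht
  by_cases hut : u ∈ t
  · have h2 : (t.erase u).card = 2 := by
      rw [Finset.card_erase_of_mem hut, h3 _ ht]
    obtain ⟨a, b, hab, h3⟩ := Finset.card_eq_two.1 h2
    have h4 : t = {u, a, b} := by
      rw [← Finset.insert_erase hut, h3]
    have h5 : ∑ v, (if u ≠ v ∧ ({u, v} : Finset V) ⊆ t then o t u v • f t else 0) =
        ∑ v ∈ t.erase u, o t u v • f t := by
      rw [← Finset.sum_filter]
      apply Finset.sum_congr _ (fun _ _ => rfl)
      ext v
      simp only [Finset.mem_filter, Finset.mem_univ, true_and, Finset.mem_erase,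
        Finset.insert_subset_iff, Finset.singleton_subset_iff]
      constructor
      · rintro ⟨h6, -, h7⟩
        exact ⟨fun h => h6 h.symm, h7⟩
      · rintro ⟨h6, h7⟩
        exact ⟨fun h => h6 h.symm, hut, h7⟩
    rw [h5, h3, Finset.sum_pair hab, ← add_smul]
    have h6 := ho.tri u a b (by rw [← h4]; exact ht)
    rw [← h4] at h6
    rw [h6, add_neg_cancel, zero_smul]
  · apply Finset.sum_eq_zero
    intro v _
    rw [if_neg]
    rintro ⟨-, h3⟩
    exact hut (h3 (by simp))

/-- the sums of a coboundary over the classes -/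
theorem Dm.cob_sum (h : Dm T c lab) {o : Finset V → V → V → ℝ} (ho : Ori T o)
    (f : Finset V → M) (x : V ⊕ Fin (c + 1)) : ∑ u ∈ fib T lab x, ∑ v, cob T o f u v = 0 := by
  classical
  obtain ⟨bb, hbb⟩ : ∃ bb : V → V → M, bb = fun u v =>
    if u ≠ v ∧ ({u, v} : Finset V) ∈ bdry T then full T o f u v else 0 := ⟨_, rfl⟩
  have h1 : ∀ u v, full T o f u v = cob T o f u v + bb u v := by
    intro u v
    rw [hbb]
    simp only
    by_cases huv : u = v
    · unfold full cob
      rw [if_neg (not_not.2 huv), if_neg (fun hh => hh.1 huv), if_neg (fun hh => hh.1 huv), add_zero]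
    · by_cases he : ({u, v} : Finset V) ∈ intE T
      · have h2 : ({u, v} : Finset V) ∉ bdry T := by
          intro hb
          rw [mem_bdry, (Finset.mem_filter.1 he).2] at hb
          exact absurd hb.2 (by decide)
        unfold full cob
        rw [if_pos huv, if_pos ⟨huv, he⟩, if_neg (fun hh => h2 hh.2), add_zero]
      · by_cases hb : ({u, v} : Finset V) ∈ bdry T
        · rw [if_pos ⟨huv, hb⟩]
          unfold cob
          rw [if_neg (fun hh => he hh.2), zero_add]
        · rw [if_neg (fun hh => hb hh.2)]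
          unfold cob full
          rw [if_pos huv, if_neg (fun hh => he hh.2), add_zero]
          have h3 : ({u, v} : Finset V) ∉ edges T := fun h4 => (h.mem_or h4).elim he hb
          apply Finset.sum_eq_zero
          intro t ht
          rw [Finset.mem_filter] at ht
          exact absurd (mem_edges.2 ⟨Finset.card_pair huv, t, ht.1, ht.2⟩) h3
  have h2 : ∀ u, ∑ v, cob T o f u v = - ∑ v, bb u v := by
    intro u
    have h3 := full_sum h.card3 ho f u
    simp_rw [h1, Finset.sum_add_distrib] at h3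
    exact eq_neg_of_add_eq_zero_left h3
  simp_rw [h2]
  rw [Finset.sum_neg_distrib, neg_eq_zero]
  have h4 : ∀ u ∈ fib T lab x, ∑ v, bb u v = ∑ v ∈ fib T lab x, bb u v := by
    intro u hu
    symm
    apply Finset.sum_subset (Finset.subset_univ _)
    intro v _ hv
    rw [hbb]
    simp only
    rw [if_neg]
    rintro ⟨-, h5⟩
    apply hv
    rw [mem_fib] at hu ⊢
    rw [← hu]
    exact (h.kap_eq h5).symm
  rw [Finset.sum_congr rfl h4]
  have h5 : ∀ u v, bb v u = - bb u v := by
    intro u v
    rw [hbb]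
    simp only
    by_cases huv : u = v
    · rw [if_neg (fun hh => hh.1 huv.symm), if_neg (fun hh => hh.1 huv), neg_zero]
    · rw [Finset.pair_comm v u]
      by_cases hb : ({u, v} : Finset V) ∈ bdry T
      · rw [if_pos ⟨Ne.symm huv, hb⟩, if_pos ⟨huv, hb⟩, full_anti ho]
      · rw [if_neg (fun hh => hb hh.2), if_neg (fun hh => hb hh.2), neg_zero]
  have h6 : ∑ u ∈ fib T lab x, ∑ v ∈ fib T lab x, bb u v =
      - ∑ u ∈ fib T lab x, ∑ v ∈ fib T lab x, bb u v := by
    conv_lhs => rw [Finset.sum_comm]
    rw [← Finset.sum_neg_distrib]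
    refine Finset.sum_congr rfl fun u _ => ?_
    rw [← Finset.sum_neg_distrib]
    exact Finset.sum_congr rfl fun v _ => h5 u v
  have h7 : (2 : ℝ) • (∑ u ∈ fib T lab x, ∑ v ∈ fib T lab x, bb u v) = 0 := by
    rw [two_smul]
    exact add_eq_zero_iff_eq_neg.2 h6
  exact (smul_eq_zero.1 h7).resolve_left two_ne_zero

theorem Dm.const_cob (h : Dm T c lab)
    {o : Finset V → V → V → ℝ} (ho : Ori T o) {f : Finset V → M}
    (hf : ∀ u v, u ≠ v → ({u, v} : Finset V) ∈ intE T →
      ∑ t ∈ T.filter (fun t => {u, v} ⊆ t), o t u v • f t = 0) :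
    ∀ s ∈ T, ∀ t ∈ T, f s = f t := by
  classical
  have key : ∀ s ∈ T, ∀ t ∈ T, (s ∩ t).card = 2 → f s = f t := by
    intro s hs t ht hst
    have hne : s ≠ t := by
      rintro rfl
      rw [Finset.inter_self, h.card3 s hs] at hst
      omega
    obtain ⟨u, v, huv, h1⟩ := Finset.card_eq_two.1 hst
    have h2 : ({u, v} : Finset V) ⊆ s := by
      rw [← h1]
      exact Finset.inter_subset_left
    have h3 : ({u, v} : Finset V) ⊆ t := by
      rw [← h1]
      exact Finset.inter_subset_right
    have h4' : ({s, t} : Finset (Finset V)) ⊆ T.filter (fun t => ({u, v} : Finset V) ⊆ t) := by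
      intro x hx
      simp only [Finset.mem_insert, Finset.mem_singleton] at hx
      rcases hx with rfl | rfl
      · exact Finset.mem_filter.2 ⟨hs, h2⟩
      · exact Finset.mem_filter.2 ⟨ht, h3⟩
    have h4'' : (T.filter (fun t => ({u, v} : Finset V) ⊆ t)).card ≤ 2 :=
      h.le2 _ (Finset.card_pair huv)
    have h5' : ({s, t} : Finset (Finset V)).card = 2 := Finset.card_pair hne
    have h4 := (Finset.eq_of_subset_of_card_le h4' (by rw [h5']; exact h4'')).symm
    have h5 : ({u, v} : Finset V) ∈ intE T := by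
      refine Finset.mem_filter.2 ⟨mem_edges.2 ⟨Finset.card_pair huv, s, hs, h2⟩, ?_⟩
      unfold tdeg
      rw [h4, h5']
    have h6 := hf u v huv h5
    rw [h4, Finset.sum_pair hne] at h6
    have h7 := ho.opp s hs t ht hne u v huv (h2 (by simp)) (h2 (by simp)) (h3 (by simp))
      (h3 (by simp))
    rw [h7] at h6
    rcases ho.pm t ht u v huv (h3 (by simp)) (h3 (by simp)) with h8 | h8
    · rw [h8, one_smul, neg_smul, one_smul, neg_add_eq_zero] at h6
      exact h6
    · rw [h8, neg_neg, one_smul, neg_smul, one_smul, ← sub_eq_add_neg, sub_eq_zero] at h6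
      exact h6
  intro s hs t ht
  have h1 := h.dconn (T.filter (fun x => f x = f s)) (Finset.filter_subset _ _)
    ⟨s, by simp [hs]⟩ (by
      intro a ha b hb hab
      rw [Finset.mem_filter] at ha ⊢
      exact ⟨hb, (key a ha.1 b hb hab).symm.trans ha.2⟩)
  have h2 : t ∈ T.filter (fun x => f x = f s) := by
    rw [h1]
    exact ht
  exact ((Finset.mem_filter.1 h2).2).symm

end mod

/-- the sums over the classes -/
noncomputable def mapC (T : Finset (Finset V)) {c : ℕ} (lab : V → Fin (c + 1)) :
    X1 T →ₗ[ℝ] (↥(cls T c) → ℝ) where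
  toFun J x := ∑ u ∈ fib T lab x.1, ∑ v, J.1 u v
  map_add' J K := by
    funext x
    show ∑ u ∈ fib T lab x.1, ∑ v, (J.1 u v + K.1 u v) =
      ∑ u ∈ fib T lab x.1, ∑ v, J.1 u v + ∑ u ∈ fib T lab x.1, ∑ v, K.1 u v
    rw [← Finset.sum_add_distrib]
    refine Finset.sum_congr rfl fun u _ => ?_
    rw [Finset.sum_add_distrib]
  map_smul' a J := by
    funext x
    show ∑ u ∈ fib T lab x.1, ∑ v, a * J.1 u v = a * ∑ u ∈ fib T lab x.1, ∑ v, J.1 u v
    rw [Finset.mul_sum]
    refine Finset.sum_congr rfl fun u _ => ?_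
    rw [Finset.mul_sum]

theorem valA_cob {o : Finset V → V → V → ℝ} (f : ↥T → ℝ) (u v : V) :
    valA T o f u v = cob T o (extT T f) u v := by
  unfold cob
  by_cases h : u ≠ v ∧ ({u, v} : Finset V) ∈ intE T
  · rw [if_pos h, ← tx_conv f (extT T f) (extT_eq f) h.1 h.2]
    rfl
  · rw [if_neg h]
    unfold valA
    rw [if_neg h]

theorem Dm.CA (h : Dm T c lab) {o : Finset V → V → V → ℝ} (ho : Ori T o) (f : ↥T → ℝ) :
    mapC T lab (mapA ho f) = 0 := by
  funext x
  show ∑ u ∈ fib T lab x.1, ∑ v, valA T o f u v = 0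
  simp_rw [valA_cob]
  exact h.cob_sum ho _ _

theorem Dm.kerA (h : Dm T c lab) {o : Finset V → V → V → ℝ} (ho : Ori T o) :
    Module.finrank ℝ (LinearMap.ker (mapA ho)) ≤ 1 := by
  classical
  have h1 : LinearMap.ker (mapA ho) ≤ Submodule.span ℝ {(fun _ => 1 : ↥T → ℝ)} := by
    intro f hf
    rw [LinearMap.mem_ker] at hf
    obtain ⟨t₀, ht₀⟩ := h.ne
    rw [Submodule.mem_span_singleton]
    refine ⟨f ⟨t₀, ht₀⟩, ?_⟩
    funext t
    simp only [Pi.smul_apply, smul_eq_mul, mul_one]
    have h2 : ∀ u v, u ≠ v → ({u, v} : Finset V) ∈ intE T →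
        ∑ t ∈ T.filter (fun t => {u, v} ⊆ t), o t u v • extT T f t = 0 := by
      intro u v huv he
      have h3 : valA T o f u v = 0 := congrArg (fun J : X1 T => J.1 u v) hf
      rw [← h3, ← tx_conv f (extT T f) (extT_eq f) huv he]
      rfl
    have h3 := h.const_cob ho h2 t₀ ht₀ t.1 t.2
    rw [extT_eq f t] at h3
    rw [← h3]
    exact (extT_eq f ⟨t₀, ht₀⟩).symm
  refine (Submodule.finrank_mono h1).trans ((finrank_span_le_card _).trans ?_)
  simp

theorem Dm.surj (h : Dm T c lab) : LinearMap.range (mapC T lab) = ⊤ := by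
  classical
  by_contra hne
  obtain ⟨φ, hφ0, hφ⟩ := Submodule.exists_le_ker_of_lt_top _ (lt_top_iff_ne_top.2 hne)
  obtain ⟨g, hg⟩ : ∃ g : V → (↥(cls T c) → ℝ), g = fun w x => if kap T lab w = x.1 then 1 else 0 :=
    ⟨_, rfl⟩
  obtain ⟨lam, hlam⟩ : ∃ lam : V → ℝ, lam = fun w => φ (g w) := ⟨_, rfl⟩
  have hedge : ∀ u v, u ≠ v → ({u, v} : Finset V) ∈ intE T → lam u = lam v := by
    intro u v huv he
    obtain ⟨J, hJdef⟩ : ∃ J : V → V → ℝ, J = fun x y =>
      (if x = u then (if y = v then (1 : ℝ) else 0) else 0) -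
        (if x = v then (if y = u then (1 : ℝ) else 0) else 0) := ⟨_, rfl⟩
    have hJ : J ∈ X1 T := by
      refine ⟨fun x y => ?_, fun x y hxy => ?_⟩
      · rw [hJdef]
        simp only
        by_cases h1 : x = u <;> by_cases h2 : y = v <;> by_cases h3 : x = v <;>
          by_cases h4 : y = u <;> simp [h1, h2, h3, h4, huv, huv.symm]
      · by_contra h1
        apply hxy
        rw [hJdef]
        simp only
        have h2 : ¬ (x = u ∧ y = v) := by
          rintro ⟨rfl, rfl⟩
          exact h1 ⟨huv, he⟩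
        have h3 : ¬ (x = v ∧ y = u) := by
          rintro ⟨rfl, rfl⟩
          exact h1 ⟨huv.symm, by rw [Finset.pair_comm]; exact he⟩
        have e1 : (if x = u then (if y = v then (1 : ℝ) else 0) else 0) = 0 := by
          by_cases h4 : x = u
          · rw [if_pos h4, if_neg (fun h5 => h2 ⟨h4, h5⟩)]
          · rw [if_neg h4]
        have e2 : (if x = v then (if y = u then (1 : ℝ) else 0) else 0) = 0 := by
          by_cases h4 : x = v
          · rw [if_pos h4, if_neg (fun h5 => h3 ⟨h4, h5⟩)]
          · rw [if_neg h4]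
        rw [e1, e2, sub_zero]
    have h1 : φ (mapC T lab ⟨J, hJ⟩) = 0 := hφ (LinearMap.mem_range_self _ _)
    have h2 : mapC T lab ⟨J, hJ⟩ = g u - g v := by
      funext x
      have h3 : ∀ w : V, ∑ y, J w y = (if w = u then (1 : ℝ) else 0) -
          (if w = v then (1 : ℝ) else 0) := by
        intro w
        rw [hJdef]
        simp only
        rw [Finset.sum_sub_distrib]
        congr 1
        · by_cases h3 : w = u
          · simp [h3]
          · simp [h3]
        · by_cases h3 : w = v
          · simp [h3]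
          · simp [h3]
      show ∑ w ∈ fib T lab x.1, ∑ y, J w y = g u x - g v x
      simp_rw [h3]
      rw [Finset.sum_sub_distrib, hg, Finset.sum_ite_eq', Finset.sum_ite_eq']
      simp only [mem_fib]
    rw [h2, map_sub, sub_eq_zero] at h1
    rw [hlam]
    exact h1
  have hall : ∀ e ∈ edges T, ∀ u v, u ≠ v → e = {u, v} → lam u = lam v := by
    intro e he u v huv heq
    rw [heq] at he
    rcases h.mem_or he with h1 | h1
    · exact hedge u v huv h1
    · rw [hlam, hg]
      simp only
      rw [h.kap_eq h1]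
  obtain ⟨e₀, he₀, w₀, hw₀, hl₀⟩ := h.onto 0
  have hw0 : lam w₀ = 0 := by
    rw [hlam]
    simp only
    have h1 : g w₀ = 0 := by
      funext x
      rw [hg]
      simp only
      rw [if_neg]
      · rfl
      · intro h2
        have h3 := x.2
        rw [← h2, kap_bd (bd_notInt he₀ hw₀), hl₀, mem_cls] at h3
        rcases h3 with ⟨v, -, h4⟩ | ⟨i, h4, h5⟩
        · exact Sum.inr_ne_inl h4
        · exact h4 (Sum.inr.inj h5).symm
    rw [h1, map_zero]
  have hzero : ∀ w, lam w = 0 := by
    have h1 := h.dconn.graph (Z := (uv T).filter (fun w => lam w = 0)) (Finset.filter_subset _ _)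
      ⟨w₀, by
        rw [Finset.mem_filter, mem_uv]
        obtain ⟨t, ht, hwt⟩ := h.used w₀
        exact ⟨⟨t, mem_star.2 ⟨ht, hwt⟩⟩, hw0⟩⟩ (by
        intro e he hne
        obtain ⟨a, b, hab, heq⟩ := Finset.card_eq_two.1 (mem_edges.1 he).1
        have h2 := hall e he a b hab heq
        obtain ⟨z, hz⟩ := hne
        rw [Finset.mem_inter, Finset.mem_filter] at hz
        have h3 : lam a = 0 ∧ lam b = 0 := by
          have h4 := hz.1
          rw [heq] at h4
          simp only [Finset.mem_insert, Finset.mem_singleton] at h4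
          rcases h4 with h4 | h4
          · rw [h4] at hz
            exact ⟨hz.2.2, by rw [← h2]; exact hz.2.2⟩
          · rw [h4] at hz
            exact ⟨by rw [h2]; exact hz.2.2, hz.2.2⟩
        intro w hw
        rw [Finset.mem_filter, mem_uv]
        refine ⟨?_, ?_⟩
        · obtain ⟨t, ht, hwt⟩ := h.used w
          exact ⟨t, mem_star.2 ⟨ht, hwt⟩⟩
        · rw [heq] at hw
          simp only [Finset.mem_insert, Finset.mem_singleton] at hw
          rcases hw with rfl | rfl
          · exact h3.1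
          · exact h3.2)
    intro w
    have h2 : w ∈ uv T := by
      rw [mem_uv]
      obtain ⟨t, ht, hwt⟩ := h.used w
      exact ⟨t, mem_star.2 ⟨ht, hwt⟩⟩
    rw [← h1, Finset.mem_filter] at h2
    exact h2.2
  apply hφ0
  apply LinearMap.ext
  intro y
  rw [LinearMap.pi_apply_eq_sum_univ φ y, LinearMap.zero_apply]
  apply Finset.sum_eq_zero
  intro x _
  obtain ⟨w, hw⟩ : ∃ w, kap T lab w = x.1 := by
    have h1 := x.2
    rw [mem_cls] at h1
    rcases h1 with ⟨v, hv, h2⟩ | ⟨i, hi, h2⟩
    · exact ⟨v, by rw [kap_int hv, h2]⟩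
    · obtain ⟨e, he, v, hv, hl⟩ := h.onto i
      exact ⟨v, by rw [kap_bd (bd_notInt he hv), hl, h2]⟩
  have h1 : (fun j : ↥(cls T c) => if x = j then (1 : ℝ) else 0) = g w := by
    funext j
    rw [hg]
    simp only
    rw [hw]
    by_cases h2 : x = j
    · rw [if_pos h2, if_pos (by rw [h2])]
    · rw [if_neg h2, if_neg (fun h3 => h2 (Subtype.ext h3))]
  rw [h1]
  have h2 : φ (g w) = 0 := by
    have := hzero w
    rw [hlam] at this
    exact this
  rw [h2, smul_zero]

theorem Dm.edges_card (h : Dm T c lab) : (edges T).card = (intE T).card + (bdry T).card := by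
  have h1 : edges T = intE T ∪ bdry T := by
    ext e
    rw [Finset.mem_union]
    constructor
    · exact h.mem_or
    · rintro (he | he)
      · exact (Finset.mem_filter.1 he).1
      · exact bdry_subset_edges (Finset.Subset.refl T) he
  rw [h1, Finset.card_union_of_disjoint]
  rw [Finset.disjoint_left]
  intro e he he'
  have h2 : tdeg T e = 2 := (Finset.mem_filter.1 he).2
  rw [mem_bdry, h2] at he'
  exact absurd he'.2 (by decide)

theorem Dm.eul (h : Dm T c lab) : (intV T).card + c + T.card = (intE T).card + 1 := by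
  have h1 := h.euler
  rw [h.edges_card] at h1
  have h2 := Finset.card_add_card_compl (intV T)
  have h3 := h.bdry_card
  omega

/-- **exactness** -/
theorem Dm.exact (h : Dm T c lab) {o : Finset V → V → V → ℝ} (ho : Ori T o) {J : V → V → ℝ}
    (h1 : ∀ u v, J v u = - J u v) (h2 : ∀ u v, J u v ≠ 0 → u ≠ v ∧ ({u, v} : Finset V) ∈ intE T)
    (h3 : ∀ x ∈ cls T c, ∑ u ∈ fib T lab x, ∑ v, J u v = 0) :
    ∃ f : Finset V → ℝ, ∀ u v, u ≠ v → ({u, v} : Finset V) ∈ intE T →
      J u v = ∑ t ∈ T.filter (fun t => {u, v} ⊆ t), o t u v * f t := by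
  classical
  have h4 : T.card ≤ Module.finrank ℝ (LinearMap.range (mapA ho)) + 1 := by
    have h1 := LinearMap.finrank_range_add_finrank_ker (mapA ho)
    rw [Module.finrank_fintype_fun_eq_card, Fintype.card_coe] at h1
    have h2 := h.kerA ho
    omega
  have h5 : Module.finrank ℝ (LinearMap.ker (mapC T lab)) + ((intV T).card + c) ≤
      (intE T).card := by
    have h1 := LinearMap.finrank_range_add_finrank_ker (mapC T lab)
    rw [h.surj, finrank_top, Module.finrank_fintype_fun_eq_card, Fintype.card_coe, cls_card] at h1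
    have h2 := tx_X1 T
    omega
  have h6 := h.eul
  have h7 : LinearMap.range (mapA ho) ≤ LinearMap.ker (mapC T lab) := by
    rintro _ ⟨f, rfl⟩
    exact h.CA ho f
  have h8 : LinearMap.range (mapA ho) = LinearMap.ker (mapC T lab) :=
    Submodule.eq_of_le_of_finrank_le h7 (by omega)
  have h9 : (⟨J, h1, h2⟩ : X1 T) ∈ LinearMap.ker (mapC T lab) := by
    rw [LinearMap.mem_ker]
    funext x
    exact h3 x.1 x.2
  rw [← h8] at h9
  obtain ⟨f, hf⟩ := h9
  refine ⟨extT T f, fun u v huv he => ?_⟩
  have h10 : valA T o f u v = J u v := congrArg (fun J : X1 T => J.1 u v) hf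
  rw [← h10]
  exact (tx_conv f _ (extT_eq f) huv he).symm

end Pool.Agent.SplH
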