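import Pool.Agent.SplH.Smooth
import Pool.Agent.SplZ.Final

/-!
# The lower bound for domains with holes

`CofSys` has at least the dimension of the formula (`BSpl.KK_lower`), and every hole gives at most `binom (k + 2) 2` more relations.
-/

set_option autoImplicit false
set_option linter.unusedSectionVars false

namespace Pool.Agent.SplH

open Finset Pool.Agent.Spl1 Pool.Agent.Spl2

variable {V : Type} [Fintype V] [DecidableEq V]
variable {T : Finset (Finset V)} {c : ℕ} {lab : V → Fin (c + 1)}

/-- signs of oriented edges -/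
noncomputable def sgV (V : Type) [Fintype V] (r : ℕ) (u v : V) : ℝ :=
  if Fintype.equivFin V u < Fintype.equivFin V v then 1 else (-1) ^ r

theorem sgV_swap (r : ℕ) {u v : V} (huv : u ≠ v) : sgV V r v u = (-1) ^ r * sgV V r u v := by
  unfold sgV
  have h : Fintype.equivFin V u ≠ Fintype.equivFin V v := fun h =>
    huv ((Fintype.equivFin V).injective h)
  rcases lt_or_gt_of_ne h with h1 | h1
  · rw [if_pos h1, if_neg (not_lt.2 h1.le), mul_one]
  · rw [if_pos h1, if_neg (not_lt.2 h1.le), ← mul_pow]
    simp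

theorem sgV_ne (r : ℕ) (u v : V) : sgV V r u v ≠ 0 := by
  unfold sgV
  split_ifs
  · exact one_ne_zero
  · exact pow_ne_zero _ (by norm_num)

theorem cofSys_fin (r d : ℕ) (p : V × Fin 2 → ℝ) (T : Finset (Finset V)) :
    Module.Finite ℝ (CofSys r d p T) := by
  have hmem : ∀ (u v : V) (g : CofSys r d p T), g.1 u v ∈
      MvPolynomial.restrictTotalDegree (Fin 2) ℝ d := by
    intro u v g
    rw [MvPolynomial.mem_restrictTotalDegree]
    exact g.2.deg u v
  let Φ : CofSys r d p T →ₗ[ℝ] (V → V → MvPolynomial.restrictTotalDegree (Fin 2) ℝ d) :=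
    LinearMap.pi fun u => LinearMap.pi fun v => LinearMap.codRestrict _
      ((LinearMap.proj v).comp ((LinearMap.proj u).comp (CofSys r d p T).subtype)) (hmem u v)
  apply Module.Finite.of_injective Φ
  intro f g h
  apply Subtype.ext
  funext u v
  exact congrArg Subtype.val (congrFun (congrFun h u) v)

theorem kk_le (r n : ℕ) (p : V × Fin 2 → ℝ) (hu : ∀ v, ∃ t ∈ T, v ∈ t) :
    Module.finrank ℝ (BSpl.KK r n (sgV V r) T (pt p)) ≤ Module.finrank ℝ (CofSys r n p T) := by
  classical
  have hmem : ∀ q : BSpl.KK r n (sgV V r) T (pt p), (fun u v =>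
      if u ≠ v ∧ ({u, v} : Finset V) ∈ intE T then sgV V r u v • q.1 {u, v} else 0) ∈
        CofSys r n p T := by
    intro q
    obtain ⟨h1, h2, h3⟩ := q.2
    refine ⟨fun u v h => ?_, fun u v => ?_, fun u v => ?_, fun u hu' => ?_⟩
    · by_contra h4
      exact h (if_neg h4)
    · show (if u ≠ v ∧ ({u, v} : Finset V) ∈ intE T then sgV V r u v • q.1 {u, v} else 0).totalDegree
        ≤ n
      split_ifs with h4
      · refine (MvPolynomial.totalDegree_smul_le _ _).trans ?_
        apply BSpl.mem_Deg.1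
        apply h1
        rw [SplD.low_EI]
        exact h4.2
      · simp
    · show (if v ≠ u ∧ ({v, u} : Finset V) ∈ intE T then sgV V r v u • q.1 {v, u} else 0) =
        (-1) ^ r * (if u ≠ v ∧ ({u, v} : Finset V) ∈ intE T then sgV V r u v • q.1 {u, v} else 0)
      rw [Finset.pair_comm v u]
      by_cases h4 : u ≠ v ∧ ({u, v} : Finset V) ∈ intE T
      · rw [if_pos h4, if_pos ⟨h4.1.symm, h4.2⟩, sgV_swap r h4.1, mul_smul,
          MvPolynomial.smul_eq_C_mul, map_pow, map_neg, map_one]
      · rw [if_neg h4, if_neg (fun h5 => h4 ⟨h5.1.symm, h5.2⟩), mul_zero]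
    · have h4 := h3 u (by rw [SplD.low_VI hu]; exact hu')
      have h5 : ∀ v, (if u ≠ v ∧ ({u, v} : Finset V) ∈ intE T then sgV V r u v • q.1 {u, v} else 0) *
          lin p u v ^ (r + 1) = (if v ∈ BSpl.nbrs T u then (-1) ^ (r + 1) *
            (sgV V r u v • (q.1 {u, v} * BSpl.ell (pt p u) (pt p v) ^ (r + 1))) else 0) := by
        intro v
        have hnb : v ∈ BSpl.nbrs T u ↔ v ≠ u ∧ ({u, v} : Finset V) ∈ edges T := by
          rw [SplZ.nbrs_eq hu, mem_nb]
        by_cases h6 : u ≠ v ∧ ({u, v} : Finset V) ∈ intE T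
        · have h7 : v ≠ u ∧ ({u, v} : Finset V) ∈ edges T := ⟨h6.1.symm, (Finset.mem_filter.1 h6.2).1⟩
          rw [if_pos h6, if_pos (hnb.2 h7), SplD.low_ell, neg_pow (lin p u v), smul_mul_assoc]
          have h8 : ((-1 : MvPolynomial (Fin 2) ℝ) ^ (r + 1)) * (-1) ^ (r + 1) = 1 := by
            rw [← mul_pow]
            simp
          rw [MvPolynomial.smul_eq_C_mul, MvPolynomial.smul_eq_C_mul]
          linear_combination (-(MvPolynomial.C (sgV V r u v) * (q.1 {u, v} * lin p u v ^ (r + 1)))) *
            h8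
        · have h7 : ¬ (v ≠ u ∧ ({u, v} : Finset V) ∈ edges T) := by
            rintro ⟨h8, h9⟩
            apply h6
            refine ⟨h8.symm, Finset.mem_filter.2 ⟨h9, ?_⟩⟩
            exact (Finset.mem_filter.1 hu').2 _ h9 (by simp)
          rw [if_neg h6, if_neg (fun h8 => h7 (hnb.1 h8)), zero_mul]
      show ∑ v, (if u ≠ v ∧ ({u, v} : Finset V) ∈ intE T then sgV V r u v • q.1 {u, v} else 0) *
          lin p u v ^ (r + 1) = 0
      rw [Finset.sum_congr rfl (fun v _ => h5 v), ← Finset.sum_filter]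
      have h6 : (univ : Finset V).filter (fun v => v ∈ BSpl.nbrs T u) = BSpl.nbrs T u := by
        ext v
        simp
      rw [h6, ← Finset.mul_sum, h4, mul_zero]
  let Φ : BSpl.KK r n (sgV V r) T (pt p) →ₗ[ℝ] CofSys r n p T :=
    { toFun := fun q => ⟨_, hmem q⟩
      map_add' := by
        intro q q'
        apply Subtype.ext
        funext u v
        show (if u ≠ v ∧ ({u, v} : Finset V) ∈ intE T then sgV V r u v • (q.1 {u, v} + q'.1 {u, v})
          else 0) = (if u ≠ v ∧ ({u, v} : Finset V) ∈ intE T then sgV V r u v • q.1 {u, v} else 0) +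
            (if u ≠ v ∧ ({u, v} : Finset V) ∈ intE T then sgV V r u v • q'.1 {u, v} else 0)
        split_ifs
        · rw [smul_add]
        · rw [add_zero]
      map_smul' := by
        intro a q
        apply Subtype.ext
        funext u v
        show (if u ≠ v ∧ ({u, v} : Finset V) ∈ intE T then sgV V r u v • (a • q.1 {u, v})
          else 0) = a • (if u ≠ v ∧ ({u, v} : Finset V) ∈ intE T then sgV V r u v • q.1 {u, v} else 0)
        split_ifs
        · rw [smul_comm]
        · rw [smul_zero] }
  have := cofSys_fin r n p T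
  refine LinearMap.finrank_le_finrank_of_injective (f := Φ) ?_
  rw [injective_iff_map_eq_zero]
  intro q hq
  apply Subtype.ext
  funext e
  by_cases he : e ∈ BSpl.EI T
  · rw [SplD.low_EI] at he
    obtain ⟨u, v, huv, rfl⟩ := Finset.card_eq_two.1 (mem_edges.1 (Finset.mem_filter.1 he).1).1
    have h1 : (if u ≠ v ∧ ({u, v} : Finset V) ∈ intE T then sgV V r u v • q.1 {u, v} else 0) = 0 :=
      congrFun (congrFun (congrArg Subtype.val hq) u) v
    rw [if_pos ⟨huv, he⟩] at h1
    exact (smul_eq_zero.1 h1).resolve_left (sgV_ne r u v)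
  · exact q.2.2.1 e he

/-- the lower bound for `CofSys` -/
theorem cofSys_ge (r d : ℕ) (p : V × Fin 2 → ℝ) (hu : ∀ v, ∃ t ∈ T, v ∈ t) :
    (d + 2).choose 2 * (intE T).card + ∑ v ∈ intV T, BSpl.sig r (d + r + 1) (nb (edges T) v).card ≤
      Module.finrank ℝ (CofSys r d p T) + (intV T).card * BSpl.gam r (d + r + 1) := by
  have h1 := BSpl.KK_lower r d (sgV V r) T (pt p)
  have h2 := kk_le r d p hu
  rw [SplD.low_EI, SplD.low_VI hu] at h1
  have h3 : ∑ v ∈ intV T, (∑ j ∈ Finset.range (d + 1), min (j + r + 2)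
      ((BSpl.nbrs T v).card * (j + 1)) + BSpl.sig r (d + r + 1) (nb (edges T) v).card) =
      (intV T).card * BSpl.gam r (d + r + 1) := by
    rw [← smul_eq_mul, ← Finset.sum_const]
    refine Finset.sum_congr rfl fun v _ => ?_
    rw [SplZ.nbrs_eq hu]
    exact BSpl.sum_min r d _
  rw [Finset.sum_add_distrib] at h3
  omega

/-- relations at the holes -/
theorem cofSys_le (r d : ℕ) (p : V × Fin 2 → ℝ) :
    Module.finrank ℝ (CofSys r d p T) ≤
      Module.finrank ℝ (CofH r d p T lab) + c * (r + 1 + d + 2).choose 2 := by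
  classical
  have hlin : ∀ u v, (lin p u v).totalDegree ≤ 1 := by
    intro u v
    have hX : ∀ (i : Fin 2) (a : ℝ),
        (MvPolynomial.X i - MvPolynomial.C a : MvPolynomial (Fin 2) ℝ).totalDegree ≤ 1 := by
      intro i a
      refine (MvPolynomial.totalDegree_sub _ _).trans (max_le ?_ ?_)
      · rw [MvPolynomial.totalDegree_X]
      · rw [MvPolynomial.totalDegree_C]; omega
    unfold lin
    refine (MvPolynomial.totalDegree_sub _ _).trans (max_le ?_ ?_)
    · refine (MvPolynomial.totalDegree_mul _ _).trans ?_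
      rw [MvPolynomial.totalDegree_C, zero_add]
      exact hX _ _
    · refine (MvPolynomial.totalDegree_mul _ _).trans ?_
      rw [MvPolynomial.totalDegree_C, zero_add]
      exact hX _ _
  let L : {i : Fin (c + 1) // i ≠ 0} → (V → V → MvPolynomial (Fin 2) ℝ) →ₗ[ℝ]
      MvPolynomial (Fin 2) ℝ := fun i =>
    ∑ u ∈ fib T lab (Sum.inr i.1), ∑ v, LinearMap.mulRight ℝ (lin p u v ^ (r + 1)) ∘ₗ
      LinearMap.proj v ∘ₗ LinearMap.proj u
  have hL : ∀ i g, L i g = ∑ u ∈ fib T lab (Sum.inr i.1), ∑ v, g u v * lin p u v ^ (r + 1) := by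
    intro i g
    simp only [L]
    simp
  have hmem : ∀ (i : {i : Fin (c + 1) // i ≠ 0}) (g : CofSys r d p T), L i g.1 ∈
      MvPolynomial.restrictTotalDegree (Fin 2) ℝ (r + 1 + d) := by
    intro i g
    rw [hL]
    refine Submodule.sum_mem _ fun u _ => Submodule.sum_mem _ fun v _ => ?_
    rw [MvPolynomial.mem_restrictTotalDegree]
    refine (MvPolynomial.totalDegree_mul _ _).trans ?_
    have h1 : (lin p u v ^ (r + 1)).totalDegree ≤ (r + 1) * 1 :=
      (MvPolynomial.totalDegree_pow _ _).trans (Nat.mul_le_mul_left _ (hlin u v))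
    have h2 := g.2.deg u v
    omega
  let Φ : CofSys r d p T →ₗ[ℝ] ({i : Fin (c + 1) // i ≠ 0} →
      MvPolynomial.restrictTotalDegree (Fin 2) ℝ (r + 1 + d)) :=
    LinearMap.pi fun i => LinearMap.codRestrict _ ((L i).comp (CofSys r d p T).subtype) (hmem i)
  have hΦ : ∀ g i, ((Φ g i : MvPolynomial.restrictTotalDegree (Fin 2) ℝ (r + 1 + d)) :
      MvPolynomial (Fin 2) ℝ) = L i g.1 := fun _ _ => rfl
  have := cofSys_fin r d p T
  have h1 := LinearMap.finrank_range_add_finrank_ker Φ
  have hfin : Module.Finite ℝ (MvPolynomial.restrictTotalDegree (Fin 2) ℝ (r + 1 + d)) := by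
    apply Module.finite_of_finrank_pos
    rw [finrank_polys]
    exact Nat.choose_pos (by omega)
  have h2 : Module.finrank ℝ (LinearMap.range Φ) ≤ c * (r + 1 + d + 2).choose 2 := by
    refine (Submodule.finrank_le _).trans ?_
    rw [Module.finrank_pi_fintype]
    simp only [finrank_polys, Finset.sum_const, Finset.card_univ, smul_eq_mul]
    apply le_of_eq
    congr 1
    rw [Fintype.card_subtype_compl, Fintype.card_fin, Fintype.card_unique, Nat.add_sub_cancel]
  have h3 : Module.finrank ℝ (LinearMap.ker Φ) ≤ Module.finrank ℝ (CofH r d p T lab) := by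
    have hmem2 : ∀ g : LinearMap.ker Φ, g.1.1 ∈ CofH r d p T lab := by
      rintro ⟨⟨g, hg⟩, hk⟩
      refine ⟨hg.supp, hg.deg, hg.symm, fun x hx => ?_⟩
      rw [mem_cls] at hx
      rcases hx with ⟨v, hv, rfl⟩ | ⟨i, hi, rfl⟩
      · have e1 : univ.filter (fun u => kap T lab u = Sum.inl v) = {v} := by
          ext u
          rw [Finset.mem_filter, Finset.mem_singleton]
          constructor
          · rintro ⟨-, h4⟩
            by_cases hu : u ∈ intV T
            · rw [kap_int hu] at h4
              exact Sum.inl.inj h4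
            · rw [kap_bd hu] at h4
              exact absurd h4 Sum.inr_ne_inl
          · rintro rfl
            exact ⟨Finset.mem_univ _, kap_int hv⟩
        rw [e1, Finset.sum_singleton]
        exact hg.eq v hv
      · have h4 : Φ ⟨g, hg⟩ ⟨i, hi⟩ = 0 := congrFun (LinearMap.mem_ker.1 hk) ⟨i, hi⟩
        have h5 := hΦ ⟨g, hg⟩ ⟨i, hi⟩
        rw [h4, hL] at h5
        exact h5.symm
    have hfinH : Module.Finite ℝ (CofH r d p T lab) := by
      have hmem3 : ∀ (u v : V) (g : CofH r d p T lab), g.1 u v ∈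
          MvPolynomial.restrictTotalDegree (Fin 2) ℝ d := by
        intro u v g
        rw [MvPolynomial.mem_restrictTotalDegree]
        exact g.2.deg u v
      have hfin2 : Module.Finite ℝ (MvPolynomial.restrictTotalDegree (Fin 2) ℝ d) := by
        apply Module.finite_of_finrank_pos
        rw [finrank_polys]
        exact Nat.choose_pos (by omega)
      let Φ : CofH r d p T lab →ₗ[ℝ] (V → V → MvPolynomial.restrictTotalDegree (Fin 2) ℝ d) :=
        LinearMap.pi fun u => LinearMap.pi fun v => LinearMap.codRestrict _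
          ((LinearMap.proj v).comp ((LinearMap.proj u).comp (CofH r d p T lab).subtype))
          (hmem3 u v)
      apply Module.Finite.of_injective Φ
      intro f g h
      apply Subtype.ext
      funext u v
      exact congrArg Subtype.val (congrFun (congrFun h u) v)
    let Ψ : LinearMap.ker Φ →ₗ[ℝ] CofH r d p T lab :=
      { toFun := fun g => ⟨g.1.1, hmem2 g⟩
        map_add' := fun _ _ => rfl
        map_smul' := fun _ _ => rfl }
    refine LinearMap.finrank_le_finrank_of_injective (f := Ψ) ?_
    intro f g h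
    apply Subtype.ext
    apply Subtype.ext
    have h' := congrArg (fun z : CofH r d p T lab => z.1) h
    exact h'
  omega

end Pool.Agent.SplH
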