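import Pool.Agent.SplH.Mot
import Pool.Agent.SplH.Low

/-!
# The generic dimension of spline spaces on domains with holes

`GenSchH r k c T`: the generic dimension is `Sch r k T - c * binom (k + 2) 2`.  `gen_hole`: for domains with `c` holes, from
the hypotheses `HA`, `HB` for the vertex set of the capped sphere.
-/

set_option autoImplicit false
set_option linter.unusedSectionVars false

namespace Pool.Agent.SplH

open Finset Pool.Agent.Spl1 Pool.Agent.Spl2 Pool.Agent.SplG Pool.Agent.SplZ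

variable {V : Type} [Fintype V] [DecidableEq V]
variable {T : Finset (Finset V)} {c : ℕ} {lab : V → Fin (c + 1)}

/-- the number of the problem for domains with `c` holes -/
def SchH (r k c : ℕ) (T : Finset (Finset V)) : ℤ := Sch r k T - c * (k + 2).choose 2

/-- the generic dimension is this number -/
def GenSchH (r k c : ℕ) (T : Finset (Finset V)) : Prop :=
  ∃ d : ℕ, (d : ℤ) = SchH r k c T ∧
    (∀ p : V × Fin 2 → ℝ, IsTriang p T → d ≤ Module.finrank ℝ (SplineFn r k p T)) ∧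
    ∀ p : V × Fin 2 → ℝ, IsTriang p T → ∀ ε : ℝ, 0 < ε →
      ∃ p' : V × Fin 2 → ℝ, dist p' p < ε ∧ IsTriang p' T ∧
        Module.finrank ℝ (SplineFn r k p' T) = d

/-- the formula in terms of cofactors -/
theorem sch_cof (r d : ℕ) (T : Finset (Finset V)) : Sch r (r + 1 + d) T =
    (r + 1 + d + 2).choose 2 + ((((d + 2).choose 2 * (intE T).card +
      ∑ v ∈ intV T, BSpl.sig r (d + r + 1) (nb (edges T) v).card : ℕ) : ℤ) -
        (((intV T).card * BSpl.gam r (d + r + 1) : ℕ) : ℤ)) := by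
  unfold Sch BSpl.sig BSpl.gam
  have e1 : r + 1 + d - r = d + 1 := by omega
  have e2 : d + r + 1 - r = d + 1 := by omega
  have e3 : d + r + 1 + 2 = r + 1 + d + 2 := by ring
  rw [e1, e2, e3]
  push_cast
  ring

/-- the lower bound -/
theorem Dm.sch_le (h : Dm T c lab) {p : V × Fin 2 → ℝ} (hp : IsTriang p T) {r k : ℕ}
    (hk : r < k) : SchH r k c T ≤ (Module.finrank ℝ (SplineFn r k p T) : ℤ) := by
  obtain ⟨d, rfl⟩ : ∃ d, k = r + 1 + d := ⟨k - r - 1, by omega⟩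
  rw [h.finrank_fn hp, h.finrank_alg hp]
  have h1 := cofSys_ge r d p h.used (T := T)
  have h2 := cofSys_le (lab := lab) r d p (T := T)
  unfold SchH
  rw [sch_cof]
  have h3 : (((d + 2).choose 2 * (intE T).card +
      ∑ v ∈ intV T, BSpl.sig r (d + r + 1) (nb (edges T) v).card : ℕ) : ℤ) ≤
      ((Module.finrank ℝ (CofSys r d p T) + (intV T).card * BSpl.gam r (d + r + 1) : ℕ) : ℤ) := by
    exact_mod_cast h1
  have h4 : ((Module.finrank ℝ (CofSys r d p T) : ℕ) : ℤ) ≤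
      ((Module.finrank ℝ (CofH r d p T lab) + c * (r + 1 + d + 2).choose 2 : ℕ) : ℤ) := by
    exact_mod_cast h2
  push_cast at h3 h4 ⊢
  linarith

theorem Dm.gen_of_upper (h : Dm T c lab) {p₀ : V × Fin 2 → ℝ}
    (hp₀ : IsTriang p₀ T) {r k : ℕ} (hk : r < k)
    (hup : ∀ p : V × Fin 2 → ℝ, IsTriang p T → ∀ ε : ℝ, 0 < ε →
      ∃ p' : V × Fin 2 → ℝ, dist p' p < ε ∧ IsTriang p' T ∧
        (Module.finrank ℝ (SplineFn r k p' T) : ℤ) ≤ SchH r k c T) : GenSchH r k c T := by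
  obtain ⟨p', -, h2, h3⟩ := hup p₀ hp₀ 1 one_pos
  have h5 : (Module.finrank ℝ (SplineFn r k p' T) : ℤ) = SchH r k c T :=
    le_antisymm h3 (h.sch_le h2 hk)
  refine ⟨Module.finrank ℝ (SplineFn r k p' T), h5, fun p hp => ?_, fun p hp ε hε => ?_⟩
  · have h6 := h.sch_le hp hk
    rw [← h5] at h6
    exact_mod_cast h6
  · obtain ⟨p'', h6, h7, h8⟩ := hup p hp ε hε
    refine ⟨p'', h6, h7, ?_⟩
    have h10 : (Module.finrank ℝ (SplineFn r k p'' T) : ℤ) = SchH r k c T :=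
      le_antisymm h8 (h.sch_le h7 hk)
    rw [← h5] at h10
    exact_mod_cast h10

/-- **the generic dimension for domains with holes** -/
theorem gen_hole (h : Dm T c lab) {p₀ : V × Fin 2 → ℝ} (hp₀ : IsTriang p₀ T)
    {q δ : ℕ} (hδ : 1 ≤ δ) (h1 : 2 * δ ≤ 3 * q) (h2 : 3 * q ≤ 2 * δ + 3)
    (hA : HA (V ⊕ Fin (c + 1)) q δ) (hB : HB (V ⊕ Fin (c + 1)) q δ) (r k : ℕ) (hr : r + 1 ≤ δ)
    (hk : r + δ ≤ k) : GenSchH r k c T := by
  obtain ⟨e₀, he₀, v₀, hv₀, hl₀⟩ := h.onto 0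
  have hl : ∀ v ∈ e₀, lab v = 0 := fun v hv => by rw [h.lab_eq he₀ hv₀ v hv, hl₀]
  have hF : cn c 0 e₀ ∈ cap T lab := cn_mem_cap.2 ⟨he₀, hl⟩
  obtain ⟨Q, hQ, hQ'⟩ := gz_sph hδ h1 h2 rfl hA hB _ (cap T lab) rfl h.sph _ hF
  obtain ⟨z, Q', hQ'0, hQ'1⟩ := fix_cone (c := c) (mul_ne_zero hQ (genP_ne (V := V ⊕ Fin (c + 1))))
  obtain ⟨τ, hτ⟩ : ∃ τ, τ = tau (cap T lab) (cn c 0 e₀) q (δ / 2 + 1) := ⟨_, rfl⟩
  have hτ1 : ∀ x, τ x = δ / 2 + 1 ∨ τ x = q := by
    intro x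
    rw [hτ]
    unfold tau
    split_ifs
    · exact Or.inl rfl
    · exact Or.inr rfl
  rw [← hτ] at hQ'
  have hZ : ∀ p : V × Fin 2 → ℝ, MvPolynomial.eval p Q' ≠ 0 →
      (∀ μ ∈ Sol (2 * δ - 1) δ τ (ph p z) (edges (cap T lab)) (vs (cap T lab) \ cn c 0 e₀),
        ∀ x ∈ vs (cap T lab) \ cn c 0 e₀, dl (ph p z) x ^ τ x ∣ μ x) ∧
      (∀ x y : V ⊕ Fin (c + 1), x ≠ y → ph p z (x, 1) ≠ ph p z (y, 1)) := by
    intro p hp
    rw [hQ'1, map_mul] at hp
    exact ⟨hQ' _ (left_ne_zero_of_mul hp), (genP_spec (right_ne_zero_of_mul hp)).1⟩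
  -- one good position for the truncated motions
  obtain ⟨p₁, hp₁⟩ : ∃ p : V × Fin 2 → ℝ, MvPolynomial.eval p Q' ≠ 0 := by
    by_contra hcon
    push Not at hcon
    exact hQ'0 (MvPolynomial.funext fun x => by rw [hcon x, map_zero])
  have hT := h.trunc p₁ z he₀ (hZ p₁ hp₁).1
  obtain ⟨Q₂, hQ₂, hQ₂'⟩ := z_bridge T (2 * δ - 1) δ (fun v => τ (Sum.inl v)) p₁ hδ
    (by
      intro v _
      rcases hτ1 (Sum.inl v) with h | h <;> omega)
    (by
      intro u _ v _ _ _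
      rcases hτ1 (Sum.inl u) with h | h <;> rcases hτ1 (Sum.inl v) with h' | h' <;> omega) hT
  have hrk : r < k := by omega
  refine h.gen_of_upper hp₀ hrk fun p hp ε hε => ?_
  obtain ⟨p', hp', hp'Q⟩ := exists_eval_ne_of_open (mul_ne_zero hQ'0 hQ₂)
    ((isOpen_isTriang T).inter Metric.isOpen_ball) ⟨p, hp, Metric.mem_ball_self hε⟩
  rw [map_mul] at hp'Q
  refine ⟨p', hp'.2, hp'.1, ?_⟩
  obtain ⟨d, rfl⟩ : ∃ d, k = r + 1 + d := ⟨k - r - 1, by omega⟩
  obtain ⟨hZ1, hZ2⟩ := hZ p' (left_ne_zero_of_mul hp'Q)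
  have hy : ∀ u v : V, u ≠ v → p' (u, 1) ≠ p' (v, 1) := fun u v huv =>
    hZ2 (Sum.inl u) (Sum.inl v) (fun h => huv (Sum.inl.inj h))
  have hR := h.hole_rest (by omega) (fun x y => by
    rcases hτ1 x with h | h <;> rcases hτ1 y with h' | h' <;> omega) p' z he₀ hl hZ2 hZ1
  have hR' := rest_all (fun u v huv _ => hy u v huv) hR (r + 1 + d) (d + 1) (by omega) (by omega)
  have hle := solH_le p' (r + 1 + d) (d + 1) hR'
  have hd1 := finrank_cofQ r d p' (intE T) (kap T lab) (cls T c)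
    (fun e he => (mem_edges.1 (Finset.mem_filter.1 he).1).1) (fun u v huv _ => hy u v huv)
  have hd2 := finrank_cofSys r d p' T (fun u v huv _ => hy u v huv)
  have hd3 := hQ₂' p' (right_ne_zero_of_mul hp'Q) r d (by omega) (by omega)
  rw [cls_card] at hd1
  have hd4 : Module.finrank ℝ (CofH r d p' T lab) + c * (r + d + 3).choose 2 ≤
      Module.finrank ℝ (CofSys r d p' T) := by
    have e1 : ((intV T).card + c) * (r + d + 3).choose 2 =
        (intV T).card * (r + d + 3).choose 2 + c * (r + d + 3).choose 2 := by ring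
    rw [e1] at hd1
    have hd1' : Module.finrank ℝ (CofH r d p' T lab) + ((intV T).card * (r + d + 3).choose 2 +
        c * (r + d + 3).choose 2) = (d + 2).choose 2 * (intE T).card +
          Module.finrank ℝ (SolH (r + 1 + d) (d + 1) p' T lab) := hd1
    omega
  rw [h.finrank_fn hp'.1, h.finrank_alg hp'.1]
  unfold SchH
  rw [sch_cof]
  have e1 : ∑ v ∈ intV T, ∑ j ∈ Icc 1 (d + 1), (r + j + 1 - j * (nb (intE T) v).card) =
      ∑ v ∈ intV T, BSpl.sig r (d + r + 1) (nb (edges T) v).card := by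
    refine Finset.sum_congr rfl fun v hv => ?_
    unfold BSpl.sig
    rw [nb_eq hv]
    have e2 : d + r + 1 - r = d + 1 := by omega
    rw [e2]
  have e2 : BSpl.gam r (d + r + 1) = (r + d + 3).choose 2 - (r + 2).choose 2 := by
    unfold BSpl.gam
    have e3 : d + r + 1 + 2 = r + d + 3 := by ring
    rw [e3]
  rw [e1, ← e2] at hd3
  have e3 : r + 1 + d + 2 = r + d + 3 := by ring
  rw [e3]
  have h6 : ((Module.finrank ℝ (CofH r d p' T lab) + c * (r + d + 3).choose 2 : ℕ) : ℤ) ≤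
      ((Module.finrank ℝ (CofSys r d p' T) : ℕ) : ℤ) := by exact_mod_cast hd4
  have h7 : ((Module.finrank ℝ (CofSys r d p' T) + (intV T).card * BSpl.gam r (d + r + 1) : ℕ) : ℤ) ≤
      (((d + 2).choose 2 * (intE T).card +
        ∑ v ∈ intV T, BSpl.sig r (d + r + 1) (nb (edges T) v).card : ℕ) : ℤ) := by
    exact_mod_cast hd3
  push_cast at h6 h7 ⊢
  linarith

end Pool.Agent.SplH
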