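import Pool.Agent.SplH.Defs
import Pool.Agent.SplZ.Jet

/-!
# Coprime linear forms, derivatives of motions
-/

set_option autoImplicit false
set_option linter.unusedSectionVars false

namespace Pool.Agent.SplH

open MvPolynomial Pool.Agent.Spl2 Pool.Agent.SplZ

section lin
variable {W : Type*} {K : Type*} [Field K]

theorem dl_homog (p : W × Fin 2 → K) (w : W) : (dl p w).IsHomogeneous 1 := by
  unfold dl
  refine IsHomogeneous.add (IsHomogeneous.add ?_ ?_) (isHomogeneous_X _ _)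
  · have := (isHomogeneous_C (Fin 3) (p (w, 0))).mul (isHomogeneous_X K (0 : Fin 3))
    simpa using this
  · have := (isHomogeneous_C (Fin 3) (p (w, 1))).mul (isHomogeneous_X K (1 : Fin 3))
    simpa using this

theorem dl_coeff (p : W × Fin 2 → K) (w : W) :
    coeff (Finsupp.single (2 : Fin 3) 1) (dl p w) = 1 ∧
      coeff (Finsupp.single (1 : Fin 3) 1) (dl p w) = p (w, 1) := by
  have e : ∀ (i j : Fin 3), coeff (Finsupp.single i 1) (X j : MvPolynomial (Fin 3) K) =
      if j = i then 1 else 0 := by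
    intro i j
    rw [coeff_X]
    by_cases h : j = i
    · rw [if_pos h, if_pos (by rw [h])]
    · rw [if_neg h, if_neg]
      intro h2
      have := Finsupp.single_left_injective (one_ne_zero) h2
      exact h this
  unfold dl
  constructor
  · rw [coeff_add, coeff_add, coeff_C_mul, coeff_C_mul, e, e, e]
    simp
  · rw [coeff_add, coeff_add, coeff_C_mul, coeff_C_mul, e, e, e]
    simp

theorem dl_ne (p : W × Fin 2 → K) (w : W) : dl p w ≠ 0 := by
  intro h
  have h1 := (dl_coeff p w).1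
  rw [h, coeff_zero] at h1
  exact zero_ne_one h1

theorem dl_irr (p : W × Fin 2 → K) (w : W) : Irreducible (dl p w) := by
  apply irreducible_of_totalDegree_eq_one
  · exact (dl_homog p w).totalDegree (dl_ne p w)
  · intro x hx
    have h1 := hx (Finsupp.single (2 : Fin 3) 1)
    rw [(dl_coeff p w).1] at h1
    exact isUnit_of_dvd_one h1

theorem dl_not_dvd {p : W × Fin 2 → K} {x y : W} (h : p (x, 1) ≠ p (y, 1)) :
    ¬ dl p x ∣ dl p y := by
  rintro ⟨g, hg⟩
  have hg0 : g ≠ 0 := by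
    rintro rfl
    rw [mul_zero] at hg
    exact dl_ne p y hg
  have h1 : (dl p y).totalDegree = 1 := (dl_homog p y).totalDegree (dl_ne p y)
  rw [hg, totalDegree_mul_of_isDomain (dl_ne p x) hg0,
    (dl_homog p x).totalDegree (dl_ne p x)] at h1
  have h2 : g.totalDegree = 0 := by omega
  rw [totalDegree_eq_zero_iff_eq_C] at h2
  obtain ⟨a, ha⟩ : ∃ a, g = C a := ⟨_, h2⟩
  rw [ha, mul_comm] at hg
  have h3 := (dl_coeff p y).1
  have h4 := (dl_coeff p y).2
  rw [hg, coeff_C_mul, (dl_coeff p x).1, mul_one] at h3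
  rw [hg, coeff_C_mul, (dl_coeff p x).2, h3, one_mul] at h4
  exact h h4

theorem eq_zero_of_dl [DecidableEq W] {p : W × Fin 2 → K} {S : Finset W}
    (hinj : ∀ x ∈ S, ∀ y ∈ S, x ≠ y → p (x, 1) ≠ p (y, 1)) {a : W → ℕ} {k : ℕ}
    {f : MvPolynomial (Fin 3) K} (hf : f.IsHomogeneous k) (hd : ∀ x ∈ S, dl p x ^ a x ∣ f)
    (hk : k < ∑ x ∈ S, a x) : f = 0 := by
  by_contra hne
  have h1 : (∏ x ∈ S, dl p x ^ a x) ∣ f := by
    apply Finset.prod_dvd_of_isRelPrime ?_ hd
    intro x hx y hy hxy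
    apply IsRelPrime.pow
    rw [(dl_irr p x).isRelPrime_iff_not_dvd]
    exact dl_not_dvd (hinj x hx y hy hxy)
  obtain ⟨g, hg⟩ := h1
  have hg0 : g ≠ 0 := by
    rintro rfl
    rw [mul_zero] at hg
    exact hne hg
  have hP0 : (∏ x ∈ S, dl p x ^ a x) ≠ 0 :=
    Finset.prod_ne_zero_iff.2 fun x _ => pow_ne_zero _ (dl_ne p x)
  have hP : (∏ x ∈ S, dl p x ^ a x).IsHomogeneous (∑ x ∈ S, a x) := by
    apply IsHomogeneous.prod
    intro x _
    have := (dl_homog p x).pow (a x)
    rwa [one_mul] at this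
  have h2 := hf.totalDegree hne
  rw [hg, totalDegree_mul_of_isDomain hP0 hg0, hP.totalDegree hP0] at h2
  omega

end lin

section motions
variable {V : Type*} [Fintype V] [DecidableEq V] {W : Type*} [DecidableEq W] {K : Type*} [Field K]

theorem mem_solQ {p : V × Fin 2 → K} {E : Finset (Finset V)} {κ : V → W} {C : Finset W}
    {k δ : ℕ} {μ : W → MvPolynomial (Fin 3) K} :
    μ ∈ SolQ k δ p E κ C ↔ (∀ x, (μ x).IsHomogeneous k) ∧ (∀ x, x ∉ C → μ x = 0) ∧
      ∀ u v, u ≠ v → ({u, v} : Finset V) ∈ E → Jd δ (adp p u v (μ (κ u) - μ (κ v))) := by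
  constructor
  · rintro ⟨h1, h2, h3⟩
    refine ⟨h1, h2, fun u v huv he => ?_⟩
    rw [jd_iff (adp_homog p u v k _ ((h1 _).sub (h1 _)))]
    intro i j hij
    exact h3 u v huv he i j hij
  · rintro ⟨h1, h2, h3⟩
    refine ⟨h1, h2, fun u v huv he i j hij => ?_⟩
    exact (jd_iff (adp_homog p u v k _ ((h1 _).sub (h1 _)))).1 (h3 u v huv he) i j hij

theorem jd_X0 {p : V × Fin 2 → K} {u v : V} {δ : ℕ} {F : MvPolynomial (Fin 3) K}
    (h : Jd δ (adp p u v F)) : Jd δ (adp p u v (X 0 * F)) := by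
  have e : adp p u v (X 0 * F) = C (p (u, 1) - p (v, 1)) * (X 2 * adp p u v F) := by
    rw [map_mul]
    have : adp p u v (X 0) = C (p (u, 1) - p (v, 1)) * X 2 := by
      unfold adp
      simp
    rw [this]
    ring
  rw [e]
  apply Jd.C_mul
  intro m hm
  by_cases hm2 : m 2 = 0
  · rw [coeff_X_mul', if_neg]
    simpa using hm2
  · rw [coeff_X_mul', if_pos (by simpa using hm2)]
    exact h _ (by simpa using hm)

theorem jd_pderiv {p : V × Fin 2 → K} {u v : V} (huv : p (u, 1) ≠ p (v, 1)) {δ : ℕ}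
    {F : MvPolynomial (Fin 3) K} (h : Jd (δ + 1) (adp p u v F)) (j : Fin 3) :
    Jd δ (adp p u v (pderiv j F)) := by
  have hd := sub_ne_zero.2 huv
  obtain ⟨e0, e1, e2⟩ := pderiv_adp' p u v F
  have D := fun i => h.pderiv i
  have f2 : Jd δ (adp p u v (pderiv 2 F)) := by
    refine Jd.of_C_mul hd ?_
    have : C (p (u, 1) - p (v, 1)) * adp p u v (pderiv 2 F) =
        pderiv 0 (adp p u v F) + pderiv 1 (adp p u v F) := by
      rw [e0, e1, C_sub]
      ring
    rw [this]
    exact (D 0).add (D 1)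
  have f1 : Jd δ (adp p u v (pderiv 1 F)) := by
    have : adp p u v (pderiv 1 F) = pderiv 0 (adp p u v F) +
        C (p (v, 1)) * adp p u v (pderiv 2 F) := by
      rw [e0]
      ring
    rw [this]
    exact (D 0).add (f2.C_mul _)
  have f0 : Jd δ (adp p u v (pderiv 0 F)) := by
    refine Jd.of_C_mul hd ?_
    have : C (p (u, 1) - p (v, 1)) * adp p u v (pderiv 0 F) =
        pderiv 2 (adp p u v F) +
        C (p (u, 0) - p (v, 0)) * adp p u v (pderiv 1 F) -
        C (p (u, 0) * p (v, 1) - p (v, 0) * p (u, 1)) *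
          adp p u v (pderiv 2 F) := by
      rw [e2]
      ring
    rw [this]
    exact ((D 2).add (f1.C_mul _)).sub (f2.C_mul _)
  fin_cases j
  · exact f0
  · exact f1
  · exact f2

theorem zero_of_pderiv [CharZero K] {k : ℕ} {F : MvPolynomial (Fin 3) K}
    (hF : F.IsHomogeneous (k + 1)) (h : ∀ j, pderiv j F = 0) : F = 0 := by
  have h1 := hF.sum_X_mul_pderiv
  simp only [h, mul_zero, Finset.sum_const_zero] at h1
  have h2 : ((k + 1 : ℕ) : MvPolynomial (Fin 3) K) * F = 0 := by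
    rw [← nsmul_eq_mul]
    exact h1.symm
  rcases mul_eq_zero.1 h2 with h3 | h3
  · exact absurd h3 (Nat.cast_ne_zero.2 (Nat.succ_ne_zero k))
  · exact h3

/-- the classes in `D` are at rest -/
def Rest (p : V × Fin 2 → K) (k δ : ℕ) (E : Finset (Finset V)) (κ : V → W) (C D : Finset W) :
    Prop := ∀ μ ∈ SolQ k δ p E κ C, ∀ x ∈ D, μ x = 0

theorem rest_pred {p : V × Fin 2 → K} {k δ : ℕ} {E : Finset (Finset V)} {κ : V → W}
    {C D : Finset W} (h : Rest p (k + 1) δ E κ C D) : Rest p k δ E κ C D := by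
  intro μ hμ x hx
  obtain ⟨h1, h2, h3⟩ := mem_solQ.1 hμ
  have h4 : (fun x => X 0 * μ x) ∈ SolQ (k + 1) δ p E κ C := by
    rw [mem_solQ]
    refine ⟨fun x => ?_, fun x hx => ?_, fun u v huv he => ?_⟩
    · have := (isHomogeneous_X K (0 : Fin 3)).mul (h1 x)
      rwa [add_comm] at this
    · rw [h2 x hx, mul_zero]
    · have e : X 0 * μ (κ u) - X 0 * μ (κ v) = X 0 * (μ (κ u) - μ (κ v)) := by ring
      rw [e]
      exact jd_X0 (h3 u v huv he)
  have h5 := h _ h4 x hx
  rcases mul_eq_zero.1 h5 with h6 | h6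
  · exact absurd h6 (X_ne_zero _)
  · exact h6

theorem rest_succ [CharZero K] {p : V × Fin 2 → K} {k δ : ℕ} {E : Finset (Finset V)} {κ : V → W}
    {C D : Finset W} (hp : ∀ u v, u ≠ v → ({u, v} : Finset V) ∈ E → p (u, 1) ≠ p (v, 1))
    (h : Rest p k δ E κ C D) : Rest p (k + 1) (δ + 1) E κ C D := by
  intro μ hμ x hx
  obtain ⟨h1, h2, h3⟩ := mem_solQ.1 hμ
  apply zero_of_pderiv (h1 x)
  intro j
  refine h (fun x => pderiv j (μ x)) ?_ x hx
  rw [mem_solQ]
  refine ⟨fun x => ?_, fun x hx => ?_, fun u v huv he => ?_⟩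
  · exact (h1 x).pderiv
  · rw [h2 x hx, map_zero]
  · rw [← map_sub]
    exact jd_pderiv (hp u v huv he) (h3 u v huv he) j

theorem rest_all [CharZero K] {p : V × Fin 2 → K} {k δ : ℕ} {E : Finset (Finset V)} {κ : V → W}
    {C D : Finset W} (hp : ∀ u v, u ≠ v → ({u, v} : Finset V) ∈ E → p (u, 1) ≠ p (v, 1))
    (h : Rest p k δ E κ C D) (k' δ' : ℕ) (h1 : δ ≤ δ') (h2 : k' + δ ≤ k + δ') :
    Rest p k' δ' E κ C D := by
  obtain ⟨n, rfl⟩ := Nat.exists_eq_add_of_le h1
  have h3 : Rest p (k + n) (δ + n) E κ C D := by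
    clear h1 h2
    induction n with
    | zero => exact h
    | succ n ih => exact rest_succ hp ih
  obtain ⟨m, hm⟩ := Nat.exists_eq_add_of_le (show k' ≤ k + n by omega)
  rw [hm] at h3
  clear hm h2
  induction m with
  | zero => exact h3
  | succ m ih => exact ih (rest_pred h3)

end motions

end Pool.Agent.SplH
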