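import Pool.Agent.SplH.Final
import Pool.Agent.SplF.Fin

/-!
# Domains with holes: the cases proved

`Dom T c`: `T` is a connected triangulated surface with Euler characteristic `1 - c` and at least `c + 1` boundary
components, so (if it is realised in the plane) a triangulation of a domain with `c` holes.  `Dom T 0` are the discs.
-/

set_option autoImplicit false
set_option linter.unusedSectionVars false

namespace Pool.Agent.SplH

open Finset Pool.Agent.Spl1 Pool.Agent.Spl2 Pool.Agent.SplG Pool.Agent.SplZ Pool.Agent.SplF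

variable {V : Type} [Fintype V] [DecidableEq V]

/-- triangulated domains with `c` holes: `T` and all vertex stars are connected through edges, the Euler characteristic is
`1 - c`, and the boundary edges fall into at least `c + 1` components -/
structure Dom (T : Finset (Finset V)) (c : ℕ) : Prop where
  ne : T.Nonempty
  dconn : ∀ S ⊆ T, S.Nonempty → (∀ s ∈ S, ∀ t ∈ T, (s ∩ t).card = 2 → t ∈ S) → S = T
  sconn : ∀ v, ∀ S ⊆ star T v, S.Nonempty →
    (∀ s ∈ S, ∀ t ∈ star T v, (s ∩ t).card = 2 → t ∈ S) → S = star T v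
  euler : Fintype.card V + T.card + c = (edges T).card + 1
  comp : ∃ lab : V → Fin (c + 1), (∀ e ∈ bdry T, ∀ u ∈ e, ∀ v ∈ e, lab u = lab v) ∧
    ∀ i, ∃ e ∈ bdry T, ∃ v ∈ e, lab v = i

theorem Dom.dm {T : Finset (Finset V)} {c : ℕ} (h : Dom T c) {p : V × Fin 2 → ℝ}
    (hp : IsTriang p T) : ∃ lab : V → Fin (c + 1), Dm T c lab := by
  obtain ⟨lab, h1, h2⟩ := h.comp
  refine ⟨lab, hp.card3, fun e he => tdeg_le_two hp he, hp.used, h.ne, h.dconn, ?_, h.euler, h1,
    h2⟩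
  intro v S hS hne hcl
  apply h.sconn v S hS hne
  intro s hs t ht hst
  rw [mem_star] at ht
  have hvs := (mem_star.1 (hS hs)).2
  have h3 : ((s ∩ t).erase v).card = 1 := by
    rw [Finset.card_erase_of_mem (Finset.mem_inter.2 ⟨hvs, ht.2⟩), hst]
  obtain ⟨u, hu⟩ := Finset.card_eq_one.1 h3
  have h4 : u ∈ (s ∩ t).erase v := by rw [hu]; simp
  rw [Finset.mem_erase, Finset.mem_inter] at h4
  exact hcl s hs t ht.1 u h4.1 ht.2 h4.2.1 h4.2.2

/-- discs are domains without holes -/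
theorem dom_of_disc {T : Finset (Finset V)} (hT : Disc T) {p : V × Fin 2 → ℝ}
    (hp : IsTriang p T) : Dom T 0 := by
  have hG := good_of_disc hp hT
  refine ⟨hT.ne, hT.dconn, ?_, hT.euler, fun _ => 0, fun _ _ _ _ _ _ => rfl, ?_⟩
  · intro v S hS hne hcl
    apply star_conn hG hT hp.used (ori_ori hp) hS hne
    intro s hs t ht u huv hvt hus hut
    have hs' := mem_star.1 (hS hs)
    by_cases hst : s = t
    · rw [← hst]
      exact hs
    apply hcl s hs t (mem_star.2 ⟨ht, hvt⟩)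
    have h1 : ({v, u} : Finset V) ⊆ s ∩ t := by
      intro x hx
      simp only [Finset.mem_insert, Finset.mem_singleton] at hx
      rcases hx with rfl | rfl
      · exact Finset.mem_inter.2 ⟨hs'.2, hvt⟩
      · exact Finset.mem_inter.2 ⟨hus, hut⟩
    have h2 := Finset.card_le_card h1
    rw [Finset.card_pair huv.symm] at h2
    have h3 : (s ∩ t).card < 3 := by
      by_contra h4
      have h5 : s ∩ t = s := Finset.eq_of_subset_of_card_le Finset.inter_subset_left
        (by rw [hp.card3 s hs'.1]; omega)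
      have h6 : s ∩ t = t := Finset.eq_of_subset_of_card_le Finset.inter_subset_right
        (by rw [hp.card3 t ht]; omega)
      exact hst (h5.symm.trans h6)
    omega
  · intro i
    have hb : (bdry T).Nonempty := by
      by_contra hno
      rw [Finset.not_nonempty_iff_eq_empty] at hno
      have h2 := hG.H2 T (Finset.Subset.refl _) hno
      have h3 := hT.ne
      rw [h2] at h3
      exact Finset.not_nonempty_empty h3
    obtain ⟨e, he⟩ := hb
    obtain ⟨v, hv⟩ : e.Nonempty := by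
      rw [← Finset.card_pos, (mem_bdry.1 he).1]
      omega
    exact ⟨e, he, v, hv, by apply Fin.ext; simp⟩

theorem Dom.disc {T : Finset (Finset V)} (h : Dom T 0) : Disc T :=
  ⟨h.ne, h.dconn, h.euler⟩

/-- prime powers -/
theorem Dom.gen_pp {T : Finset (Finset V)} {c : ℕ} (hT : Dom T c) {p₀ : V × Fin 2 → ℝ}
    (hp₀ : IsTriang p₀ T) {q : ℕ} (hq : IsPrimePow q) (r k : ℕ) (hr : r + 1 ≤ 3 * q / 2)
    (hk : r + 3 * q / 2 ≤ k) : GenSchH r k c T := by
  obtain ⟨lab, hD⟩ := hT.dm hp₀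
  obtain ⟨ℓ, e, hℓ, he, rfl⟩ := hq
  have hℓ' : Fact ℓ.Prime := ⟨hℓ.nat_prime⟩
  have hpos : 0 < ℓ ^ e := pow_pos hℓ'.out.pos e
  obtain ⟨m, hm⟩ : ∃ m, 2 * m + 1 = ℓ ^ e ∨ 2 * m + 2 = ℓ ^ e := ⟨(ℓ ^ e - 1) / 2, by omega⟩
  have hδ : 3 * ℓ ^ e / 2 = 2 * ℓ ^ e - 1 - m := by omega
  rw [hδ] at hr hk
  have hk0 : 2 * (2 * ℓ ^ e - 1 - m) - 1 = 4 * ℓ ^ e - 3 - 2 * m := by omega
  refine gen_hole hD hp₀ (q := ℓ ^ e) (δ := 2 * ℓ ^ e - 1 - m) (by omega) (by omega) (by omega)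
    ?_ ?_ r k hr hk
  · intro P hP hF h8 F hFP
    obtain ⟨K, i1, p, h⟩ := sol_HA ℓ e m hm hP hF h8 hFP
    rw [hk0]
    exact SplG.gz_of_special p (fun v _ => by omega) (fun μ hμ v _ => h μ hμ v)
  · intro P hP hF h8 x b c a _ _ _ hx ha
    obtain ⟨K, i1, p, h⟩ := sol_HB ℓ e m hm hP hF h8 hx ha
    rw [hk0]
    exact SplG.gz_of_special p (fun v _ => by omega) (fun μ hμ v _ => h μ hμ v)

theorem genSchH_zero {r k : ℕ} {T : Finset (Finset V)} (h : GenSch r k T) : GenSchH r k 0 T := by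
  obtain ⟨d, h1, h2, h3⟩ := h
  exact ⟨d, by rw [h1]; unfold SchH; simp, h2, h3⟩

/-- all cases -/
theorem Dom.gen_all {T : Finset (Finset V)} {c : ℕ} (hT : Dom T c) {p₀ : V × Fin 2 → ℝ}
    (hp₀ : IsTriang p₀ T) {r k : ℕ} (h : (c = 0 ∧ 1 ≤ r ∧ 5 * r ≤ 2 * k + 1) ∨
      ∃ q, IsPrimePow q ∧ r + 1 ≤ 3 * q / 2 ∧ r + 3 * q / 2 ≤ k) : GenSchH r k c T := by
  rcases h with ⟨rfl, h1, h2⟩ | ⟨q, hq, h1, h2⟩
  · exact genSchH_zero (gen_of_5r hT.disc hp₀ h1 h2)
  · exact hT.gen_pp hp₀ hq r k h1 h2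

end Pool.Agent.SplH
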