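import Pool.Agent.SplH.Main
import Pool.Agent.SplW.Fin
import Pool.Agent.SplB.Main

/-!
# Domains with holes: all `r ≥ 1` and all `k ≥ 2 r + 1`
-/

set_option autoImplicit false

namespace Pool.Agent.SplH

open Finset Pool.Agent.Spl1 Pool.Agent.Spl2 Pool.Agent.SplG Pool.Agent.SplZ Pool.Agent.SplF

variable {V : Type} [Fintype V] [DecidableEq V]

theorem special_w {ρ : ℕ} (hρ : 2 ≤ ρ) : SplW.Special ρ (ρ - (ρ + 2) / 3) :=
  SplB.special hρ _ rfl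

/-- **the generic dimension for all `r ≥ 1`, `k ≥ 2 r + 1`** -/
theorem Dom.gen_w {T : Finset (Finset V)} {c : ℕ} (hT : Dom T c) {p₀ : V × Fin 2 → ℝ}
    (hp₀ : IsTriang p₀ T) {r k : ℕ} (hr : 1 ≤ r) (hk : 2 * r + 1 ≤ k) : GenSchH r k c T := by
  obtain ⟨lab, hD⟩ := hT.dm hp₀
  obtain ⟨ρ, hρ⟩ : ∃ ρ, ρ = r + 1 := ⟨_, rfl⟩
  obtain ⟨hA, hB⟩ := SplW.ha_hb_of_special (by omega : 2 ≤ ρ)
    (special_w (by omega : 2 ≤ ρ)) (V ⊕ Fin (c + 1))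
  exact gen_hole hD hp₀ (q := ρ - (ρ + 2) / 3 + 1) (δ := ρ) (by omega) (by omega) (by omega)
    hA hB r k (by omega) (by omega)

end Pool.Agent.SplH
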