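import Pool.Agent.SplH.Lin
import Pool.Agent.SplH.Dual
import Pool.Agent.SplG.Ind

/-!
# Motions of domains with holes and of their capped spheres

A motion of the domain which is constant on the boundary components extends to the capped sphere.  If the motions of
the capped sphere are trivial (`GZ`), the holes are at rest (`hole_rest`), and the truncated motions of the domain are trivial.
-/

set_option autoImplicit false
set_option linter.unusedSectionVars false

namespace Pool.Agent.SplH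

open Finset Pool.Agent.Spl1 Pool.Agent.Spl2 Pool.Agent.SplG Pool.Agent.SplZ

variable {V : Type*} [Fintype V] [DecidableEq V]
variable {T : Finset (Finset V)} {c : ℕ} {lab : V → Fin (c + 1)}

/-- positions of the capped sphere -/
def ph (p : V × Fin 2 → ℝ) (q : Fin (c + 1) × Fin 2 → ℝ) : (V ⊕ Fin (c + 1)) × Fin 2 → ℝ :=
  fun z => match z.1 with
    | Sum.inl v => p (v, z.2)
    | Sum.inr i => q (i, z.2)

theorem dl_ph (p : V × Fin 2 → ℝ) (q : Fin (c + 1) × Fin 2 → ℝ) (v : V) :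
    dl (ph p q) (Sum.inl v) = dl p v := rfl

theorem adp_ph (p : V × Fin 2 → ℝ) (q : Fin (c + 1) × Fin 2 → ℝ) (u v : V) :
    adp (ph p q) (Sum.inl u) (Sum.inl v) = adp p u v := rfl

/-- the extended motion -/
noncomputable def mh (T : Finset (Finset V)) (lab : V → Fin (c + 1))
    (μ : V ⊕ Fin (c + 1) → MvPolynomial (Fin 3) ℝ) : V ⊕ Fin (c + 1) → MvPolynomial (Fin 3) ℝ :=
  fun x => match x with
    | Sum.inl v => μ (kap T lab v)
    | Sum.inr i => μ (Sum.inr i)

theorem vs_cap (h : Dm T c lab) : vs (cap T lab) = univ := by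
  rw [Finset.eq_univ_iff_forall]
  intro x
  have h1 : x ∈ uv (cap T lab) := by rw [h.uv_cap]; exact Finset.mem_univ _
  rw [mem_uv] at h1
  obtain ⟨t, ht⟩ := h1
  rw [mem_star] at ht
  unfold vs
  rw [Finset.mem_filter]
  exact ⟨Finset.mem_univ _, t, ht.1, ht.2⟩

/-- edges of the capped sphere between old vertices -/
theorem Dm.edge_inl (h : Dm T c lab) {u v : V}
    (he : ({Sum.inl u, Sum.inl v} : Finset (V ⊕ Fin (c + 1))) ∈ edges (cap T lab)) :
    ({u, v} : Finset V) ∈ edges T := by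
  rw [h.edges_cap, Finset.mem_union, Finset.mem_image, Finset.mem_image] at he
  have hup : (up c {u, v} : Finset (V ⊕ Fin (c + 1))) = {Sum.inl u, Sum.inl v} := by
    unfold up
    rw [Finset.map_insert, Finset.map_singleton]
    rfl
  rcases he with ⟨e, he, h1⟩ | ⟨w, -, h1⟩
  · rw [← hup] at h1
    rw [← up_inj h1]
    exact he
  · exfalso
    have h2 : (Sum.inr (lab w) : V ⊕ Fin (c + 1)) ∈ ce c w (lab w) := by
      unfold ce
      simp
    rw [h1] at h2
    simp at h2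

/-- edges of the capped sphere to a cone vertex -/
theorem Dm.edge_inr (h : Dm T c lab) {u : V} {i : Fin (c + 1)}
    (he : ({Sum.inl u, Sum.inr i} : Finset (V ⊕ Fin (c + 1))) ∈ edges (cap T lab)) :
    u ∉ intV T ∧ lab u = i := by
  rw [h.edges_cap, Finset.mem_union, Finset.mem_image, Finset.mem_image] at he
  rcases he with ⟨e, -, h1⟩ | ⟨w, hw, h1⟩
  · exfalso
    have h2 : (Sum.inr i : V ⊕ Fin (c + 1)) ∈ up c e := by
      rw [h1]
      simp
    exact inr_up h2
  · have h2 : (Sum.inl u : V ⊕ Fin (c + 1)) ∈ ce c w (lab w) := by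
      rw [h1]
      simp
    have h3 : (Sum.inr i : V ⊕ Fin (c + 1)) ∈ ce c w (lab w) := by
      rw [h1]
      simp
    unfold ce at h2 h3
    simp only [Finset.mem_insert, Finset.mem_singleton, Sum.inl.injEq, reduceCtorEq, or_false,
      false_or, Sum.inr.injEq] at h2 h3
    rw [h2, h3]
    exact ⟨Finset.mem_compl.1 hw, rfl⟩

theorem Dm.not_inr_inr (_h : Dm T c lab) {i j : Fin (c + 1)} (hij : i ≠ j) :
    ({Sum.inr i, Sum.inr j} : Finset (V ⊕ Fin (c + 1))) ∉ edges (cap T lab) := by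
  intro he
  obtain ⟨-, t, ht, hs⟩ := mem_edges.1 he
  have h1 : (Sum.inr i : V ⊕ Fin (c + 1)) ∈ t := hs (by simp)
  have h2 : (Sum.inr j : V ⊕ Fin (c + 1)) ∈ t := hs (by simp)
  rw [mem_cap] at ht
  rcases ht with ⟨s, hs, rfl⟩ | ⟨l, e, he, hl, rfl⟩
  · exact inr_up h1
  · rw [inr_cn] at h1 h2
    exact hij (by rw [h1, h2])

/-- extended motions are motions of the capped sphere -/
theorem Dm.mh_mem (h : Dm T c lab) {k δ : ℕ} {τ : V ⊕ Fin (c + 1) → ℕ} (p : V × Fin 2 → ℝ)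
    (q : Fin (c + 1) × Fin 2 → ℝ) {e₀ : Finset V} (he₀ : e₀ ∈ bdry T) (hl₀ : ∀ v ∈ e₀, lab v = 0)
    {μ : V ⊕ Fin (c + 1) → MvPolynomial (Fin 3) ℝ} (hμ : μ ∈ SolH k δ p T lab) :
    mh T lab μ ∈ Sol k δ τ (ph p q) (edges (cap T lab)) (vs (cap T lab) \ cn c 0 e₀) := by
  obtain ⟨h1, h2, h3⟩ := hμ
  have hz : μ (Sum.inr 0) = 0 := by
    apply h2
    rw [mem_cls]
    rintro (⟨v, -, h4⟩ | ⟨i, h4, h5⟩)
    · exact Sum.inr_ne_inl h4
    · exact h4 (Sum.inr.inj h5).symm
  have hbd : ∀ u v, ({u, v} : Finset V) ∈ edges T → ({u, v} : Finset V) ∉ intE T →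
      kap T lab u = kap T lab v := by
    intro u v he hi
    exact h.kap_eq ((h.mem_or he).resolve_left hi)
  refine ⟨?_, ?_, ?_⟩
  · intro x
    rcases x with v | i
    · exact h1 _
    · exact h1 _
  · intro x hx
    rw [vs_cap h, Finset.mem_sdiff] at hx
    have hx' : x ∈ cn c 0 e₀ := by
      by_contra h4
      exact hx ⟨Finset.mem_univ _, h4⟩
    rcases x with v | i
    · rw [mem_cn] at hx'
      show μ (kap T lab v) = 0
      rw [kap_bd (bd_notInt he₀ hx'), hl₀ v hx', hz]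
    · rw [inr_cn] at hx'
      show μ (Sum.inr i) = 0
      rw [hx', hz]
  · intro x y hxy he i j hij _ _
    rcases x with u | a <;> rcases y with v | b
    · have huv : u ≠ v := fun h4 => hxy (by rw [h4])
      have he' := h.edge_inl he
      show MvPolynomial.coeff (ex3 i j (k - i - j))
        (adp (ph p q) (Sum.inl u) (Sum.inl v) (μ (kap T lab u) - μ (kap T lab v))) = 0
      rw [adp_ph]
      by_cases h4 : ({u, v} : Finset V) ∈ intE T
      · exact h3 u v huv h4 i j hij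
      · rw [hbd u v he' h4, sub_self, map_zero, MvPolynomial.coeff_zero]
    · obtain ⟨h4, h5⟩ := h.edge_inr he
      show MvPolynomial.coeff (ex3 i j (k - i - j))
        (adp (ph p q) (Sum.inl u) (Sum.inr b) (μ (kap T lab u) - μ (Sum.inr b))) = 0
      rw [kap_bd h4, h5, sub_self, map_zero, MvPolynomial.coeff_zero]
    · rw [Finset.pair_comm] at he
      obtain ⟨h4, h5⟩ := h.edge_inr he
      show MvPolynomial.coeff (ex3 i j (k - i - j))
        (adp (ph p q) (Sum.inr a) (Sum.inl v) (μ (Sum.inr a) - μ (kap T lab v))) = 0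
      rw [kap_bd h4, h5, sub_self, map_zero, MvPolynomial.coeff_zero]
    · have hab : a ≠ b := fun h4 => hxy (by rw [h4])
      exact absurd he (h.not_inr_inr hab)

/-- a truncated motion extended by `0` -/
noncomputable def mz (μ : V → MvPolynomial (Fin 3) ℝ) : V ⊕ Fin (c + 1) → MvPolynomial (Fin 3) ℝ :=
  fun x => match x with
    | Sum.inl v => μ v
    | Sum.inr _ => 0

theorem Dm.mz_mem (h : Dm T c lab) {k δ : ℕ} {τ : V ⊕ Fin (c + 1) → ℕ} (p : V × Fin 2 → ℝ)
    (q : Fin (c + 1) × Fin 2 → ℝ) {e₀ : Finset V} (he₀ : e₀ ∈ bdry T)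
    {μ : V → MvPolynomial (Fin 3) ℝ}
    (hμ : μ ∈ Sol k δ (fun v => τ (Sum.inl v)) p (intE T) (intV T)) :
    (mz μ : V ⊕ Fin (c + 1) → MvPolynomial (Fin 3) ℝ) ∈
      Sol k δ τ (ph p q) (edges (cap T lab)) (vs (cap T lab) \ cn c 0 e₀) := by
  obtain ⟨h1, h2, h3⟩ := hμ
  refine ⟨?_, ?_, ?_⟩
  · intro x
    rcases x with v | i
    · exact h1 _
    · exact MvPolynomial.isHomogeneous_zero _ _ _
  · intro x hx
    rw [vs_cap h, Finset.mem_sdiff] at hx
    have hx' : x ∈ cn c 0 e₀ := by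
      by_contra h4
      exact hx ⟨Finset.mem_univ _, h4⟩
    rcases x with v | i
    · rw [mem_cn] at hx'
      exact h2 v (bd_notInt he₀ hx')
    · rfl
  · intro x y hxy he i j hij hi hj
    rcases x with u | a <;> rcases y with v | b
    · have huv : u ≠ v := fun h4 => hxy (by rw [h4])
      have he' := h.edge_inl he
      show MvPolynomial.coeff (ex3 i j (k - i - j))
        (adp (ph p q) (Sum.inl u) (Sum.inl v) (μ u - μ v)) = 0
      rw [adp_ph]
      by_cases h4 : ({u, v} : Finset V) ∈ intE T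
      · exact h3 u v huv h4 i j hij hi hj
      · have h5 := (h.mem_or he').resolve_left h4
        rw [h2 u (bd_notInt h5 (by simp)), h2 v (bd_notInt h5 (by simp)), sub_self, map_zero,
          MvPolynomial.coeff_zero]
    · obtain ⟨h4, h5⟩ := h.edge_inr he
      show MvPolynomial.coeff (ex3 i j (k - i - j))
        (adp (ph p q) (Sum.inl u) (Sum.inr b) (μ u - 0)) = 0
      rw [h2 u h4, sub_self, map_zero, MvPolynomial.coeff_zero]
    · rw [Finset.pair_comm] at he
      obtain ⟨h4, h5⟩ := h.edge_inr he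
      show MvPolynomial.coeff (ex3 i j (k - i - j))
        (adp (ph p q) (Sum.inr a) (Sum.inl v) (0 - μ v)) = 0
      rw [h2 v h4, sub_self, map_zero, MvPolynomial.coeff_zero]
    · have hab : a ≠ b := fun h4 => hxy (by rw [h4])
      exact absurd he (h.not_inr_inr hab)

/-- fixing the positions of the cone vertices in a polynomial -/
theorem fix_cone {Q : MvPolynomial ((V ⊕ Fin (c + 1)) × Fin 2) ℝ} (hQ : Q ≠ 0) :
    ∃ (q : Fin (c + 1) × Fin 2 → ℝ) (Q' : MvPolynomial (V × Fin 2) ℝ), Q' ≠ 0 ∧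
      ∀ p : V × Fin 2 → ℝ, MvPolynomial.eval p Q' = MvPolynomial.eval (ph p q) Q := by
  obtain ⟨p₀, hp₀⟩ : ∃ p : (V ⊕ Fin (c + 1)) × Fin 2 → ℝ, MvPolynomial.eval p Q ≠ 0 := by
    by_contra hcon
    push Not at hcon
    exact hQ (MvPolynomial.funext fun x => by rw [hcon x, map_zero])
  let q : Fin (c + 1) × Fin 2 → ℝ := fun z => p₀ (Sum.inr z.1, z.2)
  let g : (V ⊕ Fin (c + 1)) × Fin 2 → MvPolynomial (V × Fin 2) ℝ := fun z => match z.1 with
    | Sum.inl v => MvPolynomial.X (v, z.2)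
    | Sum.inr i => MvPolynomial.C (q (i, z.2))
  have key : ∀ p : V × Fin 2 → ℝ, MvPolynomial.eval p (MvPolynomial.aeval g Q) =
      MvPolynomial.eval (ph p q) Q := by
    intro p
    have h1 : (MvPolynomial.eval p).comp
        ((MvPolynomial.aeval g : MvPolynomial ((V ⊕ Fin (c + 1)) × Fin 2) ℝ →ₐ[ℝ] _) :
          MvPolynomial ((V ⊕ Fin (c + 1)) × Fin 2) ℝ →+* MvPolynomial (V × Fin 2) ℝ) =
        MvPolynomial.eval (ph p q) := by
      apply MvPolynomial.ringHom_ext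
      · intro a
        simp
      · rintro ⟨v, i⟩
        rcases v with v | j
        · simp [g, ph]
        · simp [g, ph]
    exact RingHom.congr_fun h1 Q
  refine ⟨q, MvPolynomial.aeval g Q, ?_, key⟩
  intro h0
  have h1 := key (fun z => p₀ (Sum.inl z.1, z.2))
  rw [h0, map_zero] at h1
  have h2 : ph (fun z : V × Fin 2 => p₀ (Sum.inl z.1, z.2)) q = p₀ := by
    funext z
    obtain ⟨v, i⟩ := z
    rcases v with v | j
    · rfl
    · rfl
  rw [h2] at h1
  exact hp₀ h1.symm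

/-- three vertices on the boundary of a hole -/
theorem Dm.three (h : Dm T c lab) (i : Fin (c + 1)) : ∃ a b d : V, a ≠ b ∧ a ≠ d ∧ b ≠ d ∧
    ({a, b} : Finset V) ∈ bdry T ∧ ({a, d} : Finset V) ∈ bdry T ∧ lab a = i ∧ lab b = i ∧
      lab d = i := by
  obtain ⟨e, he, a, ha, hi⟩ := h.onto i
  have h1 := h.vdeg_two (bd_notInt he ha)
  unfold vdeg at h1
  obtain ⟨e1, e2, h12, h2⟩ := Finset.card_eq_two.1 h1
  have key : ∀ f ∈ (bdry T).filter (fun e => a ∈ e), ∃ b, b ≠ a ∧ f = {a, b} ∧ f ∈ bdry T := by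
    intro f hf
    rw [Finset.mem_filter] at hf
    have h3 : (f.erase a).card = 1 := by
      rw [Finset.card_erase_of_mem hf.2, (mem_bdry.1 hf.1).1]
    obtain ⟨b, hb⟩ := Finset.card_eq_one.1 h3
    have h4 : b ∈ f.erase a := by rw [hb]; simp
    exact ⟨b, (Finset.mem_erase.1 h4).1, by rw [← Finset.insert_erase hf.2, hb], hf.1⟩
  obtain ⟨b, hb1, hb2, hb3⟩ := key e1 (by rw [h2]; simp)
  obtain ⟨d, hd1, hd2, hd3⟩ := key e2 (by rw [h2]; simp)
  rw [hb2] at hb3
  rw [hd2] at hd3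
  refine ⟨a, b, d, hb1.symm, hd1.symm, ?_, hb3, hd3, hi, ?_, ?_⟩
  · rintro rfl
    exact h12 (hb2.trans hd2.symm)
  · rw [← hi]
    exact h.same _ hb3 b (by simp) a (by simp)
  · rw [← hi]
    exact h.same _ hd3 d (by simp) a (by simp)

/-- **holes are at rest** -/
theorem Dm.hole_rest (h : Dm T c lab) {k δ : ℕ} {τ : V ⊕ Fin (c + 1) → ℕ} (hk : k < 2 * δ)
    (hτ : ∀ x y, δ ≤ τ x + τ y) (p : V × Fin 2 → ℝ)
    (q : Fin (c + 1) × Fin 2 → ℝ) {e₀ : Finset V} (he₀ : e₀ ∈ bdry T) (hl₀ : ∀ v ∈ e₀, lab v = 0)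
    (hy : ∀ x y : V ⊕ Fin (c + 1), x ≠ y → ph p q (x, 1) ≠ ph p q (y, 1))
    (hZ : ∀ μ ∈ Sol k δ τ (ph p q) (edges (cap T lab)) (vs (cap T lab) \ cn c 0 e₀),
      ∀ x ∈ vs (cap T lab) \ cn c 0 e₀, dl (ph p q) x ^ τ x ∣ μ x) :
    Rest p k δ (intE T) (kap T lab) (cls T c)
      ((univ : Finset (Fin (c + 1))).image (Sum.inr : Fin (c + 1) → V ⊕ Fin (c + 1))) := by
  intro μ hμ x hx
  rw [Finset.mem_image] at hx
  obtain ⟨i, -, rfl⟩ := hx
  by_cases hi : i = 0
  · apply hμ.2.1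
    rw [mem_cls, hi]
    rintro (⟨v, -, h4⟩ | ⟨j, h4, h5⟩)
    · exact Sum.inr_ne_inl h4
    · exact h4 (Sum.inr.inj h5).symm
  have h1 := hZ _ (h.mh_mem p q he₀ hl₀ hμ)
  obtain ⟨a, b, d, hab, had, hbd, heab, head, hla, hlb, hld⟩ := h.three i
  have hout : ∀ v, lab v = i → (Sum.inl v : V ⊕ Fin (c + 1)) ∈ vs (cap T lab) \ cn c 0 e₀ := by
    intro v hv
    rw [vs_cap h, Finset.mem_sdiff]
    refine ⟨Finset.mem_univ _, fun h2 => ?_⟩
    rw [mem_cn] at h2
    exact hi (by rw [← hv, hl₀ v h2])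
  have hrim : ∀ v, v ∉ intV T → lab v = i → dl (ph p q) (Sum.inl v) ^ τ (Sum.inl v) ∣
      μ (Sum.inr i) := by
    intro v hv hl
    have h2 := h1 (Sum.inl v) (hout v hl)
    have h3 : mh T lab μ (Sum.inl v) = μ (kap T lab v) := rfl
    rw [h3, kap_bd hv, hl] at h2
    exact h2
  have hcone : dl (ph p q) (Sum.inr i) ^ τ (Sum.inr i) ∣ μ (Sum.inr i) := by
    apply h1 (Sum.inr i)
    rw [vs_cap h, Finset.mem_sdiff]
    refine ⟨Finset.mem_univ _, fun h2 => ?_⟩
    rw [inr_cn] at h2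
    exact hi h2
  refine eq_zero_of_dl (p := ph p q) (S := {Sum.inr i, Sum.inl a, Sum.inl b, Sum.inl d})
    (fun x _ y _ hxy => hy x y hxy) (a := τ) (hμ.1 _) ?_ ?_
  · intro x hx
    simp only [Finset.mem_insert, Finset.mem_singleton] at hx
    rcases hx with rfl | rfl | rfl | rfl
    · exact hcone
    · exact hrim a (bd_notInt heab (by simp)) hla
    · exact hrim b (bd_notInt heab (by simp)) hlb
    · exact hrim d (bd_notInt head (by simp)) hld
  · rw [Finset.sum_insert (by simp), Finset.sum_insert (by simp [hab, had]),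
      Finset.sum_insert (by simp [hbd]), Finset.sum_singleton]
    have h2 := hτ (Sum.inr i) (Sum.inl a)
    have h3 := hτ (Sum.inl b) (Sum.inl d)
    omega

/-- the truncated motions of the domain are trivial -/
theorem Dm.trunc (h : Dm T c lab) {k δ : ℕ} {τ : V ⊕ Fin (c + 1) → ℕ} (p : V × Fin 2 → ℝ)
    (q : Fin (c + 1) × Fin 2 → ℝ) {e₀ : Finset V} (he₀ : e₀ ∈ bdry T)
    (hZ : ∀ μ ∈ Sol k δ τ (ph p q) (edges (cap T lab)) (vs (cap T lab) \ cn c 0 e₀),
      ∀ x ∈ vs (cap T lab) \ cn c 0 e₀, dl (ph p q) x ^ τ x ∣ μ x) :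
    ∀ μ ∈ Sol k δ (fun v => τ (Sum.inl v)) p (intE T) (intV T), ∀ v ∈ intV T,
      dl p v ^ τ (Sum.inl v) ∣ μ v := by
  intro μ hμ v hv
  have h1 := hZ _ (h.mz_mem p q he₀ hμ) (Sum.inl v) (by
    rw [vs_cap h, Finset.mem_sdiff]
    refine ⟨Finset.mem_univ _, fun h2 => ?_⟩
    rw [mem_cn] at h2
    exact bd_notInt he₀ h2 hv)
  exact h1

/-- if the holes are at rest, there are not more motions than with fixed holes -/
theorem solH_le (p : V × Fin 2 → ℝ) (k δ : ℕ)
    (hR : Rest p k δ (intE T) (kap T lab) (cls T c)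
      ((univ : Finset (Fin (c + 1))).image (Sum.inr : Fin (c + 1) → V ⊕ Fin (c + 1)))) :
    Module.finrank ℝ (SolH k δ p T lab) ≤
      Module.finrank ℝ (Sol k δ (fun _ => δ) p (intE T) (intV T)) := by
  have hz : ∀ μ ∈ SolH k δ p T lab, ∀ i, μ (Sum.inr i) = 0 := fun μ hμ i =>
    hR μ hμ _ (Finset.mem_image.2 ⟨i, Finset.mem_univ _, rfl⟩)
  have hk : ∀ μ ∈ SolH k δ p T lab, ∀ v, μ (kap T lab v) = μ (Sum.inl v) := by
    intro μ hμ v
    by_cases hv : v ∈ intV T
    · rw [kap_int hv]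
    · rw [kap_bd hv, hz μ hμ]
      symm
      apply hμ.2.1
      rw [mem_cls]
      rintro (⟨w, hw, h4⟩ | ⟨j, -, h5⟩)
      · exact hv (by rw [Sum.inl.inj h4]; exact hw)
      · exact Sum.inl_ne_inr h5
  have hmem : ∀ μ : SolH k δ p T lab, (fun v => μ.1 (Sum.inl v)) ∈
      Sol k δ (fun _ => δ) p (intE T) (intV T) := by
    intro μ
    refine ⟨fun v => μ.2.1 _, fun v hv => ?_, fun u v huv he i j hij _ _ => ?_⟩
    · apply μ.2.2.1
      rw [mem_cls]
      rintro (⟨w, hw, h4⟩ | ⟨j, -, h5⟩)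
      · exact hv (by rw [Sum.inl.inj h4]; exact hw)
      · exact Sum.inl_ne_inr h5
    · have := μ.2.2.2 u v huv he i j hij
      rw [hk μ.1 μ.2, hk μ.1 μ.2] at this
      exact this
  have hfd := brt_fd (K := ℝ) k δ (fun _ : V => δ) p (intE T) (intV T)
  let Φ : SolH k δ p T lab →ₗ[ℝ] Sol k δ (fun _ => δ) p (intE T) (intV T) :=
    { toFun := fun μ => ⟨fun v => μ.1 (Sum.inl v), hmem μ⟩
      map_add' := fun _ _ => rfl
      map_smul' := fun _ _ => rfl }
  have hinj : Function.Injective Φ := by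
    rw [injective_iff_map_eq_zero]
    intro μ hμ
    apply Subtype.ext
    funext x
    rcases x with v | i
    · exact congrFun (congrArg Subtype.val hμ) v
    · exact hz μ.1 μ.2 i
  exact LinearMap.finrank_le_finrank_of_injective hinj

end Pool.Agent.SplH
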