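import Pool.Agent.SplH.Alg
import Pool.Agent.Spl1.TriSmooth

/-!
# Spline functions on domains with holes

The version of `Spl1.finrank_splineFn` for domains with holes.
-/

set_option autoImplicit false
set_option linter.unusedSectionVars false

namespace Pool.Agent.SplH

open Finset Topology Pool.Agent.Spl1 Pool.Agent.Spl2

variable {V : Type*} [Fintype V] [DecidableEq V]
variable {T : Finset (Finset V)} {c : ℕ} {lab : V → Fin (c + 1)}

theorem Dm.agree (h0 : Dm T c lab) {p : V × Fin 2 → ℝ} (hp : IsTriang p T) {r k : ℕ} {f : Finset V → MvPolynomial (Fin 2) ℝ} (hf : f ∈ SplineAlg r k p T)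
    {s t : Finset V} (hs : s ∈ T) (ht : t ∈ T) {z : Fin 2 → ℝ} (h1 : z ∈ hull p s)
    (h2 : z ∈ hull p t) : Agree r (f s) (f t) z := by
  classical
  by_cases hst : s = t
  · subst hst
    exact agree_refl _ _ _
  have hz : z ∈ hull p (s ∩ t) := by
    rw [← hp.inter s hs t ht]
    exact ⟨h1, h2⟩
  have hne : (s ∩ t).Nonempty := by
    by_contra hne
    rw [not_nonempty_iff_eq_empty] at hne
    rw [hne] at hz
    unfold hull at hz
    simp at hz
  have hcard : (s ∩ t).card ≤ 2 := by
    by_contra hc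
    have h3 : (s ∩ t).card ≤ s.card := card_le_card inter_subset_left
    rw [hp.card3 s hs] at h3
    have h4 : s ∩ t = s := eq_of_subset_of_card_le inter_subset_left (by
      rw [hp.card3 s hs]; omega)
    have h5 : s ∩ t = t := eq_of_subset_of_card_le inter_subset_right (by
      rw [hp.card3 t ht]; omega)
    exact hst (h4.symm.trans h5)
  have hcpos := hne.card_pos
  rcases (by omega : (s ∩ t).card = 1 ∨ (s ∩ t).card = 2) with hc | hc
  · obtain ⟨v, hv⟩ := card_eq_one.1 hc
    have hvs : v ∈ s := (mem_inter.1 (hv ▸ mem_singleton_self v : v ∈ s ∩ t)).1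
    have hvt : v ∈ t := (mem_inter.1 (hv ▸ mem_singleton_self v : v ∈ s ∩ t)).2
    have hzv : z = pt p v := by
      rw [hv] at hz
      unfold hull at hz
      simpa using hz
    subst hzv
    have key := h0.sconn v ((star T v).filter (fun t' => Agree r (f s) (f t') (pt p v)))
      (filter_subset _ _)
      ⟨s, mem_filter.2 ⟨mem_star.2 ⟨hs, hvs⟩, agree_refl _ _ _⟩⟩ (by
        intro s' hs' t' ht' u hu hvt' hus' hut'
        obtain ⟨hs'1, hs'2⟩ := mem_filter.1 hs'
        obtain ⟨hs'T, hvs'⟩ := mem_star.1 hs'1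
        refine mem_filter.2 ⟨mem_star.2 ⟨ht', hvt'⟩, agree_trans hs'2 ?_⟩
        exact ts_agree_edge hf hs'T ht' hu.symm hvs' hus' hvt' hut'
          (pt_mem_hull (mem_insert_self v {u})))
    have ht' : t ∈ star T v := mem_star.2 ⟨ht, hvt⟩
    rw [← key] at ht'
    exact (mem_filter.1 ht').2
  · obtain ⟨u, v, huv, he⟩ := card_eq_two.1 hc
    have hu : u ∈ s ∩ t := by rw [he]; simp
    have hv : v ∈ s ∩ t := by rw [he]; simp
    rw [he] at hz
    exact ts_agree_edge hf hs ht huv (mem_inter.1 hu).1 (mem_inter.1 hv).1 (mem_inter.1 hu).2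
      (mem_inter.1 hv).2 hz

theorem Dm.finrank_fn (h0 : Dm T c lab) {p : V × Fin 2 → ℝ} (hp : IsTriang p T) (r k : ℕ) :
    Module.finrank ℝ (SplineFn r k p T) = Module.finrank ℝ (SplineAlg r k p T) := by
  classical
  obtain ⟨τ, hτ⟩ := ts_glue p T
  obtain ⟨G, hG⟩ : ∃ G : (Finset V → MvPolynomial (Fin 2) ℝ) → (Fin 2 → ℝ) → ℝ,
      ∀ f z, G f z = if z ∈ Omega p T then MvPolynomial.eval z (f (τ z)) else 0 :=
    ⟨_, fun _ _ => rfl⟩
  have hGt : ∀ f ∈ SplineAlg r k p T, ∀ t ∈ T, ∀ z ∈ hull p t,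
      G f z = MvPolynomial.eval z (f t) := by
    intro f hf t ht z hz
    have hz' := ts_hull_omega ht hz
    rw [hG, if_pos hz']
    exact agree_eval (h0.agree hp hf (hτ z hz').1 ht (hτ z hz').2 hz)
  have hGmem : ∀ f ∈ SplineAlg r k p T, G f ∈ SplineFn r k p T := by
    intro f hf
    refine ⟨fun z hz => by rw [hG, if_neg hz], fun t ht => ⟨f t, hf.2.1 t ht, hGt f hf t ht⟩, ?_⟩
    exact contDiffOn_glue r f (G f) (hGt f hf) fun s hs t ht z h1 h2 =>
      h0.agree hp hf hs ht h1 h2
  let Ξ : SplineAlg r k p T →ₗ[ℝ] SplineFn r k p T :=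
    { toFun := fun f => ⟨G f.1, hGmem f.1 f.2⟩
      map_add' := by
        intro f g
        ext z
        show G (f.1 + g.1) z = G f.1 z + G g.1 z
        simp only [hG]
        split_ifs
        · simp
        · simp
      map_smul' := by
        intro c f
        ext z
        show G (c • f.1) z = c • G f.1 z
        simp only [hG]
        split_ifs
        · simp
        · simp }
  have hinj : Function.Injective Ξ := by
    rw [← LinearMap.ker_eq_bot, LinearMap.ker_eq_bot']
    intro f hf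
    have hf' : ∀ z, G f.1 z = 0 := fun z => congrFun (congrArg Subtype.val hf) z
    ext1
    funext t
    by_cases ht : t ∈ T
    · refine ts_eq_of_eval hp ht fun z hz => ?_
      rw [← hGt f.1 f.2 t ht z hz, hf' z]
      simp
    · exact f.2.1 t ht
  have hsurj : Function.Surjective Ξ := by
    rintro ⟨s, hs⟩
    obtain ⟨hs0, hsP, hsC⟩ := hs
    have h1 : ∀ t : Finset V, ∃ P : MvPolynomial (Fin 2) ℝ, (t ∉ T → P = 0) ∧
        (t ∈ T → P.totalDegree ≤ k ∧ ∀ z ∈ hull p t, s z = MvPolynomial.eval z P) := by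
      intro t
      by_cases ht : t ∈ T
      · obtain ⟨P, hP⟩ := hsP t ht
        exact ⟨P, fun h => absurd ht h, fun _ => hP⟩
      · exact ⟨0, fun _ => rfl, fun h => absurd h ht⟩
    choose f hf0 hf1 using h1
    have hf : f ∈ SplineAlg r k p T := by
      refine ⟨hf0, fun t ht => (hf1 t ht).1, fun s' hs' t ht u v huv h1 h2 h3 h4 => ?_⟩
      by_cases hst : s' = t
      · subst hst
        rw [sub_self]
        exact dvd_zero _
      refine dvd_of_agree (fun h => huv (pt_injective hp h)) fun c hc0 hc1 => ?_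
      have hmem : ∀ w : Finset V, u ∈ w → v ∈ w → c • pt p u + (1 - c) • pt p v ∈ hull p w :=
        fun w hu hv => (convex_convexHull ℝ _) (pt_mem_hull hu) (pt_mem_hull hv) hc0.le
          (by linarith) (by ring)
      exact agree_of_contDiffOn hp hs' ht isOpen_interior r (f s') (f t) s
        (fun z hz _ => (hf1 s' hs').2 z hz) (fun z hz _ => (hf1 t ht).2 z hz) hsC
        (edge_mem_interior hp hs' ht hst huv h1 h2 h3 h4 hc0 hc1) (hmem s' h1 h2) (hmem t h3 h4)
    refine ⟨⟨f, hf⟩, ?_⟩
    ext z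
    show G f z = s z
    by_cases hz : z ∈ Omega p T
    · rw [hG, if_pos hz, (hf1 _ (hτ z hz).1).2 z (hτ z hz).2]
    · rw [hG, if_neg hz, hs0 z hz]
  exact (LinearEquiv.ofBijective Ξ ⟨hinj, hsurj⟩).finrank_eq.symm

end Pool.Agent.SplH
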